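import Mathlib

set_option autoImplicit false

open Set Topology

namespace Pool.Agent.H191R3

/-- `p` is `K`-Lipschitz. -/
def LipP {X : Type*} [MetricSpace X] {x y : X} (K : ℝ) (p : Path x y) : Prop :=
  ∀ s t : unitInterval, dist (p s) (p t) ≤ K * |(s : ℝ) - t|

theorem LipP.extend {X : Type*} [MetricSpace X] {x y : X} {K : ℝ} {p : Path x y} (hK : 0 ≤ K)
    (h : LipP K p) (s t : ℝ) : dist (p.extend s) (p.extend t) ≤ K * |s - t| := by
  have h1 := h (projIcc 0 1 zero_le_one s) (projIcc 0 1 zero_le_one t)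
  have h2 : dist (projIcc (0 : ℝ) 1 zero_le_one s) (projIcc 0 1 zero_le_one t) ≤ dist s t := by
    have := (LipschitzWith.projIcc (zero_le_one (α := ℝ))).dist_le_mul s t
    simpa using this
  rw [Subtype.dist_eq, Real.dist_eq, Real.dist_eq] at h2
  calc dist (p.extend s) (p.extend t)
      = dist (p (projIcc 0 1 zero_le_one s)) (p (projIcc 0 1 zero_le_one t)) := rfl
    _ ≤ K * |((projIcc (0 : ℝ) 1 zero_le_one s : unitInterval) : ℝ) -
          (projIcc (0 : ℝ) 1 zero_le_one t : unitInterval)| := h1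
    _ ≤ K * |s - t| := mul_le_mul_of_nonneg_left h2 hK

theorem LipP.symm {X : Type*} [MetricSpace X] {x y : X} {K : ℝ} {p : Path x y}
    (h : LipP K p) : LipP K p.symm := by
  intro s t
  have := h (unitInterval.symm s) (unitInterval.symm t)
  rw [Path.symm_apply, Path.symm_apply]
  refine this.trans (le_of_eq ?_)
  rw [unitInterval.coe_symm_eq, unitInterval.coe_symm_eq, abs_sub_comm]
  congr 2
  ring

theorem LipP.trans {X : Type*} [MetricSpace X] {x y z : X} {K : ℝ} (hK : 0 ≤ K) {p : Path x y}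
    {q : Path y z} (hp : LipP K p) (hq : LipP K q) : LipP (2 * K) (p.trans q) := by
  have hval : ∀ t : unitInterval, (p.trans q) t =
      if (t : ℝ) ≤ 1 / 2 then p.extend (2 * t) else q.extend (2 * t - 1) := fun t => rfl
  have key : ∀ s t : unitInterval, (s : ℝ) ≤ t →
      dist ((p.trans q) s) ((p.trans q) t) ≤ 2 * K * |(s : ℝ) - t| := by
    intro s t hst
    rw [hval, hval]
    split_ifs with h1 h2 h2
    · refine (hp.extend hK _ _).trans (le_of_eq ?_)
      rw [show 2 * (s : ℝ) - 2 * t = 2 * (s - t) by ring, abs_mul, abs_two]; ring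
    · refine (dist_triangle _ y _).trans ?_
      have e1 : dist (p.extend (2 * s)) y ≤ K * |2 * (s : ℝ) - 1| := by
        have := hp.extend hK (2 * s) 1
        rwa [Path.extend_one] at this
      have e2 : dist y (q.extend (2 * t - 1)) ≤ K * |0 - (2 * (t : ℝ) - 1)| := by
        have := hq.extend hK 0 (2 * t - 1)
        rwa [Path.extend_zero] at this
      push Not at h2
      rw [abs_of_nonpos (by linarith)] at e1 e2
      rw [abs_of_nonpos (by linarith)]
      nlinarith
    · exfalso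
      push Not at h1
      linarith
    · refine (hq.extend hK _ _).trans (le_of_eq ?_)
      rw [show 2 * (s : ℝ) - 1 - (2 * t - 1) = 2 * (s - t) by ring, abs_mul, abs_two]; ring
  intro s t
  rcases le_total (s : ℝ) t with h | h
  · exact key s t h
  · rw [dist_comm, abs_sub_comm]
    exact key t s h

/-- `x` and `y` are joined by a `K`-Lipschitz path. -/
def LJ {X : Type*} [MetricSpace X] (K : ℝ) (x y : X) : Prop := ∃ p : Path x y, LipP K p

theorem LipP.mono {X : Type*} [MetricSpace X] {x y : X} {K L : ℝ} (hKL : K ≤ L) {p : Path x y}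
    (h : LipP K p) : LipP L p := fun s t =>
  (h s t).trans (mul_le_mul_of_nonneg_right hKL (abs_nonneg _))

theorem LJ.mono {X : Type*} [MetricSpace X] {x y : X} {K L : ℝ} (hKL : K ≤ L) (h : LJ K x y) :
    LJ L x y := by
  obtain ⟨p, hp⟩ := h
  exact ⟨p, hp.mono hKL⟩

theorem LJ.symm {X : Type*} [MetricSpace X] {x y : X} {K : ℝ} (h : LJ K x y) : LJ K y x := by
  obtain ⟨p, hp⟩ := h
  exact ⟨p.symm, hp.symm⟩

theorem LJ.trans {X : Type*} [MetricSpace X] {x y z : X} {K : ℝ} (hK : 0 ≤ K) (h : LJ K x y)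
    (h' : LJ K y z) : LJ (2 * K) x z := by
  obtain ⟨p, hp⟩ := h
  obtain ⟨q, hq⟩ := h'
  exact ⟨p.trans q, hp.trans hK hq⟩

/-- Lipschitz paths in a subset of a metric space, from a parametrization. -/
theorem LJ.of_param {E : Type*} [MetricSpace E] {S : Set E} (φ : ℝ → E) (C α β : ℝ) (hC : 0 ≤ C)
    (hφ : ∀ t ∈ uIcc α β, φ t ∈ S)
    (hL : ∀ s ∈ uIcc α β, ∀ t ∈ uIcc α β, dist (φ s) (φ t) ≤ C * |s - t|)
    (x y : S) (hx : x.1 = φ α) (hy : y.1 = φ β) : LJ (C * |β - α|) x y := by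
  have hmem : ∀ t : unitInterval, α + t * (β - α) ∈ uIcc α β := by
    intro t
    rw [mem_uIcc]
    have h0 := t.2.1
    have h1 := t.2.2
    rcases le_total α β with h | h
    · left; constructor <;> nlinarith
    · right; constructor <;> nlinarith
  have hdist : ∀ s t : unitInterval, dist (φ (α + s * (β - α))) (φ (α + t * (β - α))) ≤
      C * |β - α| * |(s : ℝ) - t| := by
    intro s t
    refine (hL _ (hmem s) _ (hmem t)).trans (le_of_eq ?_)
    rw [show α + (s : ℝ) * (β - α) - (α + t * (β - α)) = (β - α) * (s - t) by ring, abs_mul]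
    ring
  let f : unitInterval → S := fun t => ⟨φ (α + t * (β - α)), hφ _ (hmem t)⟩
  have hf : Continuous f := by
    refine (LipschitzWith.of_dist_le_mul (K := ⟨C * |β - α|, by positivity⟩) ?_).continuous
    intro s t
    exact hdist s t
  refine ⟨⟨⟨f, hf⟩, ?_, ?_⟩, fun s t => hdist s t⟩
  · apply Subtype.ext
    rw [hx]
    simp [f]
  · apply Subtype.ext
    rw [hy]
    simp [f]

/-- If every point is joined to a base point by a `K`-Lipschitz path, then the space is uniformly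
pathwise connected. -/
theorem uniform_of_LJ {X : Type*} [MetricSpace X] {K : ℝ} (hK : 0 ≤ K) (o : X)
    (h : ∀ x, LJ K o x) (a b : X) : ∃ P : Set (Path a b),
      (∀ ε : ℝ, ε > 0 → ∃ n : ℕ, ∀ p ∈ P, ∃ t : Fin (n + 1) → unitInterval,
          t 0 = 0 ∧ t (Fin.last n) = 1 ∧ StrictMono t ∧
          ∀ i : Fin n, Metric.diam (⇑p '' Set.Icc (t i.castSucc) (t i.succ)) ≤ ε) ∧
      (⋃ p ∈ P, Set.range ⇑p) = Set.univ := by
  refine ⟨{p | LipP (2 * (2 * K)) p}, ?_, ?_⟩
  · intro ε hε
    obtain ⟨n, hn⟩ := exists_nat_gt (max (2 * (2 * K) / ε) 0)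
    have hn0 : (0 : ℝ) < n := lt_of_le_of_lt (le_max_right _ _) hn
    have hn1 : 2 * (2 * K) / ε < n := lt_of_le_of_lt (le_max_left _ _) hn
    refine ⟨n, ?_⟩
    intro p hp
    have hmem : ∀ i : Fin (n + 1), ((i : ℕ) : ℝ) / n ∈ Icc (0 : ℝ) 1 := by
      intro i
      refine ⟨by positivity, ?_⟩
      rw [div_le_one hn0]
      exact_mod_cast Nat.lt_succ_iff.mp i.2
    refine ⟨fun i => ⟨((i : ℕ) : ℝ) / n, hmem i⟩, ?_, ?_, ?_, ?_⟩
    · apply Subtype.ext
      simp
    · apply Subtype.ext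
      show ((n : ℕ) : ℝ) / n = 1
      exact div_self hn0.ne'
    · intro i j hij
      show ((i : ℕ) : ℝ) / n < ((j : ℕ) : ℝ) / n
      apply div_lt_div_of_pos_right _ hn0
      exact_mod_cast hij
    · intro i
      refine Metric.diam_le_of_forall_dist_le hε.le ?_
      rintro _ ⟨s, hs, rfl⟩ _ ⟨t, ht, rfl⟩
      refine (hp s t).trans ?_
      have hs1 : ((i : ℕ) : ℝ) / n ≤ s := hs.1
      have hs2 : (s : ℝ) ≤ (((i : ℕ) + 1 : ℕ) : ℝ) / n := hs.2
      have ht1 : ((i : ℕ) : ℝ) / n ≤ t := ht.1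
      have ht2 : (t : ℝ) ≤ (((i : ℕ) + 1 : ℕ) : ℝ) / n := ht.2
      have e : (((i : ℕ) + 1 : ℕ) : ℝ) / n = ((i : ℕ) : ℝ) / n + 1 / n := by
        push_cast; ring
      rw [e] at hs2 ht2
      have h3 : |(s : ℝ) - t| ≤ 1 / n := by
        rw [abs_le]; constructor <;> linarith
      calc 2 * (2 * K) * |(s : ℝ) - t| ≤ 2 * (2 * K) * (1 / n) :=
            mul_le_mul_of_nonneg_left h3 (by positivity)
        _ ≤ ε := by
          rw [mul_one_div, div_le_iff₀ hn0]
          rw [div_lt_iff₀ hε] at hn1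
          linarith
  · rw [eq_univ_iff_forall]
    intro x
    obtain ⟨p, hp⟩ := ((h a).symm.trans hK (h x))
    obtain ⟨q, hq⟩ := ((h x).symm.trans hK (h b))
    rw [mem_iUnion₂]
    refine ⟨p.trans q, hp.trans (by positivity) hq, ?_⟩
    rw [Path.trans_range]
    left
    exact ⟨1, p.target⟩

end Pool.Agent.H191R3
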