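import Mathlib

set_option autoImplicit false

open Set Topology

namespace Pool.Agent.H191R3

/-- If every map to the circle lifts to the line, the space is unicoherent. -/
theorem unicoherent_of_lift {Y : Type*} [TopologicalSpace Y] [NormalSpace Y]
    (hlift : ∀ g : Y → UnitAddCircle, Continuous g →
      ∃ h : Y → ℝ, Continuous h ∧ ∀ y, ((h y : ℝ) : UnitAddCircle) = g y)
    {A B : Set Y} (hA : IsClosed A) (hB : IsClosed B) (hAc : IsPreconnected A)
    (hBc : IsPreconnected B) (hAB : A ∪ B = univ) : IsPreconnected (A ∩ B) := by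
  rw [isPreconnected_closed_iff]
  intro t t' ht ht' hsub hne hne'
  by_contra hcon
  rw [not_nonempty_iff_eq_empty] at hcon
  obtain ⟨p, hpAB, hpt⟩ := hne
  obtain ⟨q, hqAB, hqt'⟩ := hne'
  have hPc : IsClosed (A ∩ B ∩ t) := (hA.inter hB).inter ht
  have hQc : IsClosed (A ∩ B ∩ t') := (hA.inter hB).inter ht'
  have hdisj : Disjoint (A ∩ B ∩ t) (A ∩ B ∩ t') := by
    rw [Set.disjoint_left]
    rintro x ⟨hx, hxt⟩ ⟨_, hxt'⟩
    have : x ∈ A ∩ B ∩ (t ∩ t') := ⟨hx, hxt, hxt'⟩
    rw [hcon] at this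
    exact this
  obtain ⟨φ, hφ0, hφ1, -⟩ := exists_continuous_zero_one_of_isClosed hPc hQc hdisj
  classical
  let g : Y → UnitAddCircle := fun y => if y ∈ A then ((φ y / 2 : ℝ) : UnitAddCircle)
    else ((-(φ y / 2) : ℝ) : UnitAddCircle)
  have hgA : ∀ y ∈ A, g y = ((φ y / 2 : ℝ) : UnitAddCircle) := fun y hy => if_pos hy
  have hgB : ∀ y ∈ B, g y = ((-(φ y / 2) : ℝ) : UnitAddCircle) := by
    intro y hy
    by_cases hyA : y ∈ A
    · rw [hgA y hyA]
      rcases hsub ⟨hyA, hy⟩ with h | h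
      · have : φ y = 0 := hφ0 ⟨⟨hyA, hy⟩, h⟩
        rw [this]; simp
      · have : φ y = 1 := hφ1 ⟨⟨hyA, hy⟩, h⟩
        rw [this, ← sub_eq_zero, ← AddCircle.coe_sub, AddCircle.coe_eq_zero_iff]
        exact ⟨1, by norm_num⟩
    · exact if_neg hyA
  have hmk : Continuous fun r : ℝ => (r : UnitAddCircle) := AddCircle.continuous_mk' 1
  have hg : Continuous g := by
    rw [← continuousOn_univ, ← hAB]
    refine ContinuousOn.union_of_isClosed ?_ ?_ hA hB
    · refine ContinuousOn.congr (f := fun y => ((φ y / 2 : ℝ) : UnitAddCircle)) ?_ hgA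
      exact (hmk.comp (φ.continuous.div_const 2)).continuousOn
    · refine ContinuousOn.congr (f := fun y => ((-(φ y / 2) : ℝ) : UnitAddCircle)) ?_ hgB
      exact (hmk.comp (φ.continuous.div_const 2).neg).continuousOn
  obtain ⟨h, hh, hhg⟩ := hlift g hg
  have key : ∀ (C : Set Y), IsPreconnected C → ∀ D : Y → ℝ, Continuous D →
      (∀ y ∈ C, ((D y : ℝ) : UnitAddCircle) = 0) → ∀ x ∈ C, ∀ y ∈ C, D x = D y := by
    intro C hC D hD hDz x hx y hy
    have hint : ∀ z ∈ C, ∃ n : ℤ, (n : ℝ) = D z := by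
      intro z hz
      have := hDz z hz
      rw [AddCircle.coe_eq_zero_iff] at this
      obtain ⟨n, hn⟩ := this
      exact ⟨n, by simpa using hn⟩
    refine hC.constant_of_mapsTo (T := range ((↑) : ℤ → ℝ)) ?_ hD.continuousOn ?_ hx hy
    · exact Int.isClosedEmbedding_coe_real.isEmbedding.isDiscrete_range
    · intro z hz
      obtain ⟨n, hn⟩ := hint z hz
      exact ⟨n, hn⟩
  have h1 := key A hAc (fun y => h y - φ y / 2) (hh.sub (φ.continuous.div_const 2))
    (fun y hy => by rw [AddCircle.coe_sub, hhg, hgA y hy, sub_self]) p hpAB.1 q hqAB.1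
  have h2 := key B hBc (fun y => h y + φ y / 2) (hh.add (φ.continuous.div_const 2))
    (fun y hy => by
      rw [AddCircle.coe_add, hhg, hgB y hy, AddCircle.coe_neg, neg_add_cancel]) p hpAB.2 q hqAB.2
  have hp0 : φ p = 0 := hφ0 ⟨hpAB, hpt⟩
  have hq1 : φ q = 1 := hφ1 ⟨hqAB, hqt'⟩
  simp only [hp0, hq1] at h1 h2
  linarith

/-- A continuous map onto a Hausdorff space which is onto already on a compact set is a quotient
map. -/
theorem quot_of_compact {Z W : Type*} [TopologicalSpace Z] [TopologicalSpace W] [T2Space W]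
    {f : Z → W} (hf : Continuous f) {K : Set Z} (hK : IsCompact K)
    (hKs : ∀ w, ∃ z ∈ K, f z = w) : IsQuotientMap f := by
  rw [isQuotientMap_iff_isClosed]
  refine ⟨fun w => ?_, fun F => ⟨fun h => h.preimage hf, fun h => ?_⟩⟩
  · obtain ⟨z, -, hz⟩ := hKs w
    exact ⟨z, hz⟩
  · have : F = f '' (K ∩ f ⁻¹' F) := by
      ext w
      constructor
      · intro hw
        obtain ⟨z, hz, rfl⟩ := hKs w
        exact ⟨z, ⟨hz, hw⟩, rfl⟩
      · rintro ⟨z, ⟨_, hz⟩, rfl⟩
        exact hz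
    rw [this]
    exact ((hK.inter_right h).image hf).isClosed

end Pool.Agent.H191R3
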