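import Mathlib
import Pool.Agent.H191R3.Unicoh

set_option autoImplicit false

open Set Topology

noncomputable section

namespace Pool.Agent.H191R3

/-- Parametrization of the necklace of two spheres by the plane. -/
def par (w : ℝ × ℝ) : ℝ × ℝ × ℂ :=
  (Real.cos w.1, Real.sin w.1, (Real.sin w.1 : ℂ) * Complex.exp ((w.2 : ℂ) * Complex.I))

/-- The necklace: two 2-spheres glued at two pairs of points. -/
def NX : Set (ℝ × ℝ × ℂ) := range par

/-- The free involution. -/
def inv (x : ℝ × ℝ × ℂ) : ℝ × ℝ × ℂ := (-x.1, x.2.1, -x.2.2)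

/-- The map identifying exactly the orbits of the involution on the necklace. -/
def fm (x : ℝ × ℝ × ℂ) : ℝ × ℂ × ℂ := (x.2.1, (x.1 : ℂ) * x.2.2, x.2.2 ^ 2)

/-- The wedge of two projective planes. -/
def NY : Set (ℝ × ℂ × ℂ) := fm '' NX

theorem continuous_par : Continuous par := by
  unfold par
  fun_prop

theorem continuous_inv : Continuous inv := by
  unfold inv
  fun_prop

theorem continuous_fm : Continuous fm := by
  unfold fm
  fun_prop

theorem par_flip (s θ : ℝ) : par (Real.pi - s, θ + Real.pi) = inv (par (s, θ)) := by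
  unfold par inv
  refine Prod.ext (by simp [Real.cos_pi_sub]) (Prod.ext (by simp [Real.sin_pi_sub]) ?_)
  simp only [Real.sin_pi_sub]
  push_cast
  rw [add_mul, Complex.exp_add, Complex.exp_pi_mul_I]
  ring

theorem par_s (s θ : ℝ) : par (s + 2 * Real.pi, θ) = par (s, θ) := by
  simp [par]

theorem par_θ (s θ : ℝ) : par (s, θ + 2 * Real.pi) = par (s, θ) := by
  unfold par
  refine Prod.ext rfl (Prod.ext rfl ?_)
  simp only
  push_cast
  rw [add_mul, Complex.exp_add, Complex.exp_two_pi_mul_I, mul_one]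

theorem par_pole {s : ℝ} (hs : Real.sin s = 0) (θ θ' : ℝ) : par (s, θ) = par (s, θ') := by
  simp [par, hs]

theorem NX_sq {x : ℝ × ℝ × ℂ} (hx : x ∈ NX) : x.1 ^ 2 + x.2.1 ^ 2 = 1 := by
  obtain ⟨w, rfl⟩ := hx
  exact Real.cos_sq_add_sin_sq w.1

theorem NX_norm {x : ℝ × ℝ × ℂ} (hx : x ∈ NX) : ‖x.2.2‖ = |x.2.1| := by
  obtain ⟨w, rfl⟩ := hx
  show ‖(Real.sin w.1 : ℂ) * Complex.exp ((w.2 : ℂ) * Complex.I)‖ = |Real.sin w.1|
  rw [norm_mul, Complex.norm_exp_ofReal_mul_I, mul_one, Complex.norm_real, Real.norm_eq_abs]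

theorem inv_mem {x : ℝ × ℝ × ℂ} (hx : x ∈ NX) : inv x ∈ NX := by
  obtain ⟨⟨s, θ⟩, rfl⟩ := hx
  exact ⟨(Real.pi - s, θ + Real.pi), par_flip s θ⟩

theorem inv_inv (x : ℝ × ℝ × ℂ) : inv (inv x) = x := by
  simp [inv]

theorem fm_inv (x : ℝ × ℝ × ℂ) : fm (inv x) = fm x := by
  simp [inv, fm]

theorem fm_fiber {x y : ℝ × ℝ × ℂ} (hx : x ∈ NX) (hy : y ∈ NX) (h : fm x = fm y) :
    y = x ∨ y = inv x := by
  have hx1 := NX_sq hx
  have hy1 := NX_sq hy
  obtain ⟨u, v, z⟩ := x
  obtain ⟨u', v', z'⟩ := y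
  simp only [fm, Prod.mk.injEq] at h
  obtain ⟨h1, h2, h3⟩ := h
  simp only at hx1 hy1
  subst h1
  have hu : u ^ 2 = u' ^ 2 := by linarith
  rcases eq_or_ne u 0 with h0 | h0
  · subst h0
    have hu' : u' = 0 := by
      have : u' ^ 2 = 0 := by rw [← hu]; norm_num
      exact pow_eq_zero_iff (two_ne_zero) |>.mp this
    subst hu'
    rcases sq_eq_sq_iff_eq_or_eq_neg.mp h3 with h4 | h4
    · left; rw [h4]
    · right; simp [inv, h4]
  · have hc : (u : ℂ) ≠ 0 := by exact_mod_cast h0
    rcases sq_eq_sq_iff_eq_or_eq_neg.mp hu with h4 | h4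
    · subst h4
      left
      rw [mul_left_cancel₀ hc h2]
    · right
      have h5 : u' = -u := by rw [h4]; ring
      subst h5
      have h6 : (u : ℂ) * z = (u : ℂ) * (-z') := by
        rw [h2]; push_cast; ring
      have h7 := mul_left_cancel₀ hc h6
      simp [inv, h7]

theorem one_le_dist {x : ℝ × ℝ × ℂ} (hx : x ∈ NX) : 1 ≤ dist x (inv x) := by
  have h1 := NX_sq hx
  have h2 := NX_norm hx
  obtain ⟨u, v, z⟩ := x
  simp only at h1 h2
  have d1 : dist u (-u) ≤ dist ((u, v, z) : ℝ × ℝ × ℂ) (inv (u, v, z)) := by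
    rw [Prod.dist_eq]; exact le_max_left _ _
  have d2 : dist z (-z) ≤ dist ((u, v, z) : ℝ × ℝ × ℂ) (inv (u, v, z)) := by
    rw [Prod.dist_eq, Prod.dist_eq]
    exact (le_max_right _ _).trans (le_max_right _ _)
  have e1 : dist u (-u) = 2 * |u| := by
    rw [Real.dist_eq, sub_neg_eq_add, ← two_mul, abs_mul, abs_two]
  have e2 : dist z (-z) = 2 * |v| := by
    rw [dist_eq_norm, sub_neg_eq_add, ← two_mul, norm_mul, h2]; simp
  rw [e1] at d1
  rw [e2] at d2
  by_contra hcon
  push Not at hcon
  have h3 : |u| < 1 / 2 := by linarith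
  have h4 : |v| < 1 / 2 := by linarith
  have h5 : u ^ 2 < 1 / 4 := by
    rw [← sq_abs]; nlinarith [abs_nonneg u]
  have h6 : v ^ 2 < 1 / 4 := by
    rw [← sq_abs]; nlinarith [abs_nonneg v]
  linarith

/-- every point of the necklace is attained on a compact rectangle -/
theorem par_rep {x : ℝ × ℝ × ℂ} (hx : x ∈ NX) :
    ∃ s θ : ℝ, s ∈ Ico 0 (2 * Real.pi) ∧ θ ∈ Ico 0 (2 * Real.pi) ∧ par (s, θ) = x := by
  obtain ⟨⟨s, θ⟩, rfl⟩ := hx
  have p1 : Function.Periodic (fun s : ℝ => (par (s, θ))) (2 * Real.pi) := fun s => par_s s θ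
  obtain ⟨s', hs', h1⟩ := p1.exists_mem_Ico₀ Real.two_pi_pos s
  have p2 : Function.Periodic (fun θ : ℝ => (par (s', θ))) (2 * Real.pi) := fun θ => par_θ s' θ
  obtain ⟨θ', hθ', h2⟩ := p2.exists_mem_Ico₀ Real.two_pi_pos θ
  exact ⟨s', θ', hs', hθ', (h1.trans h2).symm⟩

def rect : Set (ℝ × ℝ) := Icc 0 (2 * Real.pi) ×ˢ Icc 0 (2 * Real.pi)

theorem isCompact_rect : IsCompact rect := isCompact_Icc.prod isCompact_Icc

theorem rect_surj (x : NX) : ∃ w ∈ rect, par w = x.1 := by
  obtain ⟨s, θ, hs, hθ, h⟩ := par_rep x.2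
  exact ⟨(s, θ), ⟨Ico_subset_Icc_self hs, Ico_subset_Icc_self hθ⟩, h⟩

/-- the parametrization as a map onto the necklace -/
def parX (w : ℝ × ℝ) : NX := ⟨par w, mem_range_self w⟩

theorem continuous_parX : Continuous parX := continuous_par.subtype_mk _

theorem quot_parX : IsQuotientMap parX :=
  quot_of_compact continuous_parX isCompact_rect fun x => by
    obtain ⟨w, hw, h⟩ := rect_surj x
    exact ⟨w, hw, Subtype.ext h⟩

instance : CompactSpace NX := by
  refine ⟨?_⟩
  have : (univ : Set NX) = parX '' rect := by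
    symm
    rw [eq_univ_iff_forall]
    intro x
    obtain ⟨w, hw, h⟩ := rect_surj x
    exact ⟨w, hw, Subtype.ext h⟩
  rw [this]
  exact isCompact_rect.image continuous_parX

instance : ConnectedSpace NX := quot_parX.surjective.connectedSpace continuous_parX

instance : LocallyConnectedSpace NX := quot_parX.isCoinducing.locallyConnectedSpace

/-- the covering map -/
def cov (x : NX) : NY := ⟨fm x.1, mem_image_of_mem fm x.2⟩

theorem continuous_cov : Continuous cov := (continuous_fm.comp continuous_subtype_val).subtype_mk _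

theorem surjective_cov : Function.Surjective cov := by
  rintro ⟨_, x, hx, rfl⟩
  exact ⟨⟨x, hx⟩, rfl⟩

/-- the involution on the necklace -/
def invX (x : NX) : NX := ⟨inv x.1, inv_mem x.2⟩

theorem continuous_invX : Continuous invX := (continuous_inv.comp continuous_subtype_val).subtype_mk _

theorem invX_invX (x : NX) : invX (invX x) = x := Subtype.ext (inv_inv x.1)

theorem cov_invX (x : NX) : cov (invX x) = cov x := Subtype.ext (fm_inv x.1)

theorem cov_fiber {x y : NX} (h : cov x = cov y) : y = x ∨ y = invX x := by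
  rcases fm_fiber x.2 y.2 (congrArg Subtype.val h) with h | h
  · left; exact Subtype.ext h
  · right; exact Subtype.ext h

theorem quot_cov : IsQuotientMap cov :=
  quot_of_compact continuous_cov isCompact_univ fun y => by
    obtain ⟨x, hx⟩ := surjective_cov y
    exact ⟨x, trivial, hx⟩

theorem isOpenMap_cov : IsOpenMap cov := by
  intro V hV
  rw [← quot_cov.isOpen_preimage]
  have : cov ⁻¹' (cov '' V) = V ∪ invX ⁻¹' V := by
    ext x
    constructor
    · rintro ⟨y, hy, hyx⟩
      rcases cov_fiber hyx.symm with h | h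
      · left; rwa [← h]
      · right; show invX x ∈ V; rwa [← h]
    · rintro (h | h)
      · exact ⟨x, h, rfl⟩
      · exact ⟨invX x, h, cov_invX x⟩
  rw [this]
  exact hV.union (hV.preimage continuous_invX)

theorem isLocalHomeomorph_cov : IsLocalHomeomorph cov := by
  rw [isLocalHomeomorph_iff_isOpenEmbedding_restrict]
  intro x
  refine ⟨Metric.ball x (1 / 2), Metric.ball_mem_nhds x (by norm_num), ?_⟩
  refine IsOpenEmbedding.of_continuous_injective_isOpenMap ?_ ?_ ?_
  · exact continuous_cov.comp continuous_subtype_val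
  · rintro ⟨a, ha⟩ ⟨b, hb⟩ hab
    have hab' : cov a = cov b := hab
    apply Subtype.ext
    show a = b
    rcases cov_fiber hab' with h | h
    · exact h.symm
    · exfalso
      have h1 : 1 ≤ dist a (invX a) := one_le_dist a.2
      rw [← h] at h1
      have h2 := dist_triangle_right a b x
      rw [Metric.mem_ball] at ha hb
      linarith
  · exact isOpenMap_cov.comp Metric.isOpen_ball.isOpenMap_subtype_val

/-! ### The necklace is not unicoherent -/

def upper : Set NX := {x | 0 ≤ x.1.2.1}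
def lower : Set NX := {x | x.1.2.1 ≤ 0}

theorem continuous_v : Continuous fun x : NX => x.1.2.1 := by fun_prop

theorem upper_closed : IsClosed upper := isClosed_le continuous_const continuous_v
theorem lower_closed : IsClosed lower := isClosed_le continuous_v continuous_const

theorem upper_connected : IsConnected upper := by
  have h : upper = parX '' (Icc 0 Real.pi ×ˢ univ) := by
    ext x
    constructor
    · intro hx
      obtain ⟨s, θ, hs, hθ, h⟩ := par_rep x.2
      refine ⟨(s, θ), ⟨⟨hs.1, ?_⟩, trivial⟩, Subtype.ext h⟩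
      by_contra hcon
      push Not at hcon
      have h1 : 0 ≤ x.1.2.1 := hx
      rw [← h] at h1
      have h2 : Real.sin (s - 2 * Real.pi) < 0 := by
        apply Real.sin_neg_of_neg_of_neg_pi_lt
        · linarith [hs.2]
        · show _ < _
          simp only at hcon
          linarith
      rw [Real.sin_sub_two_pi] at h2
      exact absurd h1 (not_le.mpr h2)
    · rintro ⟨⟨s, θ⟩, ⟨hs, -⟩, rfl⟩
      exact Real.sin_nonneg_of_mem_Icc hs
  rw [h]
  exact ((isConnected_Icc Real.pi_pos.le).prod isConnected_univ).image _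
    continuous_parX.continuousOn

theorem lower_connected : IsConnected lower := by
  have h : lower = parX '' (Icc Real.pi (2 * Real.pi) ×ˢ univ) := by
    ext x
    constructor
    · intro hx
      obtain ⟨s, θ, hs, hθ, h⟩ := par_rep x.2
      rcases eq_or_lt_of_le hs.1 with h0 | h0
      · refine ⟨(2 * Real.pi, θ), ⟨⟨by linarith [Real.pi_pos], le_refl _⟩, trivial⟩,
          Subtype.ext ?_⟩
        rw [← h, ← h0]
        have := par_s 0 θ
        rwa [zero_add] at this
      · refine ⟨(s, θ), ⟨⟨?_, hs.2.le⟩, trivial⟩, Subtype.ext h⟩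
        by_contra hcon
        push Not at hcon
        have h1 : x.1.2.1 ≤ 0 := hx
        rw [← h] at h1
        exact absurd h1 (not_le.mpr (Real.sin_pos_of_pos_of_lt_pi h0 hcon))
    · rintro ⟨⟨s, θ⟩, ⟨hs, -⟩, rfl⟩
      show Real.sin s ≤ 0
      have h1 : 0 ≤ Real.sin (s - Real.pi) :=
        Real.sin_nonneg_of_mem_Icc ⟨by linarith [hs.1], by linarith [hs.2]⟩
      rw [Real.sin_sub_pi] at h1
      linarith
  rw [h]
  exact ((isConnected_Icc (by linarith [Real.pi_pos])).prod isConnected_univ).image _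
    continuous_parX.continuousOn

theorem upper_union_lower : upper ∪ lower = univ := by
  rw [eq_univ_iff_forall]
  intro x
  exact le_total 0 x.1.2.1

theorem not_connected_inter : ¬ IsConnected (upper ∩ lower) := by
  intro h
  have hu : Continuous fun x : NX => x.1.1 := by fun_prop
  have h1 := h.isPreconnected.image _ hu.continuousOn
  have m1 : parX (0, 0) ∈ upper ∩ lower := by
    constructor
    · show 0 ≤ Real.sin 0
      simp
    · show Real.sin 0 ≤ 0
      simp
  have m2 : parX (Real.pi, 0) ∈ upper ∩ lower := by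
    constructor
    · show 0 ≤ Real.sin Real.pi
      simp
    · show Real.sin Real.pi ≤ 0
      simp
  have e1 : (parX (0, 0)).1.1 = 1 := Real.cos_zero
  have e2 : (parX (Real.pi, 0)).1.1 = -1 := Real.cos_pi
  have h2 : (0 : ℝ) ∈ (fun x : NX => x.1.1) '' (upper ∩ lower) := by
    apply h1.Icc_subset (mem_image_of_mem _ m2) (mem_image_of_mem _ m1)
    simp only [e1, e2]
    constructor <;> norm_num
  obtain ⟨x, ⟨hx1, hx2⟩, hx3⟩ := h2
  have h3 := NX_sq x.2
  have h4 : x.1.2.1 = 0 := le_antisymm hx2 hx1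
  simp only at hx3
  rw [hx3, h4] at h3
  norm_num at h3

end Pool.Agent.H191R3
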