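import Mathlib

set_option autoImplicit false

namespace Pool.Agent.H191R3.QP

/-- a length function on a group -/
structure IsLen {G : Type*} [Group G] (L : G → ℝ) : Prop where
  one : L 1 = 0
  nonneg : ∀ g, 0 ≤ L g
  inv : ∀ g, L g⁻¹ = L g
  mul : ∀ g h, L (g * h) ≤ L g + L h

theorem perm_ia {α : Type*} (f : Equiv.Perm α) (x : α) : f⁻¹ (f x) = x := f.symm_apply_apply x

theorem perm_ai {α : Type*} (f : Equiv.Perm α) (x : α) : f (f⁻¹ x) = x := f.apply_symm_apply x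

/-- composition of a length function with a homomorphism -/
theorem IsLen.comp {G K : Type*} [Group G] [Group K] {L : G → ℝ} (hL : IsLen L) (f : K →* G) :
    IsLen (fun k => L (f k)) where
  one := by simp [hL.one]
  nonneg k := hL.nonneg _
  inv k := by simp [hL.inv]
  mul g h := by simpa using hL.mul (f g) (f h)

/-- the extension lemma: a partial injection of `U` with infinite co-domain and co-range (in `U`)
extends to a permutation supported on `U`. -/
theorem exists_perm_extend {α : Type*} [Countable α] (U Y : Set α) (hYU : Y ⊆ U)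
    (hinf : (U \ Y).Infinite) (φ : α → α) (hφ : Set.InjOn φ Y) (hφU : ∀ y ∈ Y, φ y ∈ U)
    (hinf2 : (U \ φ '' Y).Infinite) :
    ∃ g : Equiv.Perm α, (∀ y ∈ Y, g y = φ y) ∧ (∀ x, x ∉ U → g x = x) := by
  classical
  have : Infinite ↥(U \ Y) := hinf.to_subtype
  have : Infinite ↥(U \ φ '' Y) := hinf2.to_subtype
  obtain ⟨e⟩ : Nonempty (↥(U \ Y) ≃ ↥(U \ φ '' Y)) := by
    have := (nonempty_denumerable ↥(U \ Y)).some
    have := (nonempty_denumerable ↥(U \ φ '' Y)).some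
    exact ⟨Denumerable.equiv₂ _ _⟩
  let g : α → α := fun x => if hx : x ∈ U \ Y then (e ⟨x, hx⟩ : α) else if x ∈ Y then φ x else x
  have g1 : ∀ (x : α) (hx : x ∈ U \ Y), g x = e ⟨x, hx⟩ := fun x hx => by simp only [g, dif_pos hx]
  have g2 : ∀ x ∈ Y, g x = φ x := fun x hx => by
    have h1 : x ∉ U \ Y := fun h => h.2 hx
    simp only [g, dif_neg h1, if_pos hx]
  have g3 : ∀ x, x ∉ U → g x = x := fun x hx => by
    have h1 : x ∉ U \ Y := fun h => hx h.1
    have h2 : x ∉ Y := fun h => hx (hYU h)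
    simp only [g, dif_neg h1, if_neg h2]
  have cases3 : ∀ x, x ∈ U \ Y ∨ x ∈ Y ∨ x ∉ U := by
    intro x
    by_cases h1 : x ∈ U
    · by_cases h2 : x ∈ Y
      · exact Or.inr (Or.inl h2)
      · exact Or.inl ⟨h1, h2⟩
    · exact Or.inr (Or.inr h1)
  have r1 : ∀ x ∈ U \ Y, g x ∈ U \ φ '' Y := fun x hx => by rw [g1 x hx]; exact (e ⟨x, hx⟩).2
  have hbij : Function.Bijective g := by
    constructor
    · intro x y hxy
      rcases cases3 x with hx | hx | hx <;> rcases cases3 y with hy | hy | hy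
      · rw [g1 x hx, g1 y hy] at hxy
        have := e.injective (Subtype.ext hxy)
        simpa using this
      · exfalso
        have := r1 x hx
        rw [hxy, g2 y hy] at this
        exact this.2 ⟨y, hy, rfl⟩
      · exfalso
        have := r1 x hx
        rw [hxy, g3 y hy] at this
        exact hy this.1
      · exfalso
        have := r1 y hy
        rw [← hxy, g2 x hx] at this
        exact this.2 ⟨x, hx, rfl⟩
      · rw [g2 x hx, g2 y hy] at hxy
        exact hφ hx hy hxy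
      · exfalso
        rw [g2 x hx, g3 y hy] at hxy
        exact hy (hxy ▸ hφU x hx)
      · exfalso
        have := r1 y hy
        rw [← hxy, g3 x hx] at this
        exact hx this.1
      · exfalso
        rw [g3 x hx, g2 y hy] at hxy
        exact hx (hxy ▸ hφU y hy)
      · rwa [g3 x hx, g3 y hy] at hxy
    · intro y
      by_cases hU : y ∈ U
      · by_cases hY : y ∈ φ '' Y
        · obtain ⟨x, hx, rfl⟩ := hY
          exact ⟨x, g2 x hx⟩
        · obtain ⟨x, hx⟩ := e.surjective ⟨y, hU, hY⟩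
          refine ⟨x.1, ?_⟩
          rw [g1 x.1 x.2]
          have : e ⟨x.1, x.2⟩ = e x := rfl
          rw [this, hx]
      · exact ⟨y, g3 y hU⟩
  exact ⟨Equiv.ofBijective g hbij, g2, g3⟩

/-- `f` is supported on `Σ`. -/
def SuppOn {α : Type*} (S : Set α) (f : Equiv.Perm α) : Prop := ∀ x, x ∉ S → f x = x

theorem SuppOn.inv {α : Type*} {S : Set α} {f : Equiv.Perm α} (h : SuppOn S f) : SuppOn S f⁻¹ := by
  intro x hx
  rw [Equiv.Perm.inv_eq_iff_eq]
  exact (h x hx).symm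

theorem SuppOn.mem {α : Type*} {S : Set α} {f : Equiv.Perm α} (h : SuppOn S f) {x : α} (hx : x ∈ S) :
    f x ∈ S := by
  by_contra hc
  have := h _ hc
  have h2 := f.injective this
  rw [h2] at hc
  exact hc hx

/-- Factorisation of permutations over two overlapping moieties. -/
theorem factor_half {α : Type*} [Countable α] (S1 S2 D : Set α) (hun : ∀ x, x ∈ S1 ∨ x ∈ S2)
    (hD : D ⊆ S1 ∩ S2) (hDinf : D.Infinite) (hDinf2 : ((S1 ∩ S2) \ D).Infinite)
    (hS : (S1 \ S2).Infinite) (f : Equiv.Perm α) (hf : (S1 \ f '' S1ᶜ).Infinite) :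
    ∃ s1 s2 s3 : Equiv.Perm α, SuppOn S1 s1 ∧ SuppOn S2 s2 ∧ SuppOn S1 s3 ∧ f = s1 * s2 * s3 := by
  classical
  have : Infinite ↥D := hDinf.to_subtype
  obtain ⟨j, hj⟩ := Countable.exists_injective_nat α
  let φ : α → α := fun x => (Set.Infinite.natEmbedding D hDinf (j x) : α)
  have hφinj : Function.Injective φ := by
    intro x y hxy
    exact hj ((Set.Infinite.natEmbedding D hDinf).injective (Subtype.ext hxy))
  have hφD : ∀ x, φ x ∈ D := fun x => (Set.Infinite.natEmbedding D hDinf (j x)).2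
  obtain ⟨s1, hs1, hs1'⟩ := exists_perm_extend S1 (f '' S1ᶜ ∩ S1) Set.inter_subset_right
    (by
      refine hf.mono ?_
      rintro x ⟨hx1, hx2⟩
      exact ⟨hx1, fun h => hx2 h.1⟩) φ hφinj.injOn (fun y _ => (hD (hφD y)).1)
    (by
      refine hS.mono ?_
      rintro x ⟨hx1, hx2⟩
      refine ⟨hx1, ?_⟩
      rintro ⟨y, _, rfl⟩
      exact hx2 (hD (hφD y)).2)
  have hY2 : ∀ x ∈ f '' S1ᶜ, s1 x ∈ S2 ∧ (s1 x ∈ S1 → s1 x ∈ D) := by
    intro x hx
    by_cases hx1 : x ∈ S1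
    · rw [hs1 x ⟨hx, hx1⟩]
      exact ⟨(hD (hφD x)).2, fun _ => hφD x⟩
    · rw [hs1' x hx1]
      exact ⟨(hun x).resolve_left hx1, fun h => absurd h hx1⟩
  obtain ⟨s2, hs2, hs2'⟩ := exists_perm_extend S2 ((s1 * f) '' S1ᶜ)
    (by
      rintro z ⟨y, hy, rfl⟩
      exact (hY2 (f y) ⟨y, hy, rfl⟩).1)
    (by
      refine hDinf2.mono ?_
      rintro z ⟨⟨hz1, hz2⟩, hz3⟩
      refine ⟨hz2, ?_⟩
      rintro ⟨y, hy, rfl⟩
      exact hz3 ((hY2 (f y) ⟨y, hy, rfl⟩).2 hz1))
    ((s1 * f)⁻¹ : Equiv.Perm α) (Equiv.injective _).injOn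
    (by
      rintro z ⟨y, hy, rfl⟩
      rw [perm_ia]
      exact (hun y).resolve_left hy)
    (by
      refine hDinf.mono ?_
      intro z hz
      refine ⟨(hD hz).2, ?_⟩
      rintro ⟨w, ⟨y, hy, rfl⟩, hw⟩
      rw [perm_ia] at hw
      exact hy (hw ▸ (hD hz).1))
  refine ⟨s1⁻¹, s2⁻¹, s2 * s1 * f, SuppOn.inv hs1', SuppOn.inv hs2', ?_, by group⟩
  intro x hx
  have h1 := hs2 ((s1 * f) x) ⟨x, hx, rfl⟩
  rw [perm_ia] at h1
  simpa [mul_assoc] using h1

/-- the universal countable set with a grid of cells -/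
abbrev Gr : Type := (ℕ × ℤ) × ℕ

/-- act by `f` on the cell `(0,0)` -/
def cell (f : Equiv.Perm ℕ) : Equiv.Perm Gr :=
  Equiv.prodShear (Equiv.refl _) (fun q => if q = ((0 : ℕ), (0 : ℤ)) then f else 1)

theorem cell_bounded (L : Equiv.Perm Gr → ℝ) (hL : IsLen L) : ∃ B : ℝ, ∀ f, L (cell f) ≤ B := by
  classical
  by_contra hcon
  push Not at hcon
  let w : ℕ → Equiv.Perm Gr := fun n =>
    Equiv.prodShear (Equiv.prodShear (Equiv.refl ℕ)
      (fun n' => if n' = n then Equiv.addRight (1 : ℤ) else Equiv.refl ℤ)) (fun _ => Equiv.refl ℕ)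
  let v : ℕ → Equiv.Perm Gr := fun n =>
    Equiv.prodShear (Equiv.prodCongr (Equiv.swap n 0) (Equiv.refl ℤ)) (fun _ => Equiv.refl ℕ)
  choose f hf using fun n : ℕ => hcon (n + 2 * L (v n) + 2 * L (w n))
  let F : Equiv.Perm Gr := Equiv.prodShear (Equiv.refl _) (fun q => if 0 ≤ q.2 then f q.1 else 1)
  have key : ∀ n, v n * F * w n = cell (f n) * v n * w n * F := by
    intro n
    ext1 p
    obtain ⟨⟨n', i⟩, x⟩ := p
    by_cases hn : n' = n
    · subst hn
      rcases lt_trichotomy i (-1) with hi | hi | hi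
      · have h1 : ¬ (0 ≤ i + 1) := by omega
        have h2 : ¬ (0 ≤ i) := by omega
        have h3 : ¬ (i + 1 = 0) := by omega
        simp [v, F, w, cell, Equiv.prodShear, h1, h2, h3]
      · subst hi
        simp [v, F, w, cell, Equiv.prodShear]
      · have h1 : (0 ≤ i + 1) := by omega
        have h2 : (0 ≤ i) := by omega
        have h3 : ¬ (i + 1 = 0) := by omega
        simp [v, F, w, cell, Equiv.prodShear, h1, h2, h3]
    · have h4 : Equiv.swap n 0 n' ≠ 0 := by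
        intro h
        apply hn
        have := congrArg (Equiv.swap n 0) h
        simpa using this
      simp [v, F, w, cell, Equiv.prodShear, hn, h4]
  obtain ⟨n, hn⟩ := exists_nat_gt (2 * L F)
  have h1 : cell (f n) = v n * F * w n * F⁻¹ * (w n)⁻¹ * (v n)⁻¹ := by
    rw [key n]; group
  have h2 : L (cell (f n)) ≤ L (v n) + L F + L (w n) + L F + L (w n) + L (v n) := by
    rw [h1]
    have a1 := hL.mul (v n * F * w n * F⁻¹ * (w n)⁻¹) (v n)⁻¹
    have a2 := hL.mul (v n * F * w n * F⁻¹) (w n)⁻¹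
    have a3 := hL.mul (v n * F * w n) F⁻¹
    have a4 := hL.mul (v n * F) (w n)
    have a5 := hL.mul (v n) F
    rw [hL.inv] at a1 a2 a3
    linarith
  have h3 := hf n
  linarith

theorem suppOn_cell (h : Equiv.Perm Gr) (hh : SuppOn {p : Gr | p.1 = ((0 : ℕ), (0 : ℤ))} h) :
    ∃ f : Equiv.Perm ℕ, h = cell f := by
  classical
  have h1 : ∀ x : ℕ, (h (((0 : ℕ), (0 : ℤ)), x)).1 = ((0 : ℕ), (0 : ℤ)) := fun x => hh.mem (x := (((0 : ℕ), (0 : ℤ)), x)) rfl
  have h2 : ∀ x : ℕ, (h⁻¹ (((0 : ℕ), (0 : ℤ)), x)).1 = ((0 : ℕ), (0 : ℤ)) := fun x => hh.inv.mem (x := (((0 : ℕ), (0 : ℤ)), x)) rfl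
  refine ⟨⟨fun x => (h (((0 : ℕ), (0 : ℤ)), x)).2, fun x => (h⁻¹ (((0 : ℕ), (0 : ℤ)), x)).2, ?_, ?_⟩, ?_⟩
  · intro x
    have : (((0 : ℕ), (0 : ℤ)), (h (((0 : ℕ), (0 : ℤ)), x)).2) = h (((0 : ℕ), (0 : ℤ)), x) :=
      Prod.ext (h1 x).symm rfl
    simp only [this, perm_ia]
  · intro x
    have : (((0 : ℕ), (0 : ℤ)), (h⁻¹ (((0 : ℕ), (0 : ℤ)), x)).2) = h⁻¹ (((0 : ℕ), (0 : ℤ)), x) :=
      Prod.ext (h2 x).symm rfl
    simp only [this, perm_ai]
  · ext1 p
    obtain ⟨q, x⟩ := p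
    by_cases hq : q = ((0 : ℕ), (0 : ℤ))
    · subst hq
      simp only [cell, Equiv.prodShear, if_true]
      exact Prod.ext (h1 x) rfl
    · have : h (q, x) = (q, x) := hh _ hq
      rw [this]
      simp [cell, Equiv.prodShear, hq]

theorem supp_bounded (L : Equiv.Perm Gr → ℝ) (hL : IsLen L) (S : Set Gr) (hS : S.Infinite)
    (hS2 : Sᶜ.Infinite) : ∃ B : ℝ, ∀ f, SuppOn S f → L f ≤ B := by
  classical
  obtain ⟨B, hB⟩ := cell_bounded L hL
  set C : Set Gr := {p : Gr | p.1 = ((0 : ℕ), (0 : ℤ))} with hC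
  have hCinf : C.Infinite := by
    refine Set.infinite_of_injective_forall_mem (f := fun n : ℕ => ((((0 : ℕ), (0 : ℤ)), n) : Gr)) ?_ ?_
    · intro a b hab
      simpa using hab
    · intro n
      rfl
  have hCinf2 : Cᶜ.Infinite := by
    refine Set.infinite_of_injective_forall_mem (f := fun n : ℕ => ((((1 : ℕ), (0 : ℤ)), n) : Gr)) ?_ ?_
    · intro a b hab
      simpa using hab
    · intro n h
      have : ((1 : ℕ), (0 : ℤ)) = ((0 : ℕ), (0 : ℤ)) := h
      simp at this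
  have : Infinite ↥S := hS.to_subtype
  have : Infinite ↥C := hCinf.to_subtype
  have := (nonempty_denumerable ↥S).some
  have := (nonempty_denumerable ↥C).some
  let e : ↥S ≃ ↥C := Denumerable.equiv₂ _ _
  let φ : Gr → Gr := fun x => if hx : x ∈ S then (e ⟨x, hx⟩ : Gr) else x
  have hφ : ∀ (x : Gr) (hx : x ∈ S), φ x = e ⟨x, hx⟩ := fun x hx => by simp only [φ, dif_pos hx]
  have himg : φ '' S = C := by
    ext y
    constructor
    · rintro ⟨x, hx, rfl⟩
      rw [hφ x hx]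
      exact (e ⟨x, hx⟩).2
    · intro hy
      obtain ⟨x, hx⟩ := e.surjective ⟨y, hy⟩
      refine ⟨x.1, x.2, ?_⟩
      rw [hφ x.1 x.2]
      have : e ⟨x.1, x.2⟩ = e x := rfl
      rw [this, hx]
  obtain ⟨v, hv, _⟩ := exists_perm_extend Set.univ S (Set.subset_univ _)
    (by rwa [← Set.compl_eq_univ_sdiff]) φ
    (by
      intro x hx y hy hxy
      rw [hφ x hx, hφ y hy] at hxy
      have := e.injective (Subtype.ext hxy)
      simpa using this) (fun _ _ => Set.mem_univ _)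
    (by rw [himg, ← Set.compl_eq_univ_sdiff]; exact hCinf2)
  refine ⟨2 * L v + B, fun f hf => ?_⟩
  have hsupp : SuppOn C (v * f * v⁻¹) := by
    intro x hx
    have : v⁻¹ x ∉ S := by
      intro h
      apply hx
      rw [← himg]
      refine ⟨v⁻¹ x, h, ?_⟩
      rw [← hv _ h, perm_ai]
    simp only [Equiv.Perm.mul_apply]
    rw [hf _ this, perm_ai]
  obtain ⟨g, hg⟩ := suppOn_cell _ hsupp
  have h1 : f = v⁻¹ * cell g * v := by rw [← hg]; group
  rw [h1]
  have a1 := hL.mul (v⁻¹ * cell g) v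
  have a2 := hL.mul v⁻¹ (cell g)
  rw [hL.inv] at a2
  have := hB g
  linarith

/-- Bergman's property: every length function on the full symmetric group of a countable set is
bounded. -/
theorem perm_bounded (L : Equiv.Perm Gr → ℝ) (hL : IsLen L) : ∃ B : ℝ, ∀ f, L f ≤ B := by
  classical
  set S1 : Set Gr := {p | p.2 % 3 ≠ 2} with hS1
  set S2 : Set Gr := {p | p.2 % 3 ≠ 0} with hS2
  set D : Set Gr := {p | p.2 % 6 = 1} with hD
  have inf : ∀ (S : Set Gr) (a b : ℕ), (∀ n : ℕ, ((((0 : ℕ), (0 : ℤ)), 6 * n + b) : Gr) ∈ S) → S.Infinite := by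
    intro S a b h
    refine Set.infinite_of_injective_forall_mem
      (f := fun n : ℕ => ((((0 : ℕ), (0 : ℤ)), 6 * n + b) : Gr)) ?_ h
    intro x y hxy
    simpa using hxy
  have i1 : S1.Infinite := inf S1 0 0 (fun n => by show (6 * n + 0) % 3 ≠ 2; omega)
  have i1c : S1ᶜ.Infinite := inf S1ᶜ 0 2 (fun n => by
    show ¬ ((6 * n + 2) % 3 ≠ 2); omega)
  have i2 : S2.Infinite := inf S2 0 1 (fun n => by show (6 * n + 1) % 3 ≠ 0; omega)
  have i2c : S2ᶜ.Infinite := inf S2ᶜ 0 0 (fun n => by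
    show ¬ ((6 * n + 0) % 3 ≠ 0); omega)
  have iD : D.Infinite := inf D 0 1 (fun n => by show (6 * n + 1) % 6 = 1; omega)
  have iD2 : ((S1 ∩ S2) \ D).Infinite := inf _ 0 4 (fun n => by
    refine ⟨⟨?_, ?_⟩, ?_⟩
    · show (6 * n + 4) % 3 ≠ 2; omega
    · show (6 * n + 4) % 3 ≠ 0; omega
    · show ¬ ((6 * n + 4) % 6 = 1); omega)
  have i12 : (S1 \ S2).Infinite := inf _ 0 0 (fun n => by
    refine ⟨?_, ?_⟩
    · show (6 * n + 0) % 3 ≠ 2; omega
    · show ¬ ((6 * n + 0) % 3 ≠ 0); omega)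
  have i21 : (S2 \ S1).Infinite := inf _ 0 2 (fun n => by
    refine ⟨?_, ?_⟩
    · show (6 * n + 2) % 3 ≠ 0; omega
    · show ¬ ((6 * n + 2) % 3 ≠ 2); omega)
  have hDs : D ⊆ S1 ∩ S2 := by
    rintro ⟨q, x⟩ hx
    have hx' : x % 6 = 1 := hx
    constructor
    · show x % 3 ≠ 2; omega
    · show x % 3 ≠ 0; omega
  have hun : ∀ x : Gr, x ∈ S1 ∨ x ∈ S2 := by
    rintro ⟨q, x⟩
    by_cases h : x % 3 = 2
    · right; show x % 3 ≠ 0; omega
    · left; exact h
  obtain ⟨B1, hB1⟩ := supp_bounded L hL S1 i1 i1c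
  obtain ⟨B2, hB2⟩ := supp_bounded L hL S2 i2 i2c
  refine ⟨2 * max B1 B2 + max B1 B2, fun f => ?_⟩
  have hb1 : ∀ s, SuppOn S1 s → L s ≤ max B1 B2 := fun s hs => (hB1 s hs).trans (le_max_left _ _)
  have hb2 : ∀ s, SuppOn S2 s → L s ≤ max B1 B2 := fun s hs => (hB2 s hs).trans (le_max_right _ _)
  by_cases hc : (S1 \ f '' S1ᶜ).Infinite
  · obtain ⟨s1, s2, s3, h1, h2, h3, rfl⟩ := factor_half S1 S2 D hun hDs iD iD2 i12 f hc
    have a1 := hL.mul (s1 * s2) s3
    have a2 := hL.mul s1 s2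
    have := hb1 s1 h1
    have := hb2 s2 h2
    have := hb1 s3 h3
    linarith
  · have hc2 : (S2 \ f '' S2ᶜ).Infinite := by
      by_contra hc2
      rw [Set.not_infinite] at hc hc2
      have hsub : D ⊆ (S1 \ f '' S1ᶜ) ∪ (S2 \ f '' S2ᶜ) := by
        intro x hx
        by_cases h1 : x ∈ f '' S1ᶜ
        · right
          refine ⟨(hDs hx).2, ?_⟩
          rintro ⟨y, hy, hxy⟩
          obtain ⟨z, hz, hxz⟩ := h1
          have : y = z := f.injective (hxy.trans hxz.symm)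
          subst this
          exact (hun y).elim hz hy
        · left
          exact ⟨(hDs hx).1, h1⟩
      exact iD ((hc.union hc2).subset hsub)
    obtain ⟨s1, s2, s3, h1, h2, h3, rfl⟩ := factor_half S2 S1 D (fun x => (hun x).symm)
      (by rwa [Set.inter_comm]) iD (by rwa [Set.inter_comm]) i21 f hc2
    have a1 := hL.mul (s1 * s2) s3
    have a2 := hL.mul s1 s2
    have := hb2 s1 h1
    have := hb1 s2 h2
    have := hb2 s3 h3
    linarith

end Pool.Agent.H191R3.QP
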