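import Mathlib
import Pool.Agent.H191R3.QPBergman

set_option autoImplicit false

namespace Pool.Agent.H191R3.QP

/-- the shift of `ℤ` by `i` -/
def sh (i : ℤ) : Equiv.Perm ℤ := Equiv.addRight i

theorem sh_apply (i x : ℤ) : sh i x = x + i := rfl

theorem sh_inv_apply (i x : ℤ) : (sh i)⁻¹ x = x - i := by
  rw [Equiv.Perm.inv_eq_iff_eq, sh_apply]; ring

/-- an increasing family of sets of permutations of `ℤ` supported on right half-lines -/
structure WFam (W : ℤ → Set (Equiv.Perm ℤ)) (k0 : ℕ) : Prop where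
  bdd : ∀ k σ, σ ∈ W k → ∃ M : ℤ, ∀ i < M, σ i = i
  mul : ∀ k σ τ, σ ∈ W k → τ ∈ W k → σ * τ ∈ W (k + k0)
  conj : ∀ k σ, σ ∈ W k → ∀ i : ℤ, sh i * σ * (sh i)⁻¹ ∈ W (k - i)
  supp : ∀ (i : ℤ) σ, (∀ j < i, σ j = j) → σ ∈ W (-i)
  mono : ∀ k k', k ≤ k' → W k ⊆ W k'
  inv : ∀ k σ, σ ∈ W k → σ⁻¹ ∈ W k

theorem WFam.conj2 {W : ℤ → Set (Equiv.Perm ℤ)} {k0 : ℕ} (F : WFam W k0) (k : ℤ)
    (f σ : Equiv.Perm ℤ) (hf : f ∈ W k) (hσ : σ ∈ W k) : f * σ * f⁻¹ ∈ W (k + 2 * k0) := by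
  have h1 := F.mul _ _ _ hf hσ
  have h2 := F.mono k (k + k0) (by omega) (F.inv _ _ hf)
  have h3 := F.mul _ _ _ h1 h2
  have e : k + (k0 : ℤ) + k0 = k + 2 * k0 := by ring
  rwa [e] at h3

theorem WFam.swap_of {W : ℤ → Set (Equiv.Perm ℤ)} {k0 : ℕ} (F : WFam W k0) (k : ℤ)
    (f : Equiv.Perm ℤ) (x y : ℤ) (hf : f ∈ W k) (hσ : Equiv.swap x y ∈ W k) :
    Equiv.swap (f x) (f y) ∈ W (k + 2 * k0) := by
  rw [Equiv.swap_apply_apply]
  exact F.conj2 k f _ hf hσ

theorem WFam.caseI {W : ℤ → Set (Equiv.Perm ℤ)} {k0 : ℕ} (F : WFam W k0)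
    (h01 : ∀ k, Equiv.swap (0 : ℤ) 1 ∈ W k) (σ : Equiv.Perm ℤ) (M : ℤ) (hσ : ∀ i < M, σ i = i) :
    σ ∈ W k0 := by
  have hmul : ∀ σ τ : Equiv.Perm ℤ, (∀ k, σ ∈ W k) → (∀ k, τ ∈ W k) → ∀ k, σ * τ ∈ W k := by
    intro σ τ h1 h2 k
    have := F.mul (k - k0) σ τ (h1 _) (h2 _)
    simpa using this
  have hadj : ∀ i k, Equiv.swap i (i + 1) ∈ W k := by
    intro i k
    have h1 := F.conj (k + i) _ (h01 _) i
    rw [← Equiv.swap_apply_apply, sh_apply, sh_apply] at h1
    have e1 : (0 : ℤ) + i = i := by ring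
    have e2 : (1 : ℤ) + i = i + 1 := by ring
    have e3 : k + i - i = k := by ring
    rwa [e1, e2, e3] at h1
  have hswap' : ∀ (n : ℕ) (i k : ℤ), Equiv.swap i (i + n + 1) ∈ W k := by
    intro n
    induction n with
    | zero => intro i k; simpa using hadj i k
    | succ n ih =>
      intro i k
      have h1 : Equiv.swap i (i + (n + 1 : ℕ) + 1) =
          Equiv.swap (i + n + 1) (i + n + 1 + 1) * Equiv.swap i (i + n + 1) *
            (Equiv.swap (i + n + 1) (i + n + 1 + 1))⁻¹ := by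
        rw [← Equiv.swap_apply_apply, Equiv.swap_apply_left,
          Equiv.swap_apply_of_ne_of_ne (by omega) (by omega)]
        congr 1
        push_cast
        ring
      rw [h1, Equiv.swap_inv]
      exact hmul _ _ (hmul _ _ (hadj _) (ih i)) (hadj _) k
  have hone : ∀ k, (1 : Equiv.Perm ℤ) ∈ W k := by
    intro k
    have := F.supp (-k) 1 (fun _ _ => rfl)
    simpa using this
  have hswap : ∀ (i j k : ℤ), Equiv.swap i j ∈ W k := by
    intro i j k
    rcases lt_trichotomy i j with h | h | h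
    · obtain ⟨n, hn⟩ : ∃ n : ℕ, i + n + 1 = j := ⟨(j - i - 1).toNat, by omega⟩
      rw [← hn]; exact hswap' n i k
    · subst h
      rw [Equiv.swap_self]
      exact hone k
    · obtain ⟨n, hn⟩ : ∃ n : ℕ, j + n + 1 = i := ⟨(i - j - 1).toNat, by omega⟩
      rw [Equiv.swap_comm, ← hn]; exact hswap' n j k
  have main : ∀ (m : ℕ) (σ : Equiv.Perm ℤ), (∀ i < -(m : ℤ), σ i = i) →
      ∃ f : Equiv.Perm ℤ, (∀ k, f ∈ W k) ∧ ∀ i < 0, (f * σ) i = i := by
    intro m
    induction m with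
    | zero => intro σ h; exact ⟨1, hone, fun i hi => by simpa using h i (by simpa using hi)⟩
    | succ m ih =>
      intro σ h
      set a := σ (-((m : ℤ) + 1)) with ha
      have ha' : -((m : ℤ) + 1) ≤ a := by
        by_contra hc
        push Not at hc
        have h1 := h a (by push_cast; linarith)
        have h2 := σ.injective (h1.trans ha)
        omega
      obtain ⟨f, hf1, hf2⟩ := ih (Equiv.swap (-((m : ℤ) + 1)) a * σ) (by
        intro i hi
        rcases lt_or_eq_of_le (show i ≤ -((m : ℤ) + 1) by omega) with h1 | h1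
        · rw [Equiv.Perm.mul_apply, h i (by push_cast; linarith)]
          exact Equiv.swap_apply_of_ne_of_ne (by omega) (by omega)
        · rw [Equiv.Perm.mul_apply, h1, ← ha, Equiv.swap_apply_right])
      refine ⟨f * Equiv.swap (-((m : ℤ) + 1)) a, hmul _ _ hf1 (fun k => hswap _ _ k), ?_⟩
      intro i hi
      have := hf2 i hi
      rwa [← mul_assoc] at this
  obtain ⟨f, hf1, hf2⟩ := main (-M).toNat σ (fun i hi => hσ i (by omega))
  have h1 : f * σ ∈ W 0 := by simpa using F.supp 0 _ hf2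
  have h2 := F.mul 0 f⁻¹ (f * σ) (F.inv _ _ (hf1 0)) h1
  simpa using h2

theorem WFam.caseII {W : ℤ → Set (Equiv.Perm ℤ)} {k0 : ℕ} (F : WFam W k0) (k1 : ℤ)
    (h01 : Equiv.swap (0 : ℤ) 1 ∉ W k1) :
    ∃ C : ℤ, ∀ k, ∀ σ ∈ W k, ∀ i < -k - C, σ i = i := by
  have T : ∀ b : ℤ, 2 ≤ b → 6 * k0 - k1 ≤ b → ∀ z ≥ b, Equiv.swap 0 z ∉ W (-b) := by
    intro b hb2 hb z hz hmem
    have h1 : ∀ z' ≥ b, Equiv.swap 0 z' ∈ W (-b + 2 * k0) := by
      intro z' hz'
      by_cases hzz : z' = z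
      · subst hzz
        exact F.mono _ _ (by omega) hmem
      · have hf : Equiv.swap z z' ∈ W (-b) := F.supp b _ (fun j hj =>
          Equiv.swap_apply_of_ne_of_ne (by omega) (by omega))
        have := F.swap_of (-b) (Equiv.swap z z') 0 z hf hmem
        rwa [Equiv.swap_apply_left, Equiv.swap_apply_of_ne_of_ne (by omega) (by omega)] at this
    have h2 := h1 b le_rfl
    have h3 : Equiv.swap 1 (b + 1) ∈ W (-b + 2 * k0) := by
      have := F.conj _ _ h2 1
      rw [← Equiv.swap_apply_apply, sh_apply, sh_apply] at this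
      have e1 : (0 : ℤ) + 1 = 1 := by ring
      rw [e1] at this
      exact F.mono _ _ (by omega) this
    have h4 : Equiv.swap 1 b ∈ W (-b + 4 * k0) := by
      have hf : Equiv.swap (b + 1) b ∈ W (-b + 2 * k0) := F.mono _ _ (by omega)
        (F.supp b _ (fun j hj => Equiv.swap_apply_of_ne_of_ne (by omega) (by omega)))
      have := F.swap_of _ (Equiv.swap (b + 1) b) 1 (b + 1) hf h3
      rw [Equiv.swap_apply_left, Equiv.swap_apply_of_ne_of_ne (by omega) (by omega)] at this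
      have e : -b + 2 * (k0 : ℤ) + 2 * k0 = -b + 4 * k0 := by ring
      rwa [e] at this
    have h5 : Equiv.swap (0 : ℤ) 1 ∈ W (-b + 6 * k0) := by
      have hf : Equiv.swap 0 b ∈ W (-b + 4 * k0) := F.mono _ _ (by omega) h2
      have := F.swap_of _ (Equiv.swap 0 b) 1 b hf h4
      rw [Equiv.swap_apply_right, Equiv.swap_apply_of_ne_of_ne (by omega) (by omega),
        Equiv.swap_comm] at this
      have e : -b + 4 * (k0 : ℤ) + 2 * k0 = -b + 6 * k0 := by ring
      rwa [e] at this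
    exact h01 (F.mono _ _ (by omega) h5)
  obtain ⟨b0, hb0⟩ : ∃ b0 : ℕ, (b0 : ℤ) = max 2 (6 * k0 - k1) :=
    ⟨(max 2 (6 * (k0 : ℤ) - k1)).toNat, by omega⟩
  have main : ∀ (b : ℤ) (σ : Equiv.Perm ℤ), (∀ i < 0, σ i = i) → σ 0 ≠ 0 → σ ∈ W (-b) →
      b < (b0 + 2 * k0 : ℕ) + (b0 + 2 * k0 : ℕ) * k0 := by
    intro b σ hfix h0 hmem
    by_contra hcon
    push Not at hcon
    set b1 : ℕ := b0 + 2 * k0 with hb1
    have he : 1 ≤ σ 0 := by
      by_contra hc
      push Not at hc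
      rcases lt_or_eq_of_le (show σ 0 ≤ 0 by omega) with h1 | h1
      · have := hfix _ h1
        exact h0 (σ.injective this)
      · exact h0 h1
    set e := σ 0 with hedef
    have chain : ∀ q : ℕ, ∃ P ∈ W (-b + q * k0), (∀ i < 0, P i = i) ∧ P 0 = q * e := by
      intro q
      induction q with
      | zero =>
        refine ⟨1, ?_, fun _ _ => rfl, by simp⟩
        have := F.supp b 1 (fun _ _ => rfl)
        simpa using this
      | succ q ih =>
        obtain ⟨P, hP1, hP2, hP3⟩ := ih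
        have hqe : 0 ≤ (q : ℤ) * e := by positivity
        have hqk : 0 ≤ (q : ℤ) * k0 := by positivity
        have h1 := F.conj _ _ hmem (q * e)
        have h2 := F.mono (-b - q * e) (-b + q * k0) (by omega) h1
        have h3 := F.mul _ _ _ h2 hP1
        refine ⟨sh (q * e) * σ * (sh (q * e))⁻¹ * P, ?_, ?_, ?_⟩
        · have e1 : -b + (q : ℤ) * k0 + k0 = -b + ((q + 1 : ℕ) : ℤ) * k0 := by push_cast; ring
          rwa [e1] at h3
        · intro i hi
          simp only [Equiv.Perm.mul_apply]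
          rw [hP2 i hi, sh_inv_apply, hfix _ (by omega), sh_apply]
          ring
        · simp only [Equiv.Perm.mul_apply]
          rw [hP3, sh_inv_apply, sub_self, sh_apply, ← hedef]
          push_cast
          ring
    obtain ⟨P, hP1, hP2, hP3⟩ := chain b1
    have hPW : P ∈ W (-(b1 : ℤ)) := F.mono _ _ (by omega) hP1
    have hb1pos : 0 < (b1 : ℤ) := by omega
    have hy0 : (b1 : ℤ) ≤ P 0 := by rw [hP3]; nlinarith
    obtain ⟨y, hy1, hy2⟩ : ∃ y, y ∈ Set.Ici (b1 : ℤ) ∧ y ∉ P '' Set.Icc 0 (b0 : ℤ) := by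
      have h1 : (Set.Ici (b1 : ℤ)).Infinite := Set.Ici_infinite _
      have h2 : (P '' Set.Icc 0 (b0 : ℤ)).Finite := (Set.finite_Icc _ _).image _
      obtain ⟨y, hy⟩ := (h1.sdiff h2).nonempty
      exact ⟨y, hy.1, hy.2⟩
    have hy1' : (b1 : ℤ) ≤ y := hy1
    have hz1 : (b0 : ℤ) < P⁻¹ y := by
      by_contra hc
      push Not at hc
      rcases lt_or_ge (P⁻¹ y) 0 with h1 | h1
      · have h2 := hP2 _ h1
        rw [perm_ai] at h2
        omega
      · exact hy2 ⟨P⁻¹ y, ⟨h1, hc⟩, perm_ai P y⟩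
    have hsw : Equiv.swap (P 0) y ∈ W (-(b1 : ℤ)) := F.supp _ _ (fun j hj =>
      Equiv.swap_apply_of_ne_of_ne (by omega) (by omega))
    have h1 := F.swap_of _ P⁻¹ (P 0) y (F.inv _ _ hPW) hsw
    rw [perm_ia] at h1
    have e1 : -(b1 : ℤ) + 2 * k0 = -(b0 : ℤ) := by rw [hb1]; push_cast; ring
    rw [e1] at h1
    exact T b0 (by omega) (by omega) _ hz1.le h1
  refine ⟨(b0 + 2 * k0 : ℕ) + (b0 + 2 * k0 : ℕ) * k0, fun k σ hσ i hi => ?_⟩
  by_contra hne
  obtain ⟨M, hM⟩ := F.bdd k σ hσ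
  obtain ⟨i0, hi0, hmin⟩ := Int.exists_least_of_bdd (P := fun i => σ i ≠ i)
    ⟨M, fun z hz => by
      by_contra hc
      exact hz (hM z (by omega))⟩ ⟨i, hne⟩
  have hle : i0 ≤ i := hmin i hne
  have h1 := F.conj _ _ hσ (-i0)
  have h2 := main (-k - i0) (sh (-i0) * σ * (sh (-i0))⁻¹) (by
      intro j hj
      simp only [Equiv.Perm.mul_apply]
      rw [sh_inv_apply]
      have h3 : σ (j - -i0) = j - -i0 := by
        by_contra hc
        have := hmin _ hc
        omega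
      rw [h3, sh_apply]
      ring) (by
      simp only [Equiv.Perm.mul_apply]
      rw [sh_inv_apply, sh_apply]
      intro hc
      apply hi0
      have e1 : (0 : ℤ) - -i0 = i0 := by ring
      rw [e1] at hc
      omega) (by
      have e1 : k - -i0 = -(-k - i0) := by ring
      rwa [e1] at h1)
  omega

theorem WFam.dichotomy {W : ℤ → Set (Equiv.Perm ℤ)} {k0 : ℕ} (F : WFam W k0) :
    (∀ (σ : Equiv.Perm ℤ) (M : ℤ), (∀ i < M, σ i = i) → σ ∈ W k0) ∨
    (∃ C : ℤ, ∀ k, ∀ σ ∈ W k, ∀ i < -k - C, σ i = i) := by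
  by_cases h : ∀ k, Equiv.swap (0 : ℤ) 1 ∈ W k
  · left
    exact fun σ M hσ => F.caseI h σ M hσ
  · right
    push Not at h
    obtain ⟨k1, hk1⟩ := h
    exact F.caseII k1 hk1

end Pool.Agent.H191R3.QP
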