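import Mathlib
import Pool.Agent.H191R3.QPBergman

set_option autoImplicit false

namespace Pool.Agent.H191R3.QP

variable {G : Type*} [Group G]

/-- the four point inequality -/
def Four (L : G → ℝ) (δ : ℝ) : Prop :=
  ∀ x y z w : G, L (x⁻¹ * y) + L (z⁻¹ * w) ≤
    max (L (x⁻¹ * z) + L (y⁻¹ * w)) (L (x⁻¹ * w) + L (y⁻¹ * z)) + 2 * δ

theorem four_of_gp {L : G → ℝ} (hL : IsLen L) {δ : ℝ}
    (h : ∀ x y z : G, min ((L x + L y - L (x⁻¹ * y)) / 2) ((L y + L z - L (y⁻¹ * z)) / 2) - δ ≤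
      (L x + L z - L (x⁻¹ * z)) / 2) : Four L δ := by
  intro x y z w
  have h1 := h (w⁻¹ * x) (w⁻¹ * z) (w⁻¹ * y)
  have e1 : (w⁻¹ * x)⁻¹ * (w⁻¹ * z) = x⁻¹ * z := by group
  have e2 : (w⁻¹ * z)⁻¹ * (w⁻¹ * y) = z⁻¹ * y := by group
  have e3 : (w⁻¹ * x)⁻¹ * (w⁻¹ * y) = x⁻¹ * y := by group
  rw [e1, e2, e3] at h1
  have s1 : L (z⁻¹ * w) = L (w⁻¹ * z) := by rw [← hL.inv (z⁻¹ * w)]; congr 1; group
  have s2 : L (y⁻¹ * w) = L (w⁻¹ * y) := by rw [← hL.inv (y⁻¹ * w)]; congr 1; group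
  have s3 : L (x⁻¹ * w) = L (w⁻¹ * x) := by rw [← hL.inv (x⁻¹ * w)]; congr 1; group
  have s4 : L (y⁻¹ * z) = L (z⁻¹ * y) := by rw [← hL.inv (y⁻¹ * z)]; congr 1; group
  rw [s1, s2, s3, s4]
  rcases le_total ((L (w⁻¹ * x) + L (w⁻¹ * z) - L (x⁻¹ * z)) / 2)
    ((L (w⁻¹ * z) + L (w⁻¹ * y) - L (z⁻¹ * y)) / 2) with h2 | h2
  · rw [min_eq_left h2] at h1
    have := le_max_left (L (x⁻¹ * z) + L (w⁻¹ * y)) (L (w⁻¹ * x) + L (z⁻¹ * y))
    linarith
  · rw [min_eq_right h2] at h1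
    have := le_max_right (L (x⁻¹ * z) + L (w⁻¹ * y)) (L (w⁻¹ * x) + L (z⁻¹ * y))
    linarith

theorem four_nonneg {L : G → ℝ} (hL : IsLen L) {δ : ℝ} (h : Four L δ) : 0 ≤ δ := by
  have := h 1 1 1 1
  simp [hL.one] at this
  exact this

theorem pow_le (L : G → ℝ) (hL : IsLen L) (t : G) (n : ℕ) : L (t ^ n) ≤ n * L t := by
  induction n with
  | zero => simp [hL.one]
  | succ n ih =>
    rw [pow_succ]
    have := hL.mul (t ^ n) t
    push_cast
    linarith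

theorem pow_sub (L : G → ℝ) (hL : IsLen L) (t : G) (i j : ℕ) :
    L (t ^ i) ≤ L (t ^ (i + j)) + L (t ^ j) := by
  have h1 : t ^ i = t ^ (i + j) * (t ^ j)⁻¹ := by rw [pow_add]; group
  rw [h1]
  have := hL.mul (t ^ (i + j)) (t ^ j)⁻¹
  rw [hL.inv] at this
  linarith

/-- the orbit of an isometry with linearly growing orbit is a quasi-geodesic. -/
theorem quasi_add {L : G → ℝ} (hL : IsLen L) {δ : ℝ} (h4 : Four L δ) (t : G) (c C : ℝ)
    (hc : 0 < c) (hlow : ∀ n : ℕ, c * n - C ≤ L (t ^ n)) :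
    ∃ C1 : ℝ, 0 ≤ C1 ∧ ∀ i j : ℕ, L (t ^ i) + L (t ^ j) - C1 ≤ L (t ^ (i + j)) := by
  have hδ := four_nonneg hL h4
  have ht0 := hL.nonneg t
  -- find the good power
  have hM : ∃ M : ℕ, 1 ≤ M ∧ L (t ^ M) + 3 * δ < L (t ^ (2 * M)) := by
    by_contra hcon
    push Not at hcon
    have h1 : ∀ s : ℕ, L (t ^ (2 ^ s)) ≤ L t + 3 * δ * s := by
      intro s
      induction s with
      | zero => simp
      | succ s ih =>
        have := hcon (2 ^ s) Nat.one_le_two_pow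
        rw [pow_succ, mul_comm (2 ^ s) 2]
        push_cast
        linarith
    obtain ⟨r, hr⟩ := exists_nat_gt ((6 * δ + |C| + L t + 1) / c)
    have hr' : 6 * δ + |C| + L t + 1 < r * c := by rwa [div_lt_iff₀ hc] at hr
    have hr1 : (1 : ℝ) ≤ r := by
      have : 0 < (r : ℝ) := by
        refine lt_of_le_of_lt ?_ hr
        positivity
      exact_mod_cast (Nat.cast_pos.mp this)
    have h2 := h1 (2 * r)
    have h3 := hlow (2 ^ (2 * r))
    have h4' : (r : ℝ) * r ≤ ((2 ^ (2 * r) : ℕ) : ℝ) := by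
      have : r * r ≤ 2 ^ (2 * r) := by
        have h5 : r ≤ 2 ^ r := Nat.lt_two_pow_self.le
        calc r * r ≤ 2 ^ r * 2 ^ r := Nat.mul_le_mul h5 h5
          _ = 2 ^ (2 * r) := by rw [← pow_add]; congr 1; ring
      exact_mod_cast this
    have h5 : c * (r * r) ≤ c * ((2 ^ (2 * r) : ℕ) : ℝ) := mul_le_mul_of_nonneg_left h4' hc.le
    have h6 : C ≤ |C| := le_abs_self C
    have h7 : (6 * δ + |C| + L t + 1) * r ≤ (r * c) * r :=
      mul_le_mul_of_nonneg_right hr'.le (by linarith)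
    have h8 : |C| + L t + 1 ≤ (|C| + L t + 1) * r := by
      have : 0 ≤ |C| + L t + 1 := by positivity
      nlinarith
    push_cast at h2
    nlinarith
  obtain ⟨M, hM1, hM2⟩ := hM
  set s := t ^ M with hs
  have hsb : ∀ n : ℕ, s ^ n = t ^ (M * n) := fun n => by rw [hs, ← pow_mul]
  have hs2 : L (s ^ 2) = L (t ^ (2 * M)) := by rw [hsb]; congr 2; ring
  have hkey : L s + 3 * δ < L (s ^ 2) := by rw [hs2]; exact hM2
  have hs2' : L (s ^ 2) ≤ 2 * L s := by simpa using pow_le L hL s 2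
  set E := 2 * L s - L (s ^ 2) with hE
  have hE0 : 0 ≤ E := by linarith
  have claim1 : ∀ n : ℕ, L (s ^ n) + L s - E - 2 * δ ≤ L (s ^ (n + 1)) := by
    intro n
    induction n with
    | zero => simp [hL.one]; linarith
    | succ n ih =>
      have h1 := h4 1 (s ^ (n + 1)) (s ^ n) (s ^ (n + 2))
      have e1 : (1 : G)⁻¹ * s ^ (n + 1) = s ^ (n + 1) := by group
      have e2 : (s ^ n)⁻¹ * s ^ (n + 2) = s ^ 2 := by rw [pow_add]; group
      have e3 : (1 : G)⁻¹ * s ^ n = s ^ n := by group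
      have e4 : (s ^ (n + 1))⁻¹ * s ^ (n + 2) = s := by
        rw [show n + 2 = (n + 1) + 1 by ring, pow_succ s (n + 1)]; group
      have e5 : (1 : G)⁻¹ * s ^ (n + 2) = s ^ (n + 2) := by group
      have e6 : (s ^ (n + 1))⁻¹ * s ^ n = s⁻¹ := by rw [pow_succ]; group
      rw [e1, e2, e3, e4, e5, e6, hL.inv] at h1
      rcases le_total (L (s ^ n) + L s) (L (s ^ (n + 2)) + L s) with h2 | h2
      · rw [max_eq_right h2] at h1
        have : L (s ^ (n + 1 + 1)) = L (s ^ (n + 2)) := rfl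
        rw [this]
        linarith
      · rw [max_eq_left h2] at h1
        exfalso
        linarith
  have claim2 : ∀ p q : ℕ, L (s ^ p) + L (s ^ q) - E - 4 * δ ≤ L (s ^ (p + q)) := by
    intro p q
    rcases Nat.eq_zero_or_pos q with hq | hq
    · subst hq
      simp [hL.one]
      linarith
    · obtain ⟨q', rfl⟩ : ∃ q', q = q' + 1 := ⟨q - 1, by omega⟩
      have h1 := h4 1 (s ^ (p + 1)) (s ^ p) (s ^ (p + (q' + 1)))
      have e1 : (1 : G)⁻¹ * s ^ (p + 1) = s ^ (p + 1) := by group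
      have e2 : (s ^ p)⁻¹ * s ^ (p + (q' + 1)) = s ^ (q' + 1) := by rw [pow_add]; group
      have e3 : (1 : G)⁻¹ * s ^ p = s ^ p := by group
      have e4 : (s ^ (p + 1))⁻¹ * s ^ (p + (q' + 1)) = s ^ q' := by
        rw [show p + (q' + 1) = (p + 1) + q' by ring, pow_add s (p + 1)]; group
      have e5 : (1 : G)⁻¹ * s ^ (p + (q' + 1)) = s ^ (p + (q' + 1)) := by group
      have e6 : (s ^ (p + 1))⁻¹ * s ^ p = s⁻¹ := by rw [pow_succ]; group
      rw [e1, e2, e3, e4, e5, e6, hL.inv] at h1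
      have c1 := claim1 p
      have c2 := claim1 q'
      rcases le_total (L (s ^ p) + L (s ^ q')) (L (s ^ (p + (q' + 1))) + L s) with h2 | h2
      · rw [max_eq_right h2] at h1
        linarith
      · rw [max_eq_left h2] at h1
        exfalso
        linarith
  refine ⟨E + 4 * δ + 4 * M * L t, by positivity, fun i j => ?_⟩
  have hi : i = M * (i / M) + i % M := (Nat.div_add_mod i M).symm
  have hj : j = M * (j / M) + j % M := (Nat.div_add_mod j M).symm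
  have hri : i % M < M := Nat.mod_lt _ hM1
  have hrj : j % M < M := Nat.mod_lt _ hM1
  set p := i / M
  set q := j / M
  set r := i % M
  set r' := j % M
  have b1 : L (t ^ i) ≤ L (s ^ p) + M * L t := by
    rw [hsb p, hi, pow_add]
    have := hL.mul (t ^ (M * p)) (t ^ r)
    have h2 := pow_le L hL t r
    have h3 : (r : ℝ) * L t ≤ M * L t := mul_le_mul_of_nonneg_right (by exact_mod_cast hri.le) ht0
    linarith
  have b2 : L (t ^ j) ≤ L (s ^ q) + M * L t := by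
    rw [hsb q, hj, pow_add]
    have := hL.mul (t ^ (M * q)) (t ^ r')
    have h2 := pow_le L hL t r'
    have h3 : (r' : ℝ) * L t ≤ M * L t := mul_le_mul_of_nonneg_right (by exact_mod_cast hrj.le) ht0
    linarith
  have b3 : L (s ^ (p + q)) ≤ L (t ^ (i + j)) + 2 * M * L t := by
    rw [hsb]
    have h1 := pow_sub L hL t (M * (p + q)) (r + r')
    have h2 : M * (p + q) + (r + r') = i + j := by rw [hi, hj]; ring
    rw [h2] at h1
    have h3 := pow_le L hL t (r + r')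
    have h4 : ((r + r' : ℕ) : ℝ) * L t ≤ (2 * M) * L t :=
      mul_le_mul_of_nonneg_right (by push_cast; have : (r : ℝ) ≤ M := by exact_mod_cast hri.le
                                     have : (r' : ℝ) ≤ M := by exact_mod_cast hrj.le
                                     linarith) ht0
    linarith
  have b4 := claim2 p q
  linarith

/-- sequences staying close to the positive powers of `τ` converge to the same end. -/
theorem same_end {L : G → ℝ} (hL : IsLen L) (τ : G) (c C C1 : ℝ) (hc : 0 < c)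
    (hlow : ∀ n : ℕ, c * n - C ≤ L (τ ^ n))
    (hadd : ∀ i j : ℕ, L (τ ^ i) + L (τ ^ j) - C1 ≤ L (τ ^ (i + j)))
    (k k' : ℕ) (hk : 1 ≤ k) (hk' : 1 ≤ k') (x y : ℕ → G) (β β' : ℝ)
    (hx : ∀ n, L ((τ ^ (k * n))⁻¹ * x n) ≤ β) (hy : ∀ n, L ((τ ^ (k' * n))⁻¹ * y n) ≤ β') (K : ℝ) :
    ∃ N : ℕ, ∀ n m : ℕ, N ≤ n → N ≤ m → K ≤ (L (x n) + L (y m) - L ((x n)⁻¹ * y m)) / 2 := by
  obtain ⟨N, hN⟩ := exists_nat_gt ((K + C + |C1| + |β| + |β'|) / c)
  have hN' : K + C + |C1| + |β| + |β'| < N * c := by rwa [div_lt_iff₀ hc] at hN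
  refine ⟨N, fun n m hn hm => ?_⟩
  have x1 : L (τ ^ (k * n)) ≤ L (x n) + β := by
    have h1 : τ ^ (k * n) = x n * ((τ ^ (k * n))⁻¹ * x n)⁻¹ := by group
    have := hL.mul (x n) ((τ ^ (k * n))⁻¹ * x n)⁻¹
    rw [← h1, hL.inv] at this
    linarith [hx n]
  have y1 : L (τ ^ (k' * m)) ≤ L (y m) + β' := by
    have h1 : τ ^ (k' * m) = y m * ((τ ^ (k' * m))⁻¹ * y m)⁻¹ := by group
    have := hL.mul (y m) ((τ ^ (k' * m))⁻¹ * y m)⁻¹
    rw [← h1, hL.inv] at this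
    linarith [hy m]
  have xy : L ((x n)⁻¹ * y m) ≤ β + β' + L ((τ ^ (k * n))⁻¹ * τ ^ (k' * m)) := by
    have h1 : (x n)⁻¹ * y m = ((τ ^ (k * n))⁻¹ * x n)⁻¹ * ((τ ^ (k * n))⁻¹ * τ ^ (k' * m)) *
        ((τ ^ (k' * m))⁻¹ * y m) := by group
    rw [h1]
    have a1 := hL.mul (((τ ^ (k * n))⁻¹ * x n)⁻¹ * ((τ ^ (k * n))⁻¹ * τ ^ (k' * m)))
      ((τ ^ (k' * m))⁻¹ * y m)
    have a2 := hL.mul (((τ ^ (k * n))⁻¹ * x n)⁻¹) ((τ ^ (k * n))⁻¹ * τ ^ (k' * m))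
    rw [hL.inv] at a2
    linarith [hx n, hy m]
  have hb1 : β ≤ |β| := le_abs_self _
  have hb2 : β' ≤ |β'| := le_abs_self _
  have hb3 : C1 ≤ |C1| := le_abs_self _
  have hb4 : 0 ≤ |C1| := abs_nonneg _
  have hnk : (N : ℝ) ≤ ((k * n : ℕ) : ℝ) := by
    have : N ≤ k * n := hn.trans (Nat.le_mul_of_pos_left n hk)
    exact_mod_cast this
  have hmk : (N : ℝ) ≤ ((k' * m : ℕ) : ℝ) := by
    have : N ≤ k' * m := hm.trans (Nat.le_mul_of_pos_left m hk')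
    exact_mod_cast this
  rcases le_total (k * n) (k' * m) with hle | hle
  · obtain ⟨d, hd⟩ := Nat.exists_eq_add_of_le hle
    have e1 : (τ ^ (k * n))⁻¹ * τ ^ (k' * m) = τ ^ d := by rw [hd, pow_add]; group
    rw [e1] at xy
    have h1 := hadd (k * n) d
    rw [← hd] at h1
    have h2 := hlow (k * n)
    have h3 : c * N ≤ c * ((k * n : ℕ) : ℝ) := mul_le_mul_of_nonneg_left hnk hc.le
    linarith
  · obtain ⟨d, hd⟩ := Nat.exists_eq_add_of_le hle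
    have e1 : L ((τ ^ (k * n))⁻¹ * τ ^ (k' * m)) = L (τ ^ d) := by
      rw [← hL.inv, hd, pow_add]; congr 1
      rw [← pow_add, Nat.add_comm, pow_add]
      group
    rw [e1] at xy
    have h1 := hadd (k' * m) d
    rw [← hd] at h1
    have h2 := hlow (k' * m)
    have h3 : c * N ≤ c * ((k' * m : ℕ) : ℝ) := mul_le_mul_of_nonneg_left hmk hc.le
    linarith

/-- The standing assumptions: `t` contracts the subgroup `H`, on which `L` is bounded. -/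
structure Setup (L : G → ℝ) (t : G) (H : Subgroup G) (B : ℝ) : Prop where
  len : IsLen L
  conj : ∀ h ∈ H, t * h * t⁻¹ ∈ H
  bdd : ∀ h ∈ H, L h ≤ B

theorem Setup.conj_pow {L : G → ℝ} {t : G} {H : Subgroup G} {B : ℝ} (S : Setup L t H B) (n : ℕ)
    (h : G) (hh : h ∈ H) : t ^ n * h * (t ^ n)⁻¹ ∈ H := by
  induction n with
  | zero => simpa using hh
  | succ n ih =>
    have := S.conj _ ih
    have e : t ^ (n + 1) * h * (t ^ (n + 1))⁻¹ = t * (t ^ n * h * (t ^ n)⁻¹) * t⁻¹ := by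
      rw [pow_succ']; group
    rwa [e]

/-- elements of `N = ⋃ t^{-m} H t^m` -/
def InN (t : G) (H : Subgroup G) (u : G) : Prop := ∃ m : ℕ, t ^ m * u * (t ^ m)⁻¹ ∈ H

theorem Setup.far {L : G → ℝ} {t : G} {H : Subgroup G} {B : ℝ} (S : Setup L t H B) {u : G} {m : ℕ}
    (hm : t ^ m * u * (t ^ m)⁻¹ ∈ H) (j : ℕ) (hj : m ≤ j) : L (t ^ j * u * (t ^ j)⁻¹) ≤ B := by
  obtain ⟨d, rfl⟩ := Nat.exists_eq_add_of_le hj
  have := S.bdd _ (S.conj_pow d _ hm)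
  have e : t ^ d * (t ^ m * u * (t ^ m)⁻¹) * (t ^ d)⁻¹ = t ^ (m + d) * u * (t ^ (m + d))⁻¹ := by
    rw [Nat.add_comm m d, pow_add]; group
  rwa [e] at this

theorem pow_form {L : G → ℝ} {t : G} {H : Subgroup G} {B : ℝ} (S : Setup L t H B) (m k : ℕ) (h : G)
    (hh : h ∈ H) (j : ℕ) :
    ∃ h' ∈ H, ((t ^ m)⁻¹ * h * t ^ m * t ^ k) ^ j = (t ^ m)⁻¹ * h' * t ^ m * t ^ (k * j) := by
  induction j with
  | zero => exact ⟨1, H.one_mem, by simp⟩
  | succ j ih =>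
    obtain ⟨h', hh', e⟩ := ih
    refine ⟨h * (t ^ k * h' * (t ^ k)⁻¹), H.mul_mem hh (S.conj_pow k h' hh'), ?_⟩
    rw [pow_succ', e, Nat.mul_succ, Nat.add_comm (k * j) k, pow_add]
    have c1 : t ^ m * t ^ k * (t ^ m)⁻¹ = t ^ k := by
      rw [← pow_add, Nat.add_comm, pow_add]; group
    have c2 : (t ^ k)⁻¹ * t ^ m * t ^ k = t ^ m := by
      rw [mul_assoc, ← pow_add, Nat.add_comm, pow_add]; group
    calc (t ^ m)⁻¹ * h * t ^ m * t ^ k * ((t ^ m)⁻¹ * h' * t ^ m * t ^ (k * j))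
        = (t ^ m)⁻¹ * h * (t ^ m * t ^ k * (t ^ m)⁻¹) * h' * t ^ m * t ^ (k * j) := by group
      _ = (t ^ m)⁻¹ * h * t ^ k * h' * t ^ m * t ^ (k * j) := by rw [c1]
      _ = (t ^ m)⁻¹ * h * t ^ k * h' * ((t ^ k)⁻¹ * t ^ m * t ^ k) * t ^ (k * j) := by rw [c2]
      _ = _ := by group

theorem lox_lower {L : G → ℝ} {t : G} {H : Subgroup G} {B : ℝ} (S : Setup L t H B) (g : G) (m k : ℕ)
    (h : G) (hh : h ∈ H) (hg : g = (t ^ m)⁻¹ * h * t ^ m * t ^ k) (c : ℝ) (hc : 0 < c)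
    (hlox : ∀ n : ℕ, c * n ≤ L (g ^ n)) :
    1 ≤ k ∧ ∃ c' C : ℝ, 0 < c' ∧ ∀ n : ℕ, c' * n - C ≤ L (t ^ n) := by
  have hL := S.len
  have ht0 := hL.nonneg t
  have h1 : ∀ j : ℕ, c * j - (2 * L (t ^ m) + B) ≤ L (t ^ (k * j)) := by
    intro j
    obtain ⟨h', hh', e⟩ := pow_form S m k h hh j
    have a0 := hlox j
    rw [hg, e] at a0
    have a1 := hL.mul ((t ^ m)⁻¹ * h' * t ^ m) (t ^ (k * j))
    have a2 := hL.mul ((t ^ m)⁻¹ * h') (t ^ m)
    have a3 := hL.mul ((t ^ m)⁻¹) h'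
    rw [hL.inv] at a3
    have a4 := S.bdd h' hh'
    linarith
  have hk : 1 ≤ k := by
    by_contra hk
    have hk0 : k = 0 := by omega
    subst hk0
    obtain ⟨j, hj⟩ := exists_nat_gt ((2 * L (t ^ m) + B) / c)
    rw [div_lt_iff₀ hc] at hj
    have := h1 j
    simp [hL.one] at this
    linarith
  refine ⟨hk, c / k, c + (2 * L (t ^ m) + B) + k * L t, by positivity, fun n => ?_⟩
  have hk' : (0 : ℝ) < k := by exact_mod_cast hk
  have hn : k * (n / k) + n % k = n := Nat.div_add_mod n k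
  have hr : n % k < k := Nat.mod_lt _ hk
  set q := n / k
  set r := n % k
  have b1 : L (t ^ (k * q)) ≤ L (t ^ n) + k * L t := by
    have h2 := pow_sub L hL t (k * q) r
    rw [hn] at h2
    have h3 := pow_le L hL t r
    have h4 : (r : ℝ) * L t ≤ k * L t := mul_le_mul_of_nonneg_right (by exact_mod_cast hr.le) ht0
    linarith
  have b2 := h1 q
  have b3 : (n : ℝ) ≤ k * q + k := by
    have : n ≤ k * q + k := by omega
    exact_mod_cast this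
  have b4 : c / k * n ≤ c * q + c := by
    rw [div_mul_eq_mul_div, div_le_iff₀ hk']
    nlinarith
  linarith

/-- the translation part is controlled by the length. -/
theorem level_bound {L : G → ℝ} {t : G} {H : Subgroup G} {B : ℝ} (S : Setup L t H B) (C1 : ℝ)
    (hadd : ∀ i j : ℕ, L (t ^ i) + L (t ^ j) - C1 ≤ L (t ^ (i + j))) (u : G) (hu : InN t H u) (k : ℕ) :
    L (t ^ k) ≤ L (u * t ^ k) + B + C1 := by
  have hL := S.len
  obtain ⟨m, hm⟩ := hu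
  have h1 := S.far hm m le_rfl
  have h2 := hadd m k
  -- `t ^ (m + k)` versus `t ^ m`
  have e1 : (t ^ (m + k)) = (t ^ m * u * (t ^ m)⁻¹)⁻¹ * (t ^ m * (u * t ^ k)) := by
    rw [pow_add]; group
  have h3 : L (t ^ (m + k)) ≤ B + L (t ^ m) + L (u * t ^ k) := by
    rw [e1]
    have a1 := hL.mul (t ^ m * u * (t ^ m)⁻¹)⁻¹ (t ^ m * (u * t ^ k))
    have a2 := hL.mul (t ^ m) (u * t ^ k)
    rw [hL.inv] at a1
    linarith
  linarith

/-- the displacement function along the ray to the fixed end drops to a uniform constant. -/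
theorem contract {L : G → ℝ} {t : G} {H : Subgroup G} {B : ℝ} (S : Setup L t H B) {δ : ℝ}
    (h4 : Four L δ) (C1 : ℝ)
    (hadd : ∀ i j : ℕ, L (t ^ i) + L (t ^ j) - C1 ≤ L (t ^ (i + j))) (u : G) (hu : InN t H u) (j : ℕ)
    (hj : L u + C1 + B ≤ 2 * L (t ^ j)) : L (t ^ j * u * (t ^ j)⁻¹) ≤ C1 + B + 4 * δ := by
  have hL := S.len
  have hδ := four_nonneg hL h4
  obtain ⟨m, hm⟩ := hu
  obtain ⟨e, he⟩ : ∃ e, m ≤ j + e := ⟨m, by omega⟩
  have hfar := S.far hm (j + e) he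
  have hB0 : 0 ≤ B := le_trans (hL.nonneg _) hfar
  set P := (t ^ j)⁻¹ with hP
  set Q := (t ^ (j + e))⁻¹ with hQ
  have f1 : L (Q⁻¹ * (u * Q)) ≤ B := by
    have : Q⁻¹ * (u * Q) = t ^ (j + e) * u * (t ^ (j + e))⁻¹ := by rw [hQ]; group
    rw [this]; exact hfar
  have f1' : L ((u * Q)⁻¹ * Q) ≤ B := by
    have : (u * Q)⁻¹ * Q = (Q⁻¹ * (u * Q))⁻¹ := by group
    rw [this, hL.inv]; exact f1
  have f2 : L (P⁻¹ * Q) = L (t ^ e) := by
    rw [← hL.inv (P⁻¹ * Q)]; congr 1; rw [hP, hQ, Nat.add_comm, pow_add]; group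
  have f3 : L ((u * P)⁻¹ * Q) ≤ L (t ^ e) + B := by
    have : (u * P)⁻¹ * Q = (P⁻¹ * Q) * ((u * Q)⁻¹ * Q) := by group
    rw [this]
    have := hL.mul (P⁻¹ * Q) ((u * Q)⁻¹ * Q)
    linarith
  have f4 : L Q = L (t ^ (j + e)) := by rw [hQ, hL.inv]
  have f5 : L (t ^ (j + e)) - B ≤ L (u⁻¹ * Q) := by
    have : Q = (u⁻¹ * Q) * ((Q⁻¹ * (u * Q))) := by group
    have h1 := hL.mul (u⁻¹ * Q) (Q⁻¹ * (u * Q))
    rw [← this, f4] at h1
    linarith
  have f6 : L P = L (t ^ j) := by rw [hP, hL.inv]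
  have g1 := h4 1 (u * P) u Q
  have e1 : (1 : G)⁻¹ * (u * P) = u * P := by group
  have e2 : (1 : G)⁻¹ * u = u := by group
  have e3 : (1 : G)⁻¹ * Q = Q := by group
  have e4 : L ((u * P)⁻¹ * u) = L (t ^ j) := by
    have : (u * P)⁻¹ * u = P⁻¹ := by group
    rw [this, hL.inv, f6]
  rw [e1, e2, e3, e4, f4] at g1
  have a1 := hadd j e
  have g2 : L (u * P) ≤ L (t ^ j) + B + 2 * δ := by
    rcases le_total (L u + L ((u * P)⁻¹ * Q)) (L (t ^ (j + e)) + L (t ^ j)) with h | h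
    · rw [max_eq_right h] at g1
      linarith
    · rw [max_eq_left h] at g1
      linarith
  have g3 := h4 P (u * P) 1 Q
  rw [e3, f4] at g3
  have e5 : L (P⁻¹ * 1) = L (t ^ j) := by rw [mul_one, hL.inv, f6]
  have e6 : L ((u * P)⁻¹ * 1) = L (u * P) := by rw [mul_one, hL.inv]
  have e7 : P⁻¹ * (u * P) = t ^ j * u * P := by rw [hP]; group
  rw [e5, e6, f2, e7] at g3
  rcases le_total (L (t ^ j) + L ((u * P)⁻¹ * Q)) (L (t ^ e) + L (u * P)) with h | h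
  · rw [max_eq_right h] at g3
    linarith
  · rw [max_eq_left h] at g3
    linarith

theorem InN.mul {t : G} {H : Subgroup G} (hc : ∀ h ∈ H, t * h * t⁻¹ ∈ H) {u v : G}
    (hu : InN t H u) (hv : InN t H v) : InN t H (u * v) := by
  have hp : ∀ (n : ℕ) (h : G), h ∈ H → t ^ n * h * (t ^ n)⁻¹ ∈ H := by
    intro n h hh
    induction n with
    | zero => simpa using hh
    | succ n ih =>
      have := hc _ ih
      have e : t ^ (n + 1) * h * (t ^ (n + 1))⁻¹ = t * (t ^ n * h * (t ^ n)⁻¹) * t⁻¹ := by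
        rw [pow_succ']; group
      rwa [e]
  obtain ⟨m, hm⟩ := hu
  obtain ⟨n, hn⟩ := hv
  refine ⟨m + n, ?_⟩
  have h1 := hp n _ hm
  have h2 := hp m _ hn
  have e1 : t ^ n * (t ^ m * u * (t ^ m)⁻¹) * (t ^ n)⁻¹ = t ^ (m + n) * u * (t ^ (m + n))⁻¹ := by
    rw [Nat.add_comm, pow_add]; group
  have e2 : t ^ m * (t ^ n * v * (t ^ n)⁻¹) * (t ^ m)⁻¹ = t ^ (m + n) * v * (t ^ (m + n))⁻¹ := by
    rw [pow_add]; group
  rw [e1] at h1
  rw [e2] at h2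
  have h3 := H.mul_mem h1 h2
  have e3 : t ^ (m + n) * u * (t ^ (m + n))⁻¹ * (t ^ (m + n) * v * (t ^ (m + n))⁻¹) =
      t ^ (m + n) * (u * v) * (t ^ (m + n))⁻¹ := by group
  rwa [e3] at h3

theorem InN.inv {t : G} {H : Subgroup G} {u : G} (hu : InN t H u) : InN t H u⁻¹ := by
  obtain ⟨m, hm⟩ := hu
  refine ⟨m, ?_⟩
  have := H.inv_mem hm
  have e : (t ^ m * u * (t ^ m)⁻¹)⁻¹ = t ^ m * u⁻¹ * (t ^ m)⁻¹ := by group
  rwa [e] at this

theorem InN.conj {t : G} {H : Subgroup G} (hc : ∀ h ∈ H, t * h * t⁻¹ ∈ H) {u : G}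
    (hu : InN t H u) (k : ℤ) : InN t H (t ^ k * u * (t ^ k)⁻¹) := by
  have hp : ∀ (n : ℕ) (h : G), h ∈ H → t ^ n * h * (t ^ n)⁻¹ ∈ H := by
    intro n h hh
    induction n with
    | zero => simpa using hh
    | succ n ih =>
      have := hc _ ih
      have e : t ^ (n + 1) * h * (t ^ (n + 1))⁻¹ = t * (t ^ n * h * (t ^ n)⁻¹) * t⁻¹ := by
        rw [pow_succ']; group
      rwa [e]
  obtain ⟨m, hm⟩ := hu
  obtain ⟨n, hn⟩ : ∃ n : ℕ, (n : ℤ) = (k.natAbs : ℤ) + k := ⟨((k.natAbs : ℤ) + k).toNat, by omega⟩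
  refine ⟨m + k.natAbs, ?_⟩
  have h1 := hp n _ hm
  have e1 : t ^ n * (t ^ m * u * (t ^ m)⁻¹) * (t ^ n)⁻¹ =
      t ^ (m + k.natAbs) * (t ^ k * u * (t ^ k)⁻¹) * (t ^ (m + k.natAbs))⁻¹ := by
    have e2 : t ^ n * t ^ m = t ^ (m + k.natAbs) * t ^ k := by
      rw [← zpow_natCast t n, ← zpow_natCast t m, ← zpow_natCast t (m + k.natAbs), ← zpow_add, ← zpow_add]
      congr 1
      push_cast at hn ⊢
      linarith
    calc t ^ n * (t ^ m * u * (t ^ m)⁻¹) * (t ^ n)⁻¹ = (t ^ n * t ^ m) * u * (t ^ n * t ^ m)⁻¹ := by group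
      _ = (t ^ (m + k.natAbs) * t ^ k) * u * (t ^ (m + k.natAbs) * t ^ k)⁻¹ := by rw [e2]
      _ = _ := by group
  rwa [e1] at h1

/-- elements of `N` which displace `t^{-j}` by at most `R` for all `j ≥ k`. -/
def W (L : G → ℝ) (t : G) (H : Subgroup G) (R : ℝ) (k : ℤ) : Set G :=
  {u | InN t H u ∧ ∀ j : ℤ, k ≤ j → L (t ^ j * u * (t ^ j)⁻¹) ≤ R}

theorem W_mono {L : G → ℝ} {t : G} {H : Subgroup G} {R : ℝ} {k k' : ℤ} (h : k ≤ k') :
    W L t H R k ⊆ W L t H R k' := fun _ hu => ⟨hu.1, fun j hj => hu.2 j (h.trans hj)⟩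

theorem W_inv {L : G → ℝ} (hL : IsLen L) {t : G} {H : Subgroup G} {R : ℝ} {k : ℤ} {u : G}
    (hu : u ∈ W L t H R k) : u⁻¹ ∈ W L t H R k := by
  refine ⟨hu.1.inv, fun j hj => ?_⟩
  have e : t ^ j * u⁻¹ * (t ^ j)⁻¹ = (t ^ j * u * (t ^ j)⁻¹)⁻¹ := by group
  rw [e, hL.inv]
  exact hu.2 j hj

theorem W_conj {L : G → ℝ} {t : G} {H : Subgroup G} {B : ℝ} (S : Setup L t H B) {R : ℝ} {k : ℤ} {u : G}
    (hu : u ∈ W L t H R k) (i : ℤ) : t ^ i * u * (t ^ i)⁻¹ ∈ W L t H R (k - i) := by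
  refine ⟨hu.1.conj S.conj i, fun j hj => ?_⟩
  have e : t ^ j * (t ^ i * u * (t ^ i)⁻¹) * (t ^ j)⁻¹ = t ^ (j + i) * u * (t ^ (j + i))⁻¹ := by
    rw [zpow_add]; group
  rw [e]
  exact hu.2 _ (by omega)

theorem W_of_conj_mem {L : G → ℝ} {t : G} {H : Subgroup G} {B : ℝ} (S : Setup L t H B) {R : ℝ}
    (hR : B ≤ R) {u : G} (i : ℤ) (hu : t ^ i * u * (t ^ i)⁻¹ ∈ H) : u ∈ W L t H R i := by
  have h0 : t ^ i * u * (t ^ i)⁻¹ ∈ W L t H R 0 := by
    refine ⟨⟨0, by simpa using hu⟩, fun j hj => ?_⟩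
    obtain ⟨n, rfl⟩ := Int.eq_ofNat_of_zero_le hj
    have := S.bdd _ (S.conj_pow n _ hu)
    rw [zpow_natCast]
    exact this.trans hR
  have h1 := W_conj S h0 (-i)
  have e : t ^ (-i) * (t ^ i * u * (t ^ i)⁻¹) * (t ^ (-i))⁻¹ = u := by group
  rw [e] at h1
  simpa using h1

/-- all the properties of the family `W` used later on -/
theorem W_package {L : G → ℝ} {t : G} {H : Subgroup G} {B : ℝ} (S : Setup L t H B) {δ : ℝ}
    (h4 : Four L δ) (c C C1 : ℝ) (hc : 0 < c) (hlow : ∀ n : ℕ, c * n - C ≤ L (t ^ n)) (hC1 : 0 ≤ C1)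
    (hadd : ∀ i j : ℕ, L (t ^ i) + L (t ^ j) - C1 ≤ L (t ^ (i + j))) :
    ∃ R : ℝ, B ≤ R ∧ (∃ k0 : ℕ, ∀ (k : ℤ) (u v : G), u ∈ W L t H R k → v ∈ W L t H R k →
        u * v ∈ W L t H R (k + k0)) ∧
      (∀ R' : ℝ, ∃ k : ℕ, ∀ u, InN t H u → L u ≤ R' → u ∈ W L t H R k) := by
  have hL := S.len
  have hδ := four_nonneg hL h4
  have key : ∀ R' : ℝ, ∃ k : ℕ, ∀ u, InN t H u → L u ≤ R' → u ∈ W L t H (C1 + B + 4 * δ) k := by
    intro R'
    obtain ⟨k, hk⟩ := exists_nat_gt ((R' + C1 + B + 2 * C) / c)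
    rw [div_lt_iff₀ hc] at hk
    have hk0 : (0 : ℝ) ≤ k := Nat.cast_nonneg k
    refine ⟨k, fun u hu hu2 => ⟨hu, fun j hj => ?_⟩⟩
    obtain ⟨n, rfl⟩ := Int.eq_ofNat_of_zero_le (show (0 : ℤ) ≤ j by omega)
    have hn : (k : ℝ) ≤ n := by exact_mod_cast hj
    rw [zpow_natCast]
    refine contract S h4 C1 hadd u hu n ?_
    have h1 := hlow n
    have h2 : c * k ≤ c * n := mul_le_mul_of_nonneg_left hn hc.le
    nlinarith
  refine ⟨C1 + B + 4 * δ, by linarith, ?_, key⟩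
  obtain ⟨k0, hk0⟩ := key (2 * (C1 + B + 4 * δ))
  refine ⟨k0, fun k u v hu hv => ?_⟩
  have h1 : L (t ^ k * (u * v) * (t ^ k)⁻¹) ≤ 2 * (C1 + B + 4 * δ) := by
    have e : t ^ k * (u * v) * (t ^ k)⁻¹ = (t ^ k * u * (t ^ k)⁻¹) * (t ^ k * v * (t ^ k)⁻¹) := by group
    rw [e]
    have a1 := hL.mul (t ^ k * u * (t ^ k)⁻¹) (t ^ k * v * (t ^ k)⁻¹)
    have a2 := hu.2 k le_rfl
    have a3 := hv.2 k le_rfl
    linarith
  have h2 := hk0 _ ((hu.1.mul S.conj hv.1).conj S.conj k) h1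
  have h3 := W_conj S h2 (-k)
  have e : t ^ (-k) * (t ^ k * (u * v) * (t ^ k)⁻¹) * (t ^ (-k))⁻¹ = u * v := by group
  rw [e] at h3
  have e2 : (k0 : ℤ) - -k = k + k0 := by ring
  rwa [e2] at h3

end Pool.Agent.H191R3.QP
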