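import Mathlib
import Pool.Agent.H191R3.QPGeom
import Pool.Agent.H191R3.QPComb

set_option autoImplicit false
open Pointwise

namespace Pool.Agent.H191R3.QP

/-! ### The group -/

/-- permutations of `ℤ` which are a translation near `-∞`. -/
def GG : Subgroup (Equiv.Perm ℤ) where
  carrier := {σ | ∃ k M : ℤ, ∀ i < M, σ i = i + k}
  one_mem' := ⟨0, 0, fun i _ => by simp⟩
  mul_mem' := by
    rintro σ τ ⟨k, M, h⟩ ⟨k', M', h'⟩
    refine ⟨k + k', min M' (M - k'), fun i hi => ?_⟩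
    rw [Equiv.Perm.mul_apply, h' i (by omega), h _ (by omega)]
    ring
  inv_mem' := by
    rintro σ ⟨k, M, h⟩
    refine ⟨-k, M + k, fun i hi => ?_⟩
    rw [Equiv.Perm.inv_eq_iff_eq, h _ (by omega)]
    ring

theorem sh_mem (i : ℤ) : sh i ∈ GG := ⟨i, 0, fun _ _ => rfl⟩

theorem fix_mem (σ : Equiv.Perm ℤ) (M : ℤ) (h : ∀ i < M, σ i = i) : σ ∈ GG :=
  ⟨0, M, fun i hi => by rw [h i hi]; ring⟩

/-- the shift -/
def tt : GG := ⟨sh 1, sh_mem 1⟩

theorem sh_add (i j : ℤ) : sh (i + j) = sh i * sh j := by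
  ext x
  simp only [Equiv.Perm.mul_apply, sh_apply]
  ring

theorem sh_zero : sh 0 = 1 := by
  ext x
  simp [sh_apply]

theorem sh_neg (i : ℤ) : sh (-i) = (sh i)⁻¹ := by
  ext x
  rw [sh_inv_apply, sh_apply]
  ring

theorem tt_zpow (n : ℤ) : ((tt ^ n : GG) : Equiv.Perm ℤ) = sh n := by
  induction n using Int.induction_on with
  | zero => simp [sh_zero]
  | succ i ih =>
    rw [zpow_add_one, Subgroup.coe_mul, ih, sh_add]
    rfl
  | pred i ih =>
    rw [zpow_sub_one, Subgroup.coe_mul, ih, sub_eq_add_neg, sh_add, sh_neg 1]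
    rfl

theorem tt_pow (n : ℕ) : ((tt ^ n : GG) : Equiv.Perm ℤ) = sh n := by
  rw [← zpow_natCast]; exact tt_zpow n

/-- the permutations supported on `ℕ`. -/
def HH : Subgroup GG where
  carrier := {g | ∀ i < 0, (g : Equiv.Perm ℤ) i = i}
  one_mem' := fun _ _ => rfl
  mul_mem' := by
    intro σ τ h h' i hi
    rw [Subgroup.coe_mul, Equiv.Perm.mul_apply, h' i hi, h i hi]
  inv_mem' := by
    intro σ h i hi
    rw [Subgroup.coe_inv, Equiv.Perm.inv_eq_iff_eq, h i hi]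

theorem mem_HH (g : GG) : g ∈ HH ↔ ∀ i < 0, (g : Equiv.Perm ℤ) i = i := Iff.rfl

theorem conj_apply (g : GG) (n : ℤ) (i : ℤ) :
    ((tt ^ n * g * (tt ^ n)⁻¹ : GG) : Equiv.Perm ℤ) i = (g : Equiv.Perm ℤ) (i - n) + n := by
  rw [Subgroup.coe_mul, Subgroup.coe_mul, Subgroup.coe_inv, tt_zpow]
  simp only [Equiv.Perm.mul_apply]
  rw [sh_inv_apply, sh_apply]

theorem conj_apply_nat (g : GG) (n : ℕ) (i : ℤ) :
    ((tt ^ n * g * (tt ^ n)⁻¹ : GG) : Equiv.Perm ℤ) i = (g : Equiv.Perm ℤ) (i - n) + n := by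
  rw [← zpow_natCast]; exact conj_apply g n i

theorem HH_conj : ∀ h ∈ HH, tt * h * tt⁻¹ ∈ HH := by
  intro h hh i hi
  have := conj_apply h 1 i
  rw [zpow_one] at this
  rw [this, hh (i - 1) (by omega)]
  ring

/-- `u ∈ N` iff it fixes a left half-line. -/
theorem inN_iff (u : GG) : InN tt HH u ↔ ∃ M : ℤ, ∀ i < M, (u : Equiv.Perm ℤ) i = i := by
  constructor
  · rintro ⟨m, hm⟩
    refine ⟨-m, fun i hi => ?_⟩
    have h1 := hm (i + m) (by omega)
    rw [conj_apply_nat] at h1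
    have e : i + (m : ℤ) - m = i := by ring
    rw [e] at h1
    omega
  · rintro ⟨M, hM⟩
    refine ⟨(-M).toNat, fun i hi => ?_⟩
    rw [conj_apply_nat, hM _ (by omega)]
    ring

theorem conj_mem_HH (u : GG) (m : ℤ) (h : ∀ i < -m, (u : Equiv.Perm ℤ) i = i) :
    tt ^ m * u * (tt ^ m)⁻¹ ∈ HH := by
  intro i hi
  rw [conj_apply, h _ (by omega)]
  ring

theorem decomp_nonneg (g : GG) (κ : ℕ) (M : ℤ) (h : ∀ i < M, (g : Equiv.Perm ℤ) i = i + κ) :
    ∃ m : ℕ, ∃ h ∈ HH, g = (tt ^ m)⁻¹ * h * tt ^ m * tt ^ κ := by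
  refine ⟨(-M).toNat, tt ^ (-M).toNat * (g * (tt ^ κ)⁻¹) * (tt ^ (-M).toNat)⁻¹, ?_, by group⟩
  intro i hi
  rw [conj_apply_nat, Subgroup.coe_mul, Subgroup.coe_inv, tt_pow, Equiv.Perm.mul_apply, sh_inv_apply,
    h _ (by omega)]
  ring

theorem decomp (g : GG) : ∃ m k : ℕ, ∃ h ∈ HH,
    g = (tt ^ m)⁻¹ * h * tt ^ m * tt ^ k ∨ g⁻¹ = (tt ^ m)⁻¹ * h * tt ^ m * tt ^ k := by
  obtain ⟨κ, M, h⟩ := g.2
  rcases le_total 0 κ with hκ | hκ
  · obtain ⟨n, rfl⟩ := Int.eq_ofNat_of_zero_le hκ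
    obtain ⟨m, h', hh', e⟩ := decomp_nonneg g n M h
    exact ⟨m, n, h', hh', Or.inl e⟩
  · obtain ⟨n, hn⟩ := Int.eq_ofNat_of_zero_le (show 0 ≤ -κ by omega)
    obtain ⟨m, h', hh', e⟩ := decomp_nonneg g⁻¹ n (M + κ) (by
      intro i hi
      rw [Subgroup.coe_inv, Equiv.Perm.inv_eq_iff_eq, h _ (by omega)]
      omega)
    exact ⟨m, n, h', hh', Or.inr e⟩

/-! ### Word length -/

/-- word length -/
noncomputable def wl {G : Type*} [Group G] (S : Set G) (g : G) : ℕ := sInf {n : ℕ | g ∈ (S ∪ S⁻¹) ^ n}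

theorem sym_inv {G : Type*} [Group G] (S : Set G) : (S ∪ S⁻¹)⁻¹ = S ∪ S⁻¹ := by
  rw [Set.union_inv, inv_inv, Set.union_comm]

theorem inv_mem_pow {G : Type*} [Group G] (S : Set G) (n : ℕ) (g : G) (h : g ∈ (S ∪ S⁻¹) ^ n) :
    g⁻¹ ∈ (S ∪ S⁻¹) ^ n := by
  rw [← Set.mem_inv, ← inv_pow, sym_inv]
  exact h

theorem exists_pow {G : Type*} [Group G] (S : Set G) (hS : Subgroup.closure S = ⊤) (g : G) :
    ∃ n : ℕ, g ∈ (S ∪ S⁻¹) ^ n := by
  have hg : g ∈ Subgroup.closure S := by rw [hS]; trivial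
  induction hg using Subgroup.closure_induction with
  | mem x hx => exact ⟨1, by rw [pow_one]; exact Or.inl hx⟩
  | one => exact ⟨0, by simp⟩
  | mul x y _ _ hx hy =>
    obtain ⟨n, hn⟩ := hx
    obtain ⟨m, hm⟩ := hy
    exact ⟨n + m, by rw [pow_add]; exact Set.mul_mem_mul hn hm⟩
  | inv x _ hx =>
    obtain ⟨n, hn⟩ := hx
    exact ⟨n, inv_mem_pow S n x hn⟩

theorem wl_mem {G : Type*} [Group G] (S : Set G) (hS : Subgroup.closure S = ⊤) (g : G) :
    g ∈ (S ∪ S⁻¹) ^ (wl S g) := Nat.sInf_mem (exists_pow S hS g)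

theorem wl_le {G : Type*} [Group G] (S : Set G) (g : G) (n : ℕ) (h : g ∈ (S ∪ S⁻¹) ^ n) :
    wl S g ≤ n := Nat.sInf_le h

theorem wl_isLen {G : Type*} [Group G] (S : Set G) (hS : Subgroup.closure S = ⊤) :
    IsLen (fun g => (wl S g : ℝ)) where
  one := by
    have : wl S (1 : G) ≤ 0 := wl_le S 1 0 (by simp)
    have h0 : wl S (1 : G) = 0 := by omega
    simp [h0]
  nonneg g := Nat.cast_nonneg _
  inv g := by
    have h1 : ∀ x : G, wl S x⁻¹ ≤ wl S x := fun x => wl_le S _ _ (inv_mem_pow S _ _ (wl_mem S hS x))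
    have h2 := h1 g
    have h3 := h1 g⁻¹
    rw [inv_inv] at h3
    have : wl S g⁻¹ = wl S g := le_antisymm h2 h3
    simp [this]
  mul g h := by
    have : wl S (g * h) ≤ wl S g + wl S h := by
      apply wl_le
      rw [pow_add]
      exact Set.mul_mem_mul (wl_mem S hS g) (wl_mem S hS h)
    exact_mod_cast this

/-! ### Strong boundedness of `HH` -/

theorem HH_bounded (L : GG → ℝ) (hL : IsLen L) : ∃ B : ℝ, ∀ h ∈ HH, L h ≤ B := by
  classical
  haveI : Infinite {z : ℤ // 0 ≤ z} := by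
    have : (Set.Ici (0 : ℤ)).Infinite := Set.Ici_infinite _
    exact this.to_subtype
  haveI : Denumerable {z : ℤ // 0 ≤ z} := (nonempty_denumerable _).some
  let e : Gr ≃ {z : ℤ // 0 ≤ z} := Denumerable.equiv₂ _ _
  let φ : Equiv.Perm Gr →* Equiv.Perm ℤ := Equiv.Perm.extendDomainHom e
  have hφ : ∀ f i, i < 0 → φ f i = i := by
    intro f i hi
    show (f.extendDomain e) i = i
    exact Equiv.Perm.extendDomain_apply_not_subtype _ _ (by omega)
  let ψ : Equiv.Perm Gr →* GG := φ.codRestrict GG (fun f => fix_mem _ 0 (hφ f))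
  obtain ⟨B, hB⟩ := perm_bounded _ (hL.comp ψ)
  refine ⟨B, fun h hh => ?_⟩
  have hh' : ∀ i < 0, (h : Equiv.Perm ℤ) i = i := hh
  have hp : ∀ x : ℤ, 0 ≤ (h : Equiv.Perm ℤ) x ↔ 0 ≤ x := by
    intro x
    constructor
    · intro h1
      by_contra hc
      rw [hh' x (by omega)] at h1
      exact hc h1
    · intro h1
      by_contra hc
      have h2 := hh' _ (not_le.mp hc)
      have h3 := (h : Equiv.Perm ℤ).injective h2
      rw [h3] at hc
      exact hc h1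
  let f : Equiv.Perm Gr := e.symm.permCongr ((h : Equiv.Perm ℤ).subtypePerm hp)
  have hf : ψ f = h := by
    apply Subtype.ext
    show f.extendDomain e = (h : Equiv.Perm ℤ)
    ext i
    by_cases hi : 0 ≤ i
    · rw [Equiv.Perm.extendDomain_apply_subtype _ _ hi]
      simp [f, Equiv.permCongr_apply]
    · rw [Equiv.Perm.extendDomain_apply_not_subtype _ _ hi, hh' i (by omega)]
  have := hB f
  rwa [hf] at this

end Pool.Agent.H191R3.QP
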