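import Mathlib
import Pool.Agent.H191R3.QPGroup

set_option autoImplicit false
open Pointwise

namespace Pool.Agent.H191R3.QP

/-! ### Ends of loxodromic elements -/

/-- the positive ends of `a` and `b` agree -/
def SE {G : Type*} [Group G] (L : G → ℝ) (a b : G) : Prop :=
  ∀ K : ℝ, ∃ N : ℕ, ∀ n m : ℕ, N ≤ n → N ≤ m → K ≤ (L (a ^ n) + L (b ^ m) - L ((a ^ n)⁻¹ * b ^ m)) / 2

/-- loxodromic -/
def Lox {G : Type*} [Group G] (L : G → ℝ) (g : G) : Prop := ∃ c : ℝ, 0 < c ∧ ∀ n : ℕ, c * n ≤ L (g ^ n)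

theorem Lox.inv {G : Type*} [Group G] {L : G → ℝ} (hL : IsLen L) {g : G} (h : Lox L g) : Lox L g⁻¹ := by
  obtain ⟨c, hc, h⟩ := h
  refine ⟨c, hc, fun n => ?_⟩
  rw [inv_pow, hL.inv]
  exact h n

section
variable {G : Type*} [Group G] {L : G → ℝ} {t : G} {H : Subgroup G} {B : ℝ}

theorem se_neg (S : Setup L t H B) (c C C1 : ℝ) (hc : 0 < c)
    (hlow : ∀ n : ℕ, c * n - C ≤ L (t ^ n))
    (hadd : ∀ i j : ℕ, L (t ^ i) + L (t ^ j) - C1 ≤ L (t ^ (i + j)))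
    (m k m' k' : ℕ) (h h' : G) (hh : h ∈ H) (hh' : h' ∈ H) (hk : 1 ≤ k) (hk' : 1 ≤ k') (a b : G)
    (ha : a = (t ^ m)⁻¹ * h * t ^ m * t ^ k) (hb : b = (t ^ m')⁻¹ * h' * t ^ m' * t ^ k') :
    SE L a⁻¹ b⁻¹ := by
  have hL := S.len
  have key : ∀ (m k : ℕ) (h a : G), h ∈ H → a = (t ^ m)⁻¹ * h * t ^ m * t ^ k →
      ∀ n : ℕ, L ((t⁻¹ ^ (k * n))⁻¹ * (a⁻¹) ^ n) ≤ 2 * L (t ^ m) + B := by
    intro m k h a hh ha n
    obtain ⟨h1, hh1, e⟩ := pow_form S m k h hh n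
    rw [← ha] at e
    have e2 : (t⁻¹ ^ (k * n))⁻¹ * (a⁻¹) ^ n = (t ^ m)⁻¹ * h1⁻¹ * t ^ m := by
      rw [inv_pow a n, e, inv_pow t (k * n)]; group
    rw [e2]
    have a1 := hL.mul ((t ^ m)⁻¹ * h1⁻¹) (t ^ m)
    have a2 := hL.mul (t ^ m)⁻¹ h1⁻¹
    rw [hL.inv, hL.inv] at a2
    have := S.bdd h1 hh1
    linarith
  intro K
  exact same_end hL t⁻¹ c C C1 hc (fun n => by rw [inv_pow, hL.inv]; exact hlow n)
    (fun i j => by rw [inv_pow, inv_pow, inv_pow, hL.inv, hL.inv, hL.inv]; exact hadd i j)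
    k k' hk hk' _ _ _ _ (key m k h a hh ha) (key m' k' h' b hh' hb) K

theorem se_pos (S : Setup L t H B) (c C C1 R : ℝ) (hc : 0 < c)
    (hlow : ∀ n : ℕ, c * n - C ≤ L (t ^ n))
    (hadd : ∀ i j : ℕ, L (t ^ i) + L (t ^ j) - C1 ≤ L (t ^ (i + j)))
    (hN : ∀ u, InN t H u → L u ≤ R)
    (m k m' k' : ℕ) (h h' : G) (hh : h ∈ H) (hh' : h' ∈ H) (hk : 1 ≤ k) (hk' : 1 ≤ k') (a b : G)
    (ha : a = (t ^ m)⁻¹ * h * t ^ m * t ^ k) (hb : b = (t ^ m')⁻¹ * h' * t ^ m' * t ^ k') :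
    SE L a b := by
  have hL := S.len
  have key : ∀ (m k : ℕ) (h a : G), h ∈ H → a = (t ^ m)⁻¹ * h * t ^ m * t ^ k →
      ∀ n : ℕ, L ((t ^ (k * n))⁻¹ * a ^ n) ≤ R := by
    intro m k h a hh ha n
    obtain ⟨h1, hh1, e⟩ := pow_form S m k h hh n
    rw [← ha] at e
    rw [e]
    apply hN
    have h2 : InN t H ((t ^ m)⁻¹ * h1 * t ^ m) := ⟨m, by
      have : t ^ m * ((t ^ m)⁻¹ * h1 * t ^ m) * (t ^ m)⁻¹ = h1 := by group
      rw [this]; exact hh1⟩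
    have h3 := h2.conj S.conj (-((k * n : ℕ) : ℤ))
    have e3 : (t ^ (k * n))⁻¹ * ((t ^ m)⁻¹ * h1 * t ^ m * t ^ (k * n)) =
        t ^ (-((k * n : ℕ) : ℤ)) * ((t ^ m)⁻¹ * h1 * t ^ m) * (t ^ (-((k * n : ℕ) : ℤ)))⁻¹ := by
      rw [zpow_neg, zpow_natCast]; group
    rwa [e3]
  intro K
  exact same_end hL t c C C1 hc hlow hadd k k' hk hk' _ _ _ _ (key m k h a hh ha)
    (key m' k' h' b hh' hb) K

theorem share (S : Setup L t H B) (c C C1 : ℝ) (hc : 0 < c)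
    (hlow : ∀ n : ℕ, c * n - C ≤ L (t ^ n))
    (hadd : ∀ i j : ℕ, L (t ^ i) + L (t ^ j) - C1 ≤ L (t ^ (i + j)))
    (hdec : ∀ g : G, ∃ m k : ℕ, ∃ h ∈ H,
      g = (t ^ m)⁻¹ * h * t ^ m * t ^ k ∨ g⁻¹ = (t ^ m)⁻¹ * h * t ^ m * t ^ k)
    (g h : G) (hg : Lox L g) (hh : Lox L h) : SE L g h ∨ SE L g h⁻¹ ∨ SE L g⁻¹ h ∨ SE L g⁻¹ h⁻¹ := by
  have hL := S.len
  obtain ⟨m, k, x, hx, hgx⟩ := hdec g
  obtain ⟨m', k', x', hx', hhx⟩ := hdec h
  rcases hgx with e1 | e1 <;> rcases hhx with e2 | e2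
  · obtain ⟨c1, hc1, h1⟩ := hg
    obtain ⟨c2, hc2, h2⟩ := hh
    have k1 := (lox_lower S g m k x hx e1 c1 hc1 h1).1
    have k2 := (lox_lower S h m' k' x' hx' e2 c2 hc2 h2).1
    exact Or.inr (Or.inr (Or.inr (se_neg S c C C1 hc hlow hadd m k m' k' x x' hx hx' k1 k2 g h e1 e2)))
  · obtain ⟨c1, hc1, h1⟩ := hg
    obtain ⟨c2, hc2, h2⟩ := hh.inv hL
    have k1 := (lox_lower S g m k x hx e1 c1 hc1 h1).1
    have k2 := (lox_lower S h⁻¹ m' k' x' hx' e2 c2 hc2 h2).1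
    have := se_neg S c C C1 hc hlow hadd m k m' k' x x' hx hx' k1 k2 g h⁻¹ e1 e2
    rw [inv_inv] at this
    exact Or.inr (Or.inr (Or.inl this))
  · obtain ⟨c1, hc1, h1⟩ := hg.inv hL
    obtain ⟨c2, hc2, h2⟩ := hh
    have k1 := (lox_lower S g⁻¹ m k x hx e1 c1 hc1 h1).1
    have k2 := (lox_lower S h m' k' x' hx' e2 c2 hc2 h2).1
    have := se_neg S c C C1 hc hlow hadd m k m' k' x x' hx hx' k1 k2 g⁻¹ h e1 e2
    rw [inv_inv] at this
    exact Or.inr (Or.inl this)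
  · obtain ⟨c1, hc1, h1⟩ := hg.inv hL
    obtain ⟨c2, hc2, h2⟩ := hh.inv hL
    have k1 := (lox_lower S g⁻¹ m k x hx e1 c1 hc1 h1).1
    have k2 := (lox_lower S h⁻¹ m' k' x' hx' e2 c2 hc2 h2).1
    have := se_neg S c C C1 hc hlow hadd m k m' k' x x' hx hx' k1 k2 g⁻¹ h⁻¹ e1 e2
    rw [inv_inv, inv_inv] at this
    exact Or.inl this

theorem lineal (S : Setup L t H B) (c C C1 R : ℝ) (hc : 0 < c)
    (hlow : ∀ n : ℕ, c * n - C ≤ L (t ^ n))
    (hadd : ∀ i j : ℕ, L (t ^ i) + L (t ^ j) - C1 ≤ L (t ^ (i + j)))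
    (hdec : ∀ g : G, ∃ m k : ℕ, ∃ h ∈ H,
      g = (t ^ m)⁻¹ * h * t ^ m * t ^ k ∨ g⁻¹ = (t ^ m)⁻¹ * h * t ^ m * t ^ k)
    (hN : ∀ u, InN t H u → L u ≤ R)
    (g h : G) (hg : Lox L g) (hh : Lox L h) :
    (SE L g h ∧ SE L g⁻¹ h⁻¹) ∨ (SE L g h⁻¹ ∧ SE L g⁻¹ h) := by
  have hL := S.len
  obtain ⟨m, k, x, hx, hgx⟩ := hdec g
  obtain ⟨m', k', x', hx', hhx⟩ := hdec h
  rcases hgx with e1 | e1 <;> rcases hhx with e2 | e2
  · obtain ⟨c1, hc1, h1⟩ := hg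
    obtain ⟨c2, hc2, h2⟩ := hh
    have k1 := (lox_lower S g m k x hx e1 c1 hc1 h1).1
    have k2 := (lox_lower S h m' k' x' hx' e2 c2 hc2 h2).1
    exact Or.inl ⟨se_pos S c C C1 R hc hlow hadd hN m k m' k' x x' hx hx' k1 k2 g h e1 e2,
      se_neg S c C C1 hc hlow hadd m k m' k' x x' hx hx' k1 k2 g h e1 e2⟩
  · obtain ⟨c1, hc1, h1⟩ := hg
    obtain ⟨c2, hc2, h2⟩ := hh.inv hL
    have k1 := (lox_lower S g m k x hx e1 c1 hc1 h1).1
    have k2 := (lox_lower S h⁻¹ m' k' x' hx' e2 c2 hc2 h2).1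
    have := se_neg S c C C1 hc hlow hadd m k m' k' x x' hx hx' k1 k2 g h⁻¹ e1 e2
    rw [inv_inv] at this
    exact Or.inr ⟨se_pos S c C C1 R hc hlow hadd hN m k m' k' x x' hx hx' k1 k2 g h⁻¹ e1 e2, this⟩
  · obtain ⟨c1, hc1, h1⟩ := hg.inv hL
    obtain ⟨c2, hc2, h2⟩ := hh
    have k1 := (lox_lower S g⁻¹ m k x hx e1 c1 hc1 h1).1
    have k2 := (lox_lower S h m' k' x' hx' e2 c2 hc2 h2).1
    have := se_neg S c C C1 hc hlow hadd m k m' k' x x' hx hx' k1 k2 g⁻¹ h e1 e2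
    rw [inv_inv] at this
    exact Or.inr ⟨this, se_pos S c C C1 R hc hlow hadd hN m k m' k' x x' hx hx' k1 k2 g⁻¹ h e1 e2⟩
  · obtain ⟨c1, hc1, h1⟩ := hg.inv hL
    obtain ⟨c2, hc2, h2⟩ := hh.inv hL
    have k1 := (lox_lower S g⁻¹ m k x hx e1 c1 hc1 h1).1
    have k2 := (lox_lower S h⁻¹ m' k' x' hx' e2 c2 hc2 h2).1
    have := se_neg S c C C1 hc hlow hadd m k m' k' x x' hx hx' k1 k2 g⁻¹ h⁻¹ e1 e2
    rw [inv_inv, inv_inv] at this
    exact Or.inl ⟨this, se_pos S c C C1 R hc hlow hadd hN m k m' k' x x' hx hx' k1 k2 g⁻¹ h⁻¹ e1 e2⟩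

theorem lox_exists_lower (S : Setup L t H B)
    (hdec : ∀ g : G, ∃ m k : ℕ, ∃ h ∈ H,
      g = (t ^ m)⁻¹ * h * t ^ m * t ^ k ∨ g⁻¹ = (t ^ m)⁻¹ * h * t ^ m * t ^ k)
    (g : G) (hg : Lox L g) : ∃ c C : ℝ, 0 < c ∧ ∀ n : ℕ, c * n - C ≤ L (t ^ n) := by
  obtain ⟨m, k, x, hx, hgx⟩ := hdec g
  rcases hgx with e1 | e1
  · obtain ⟨c1, hc1, h1⟩ := hg
    exact (lox_lower S g m k x hx e1 c1 hc1 h1).2
  · obtain ⟨c1, hc1, h1⟩ := hg.inv S.len
    exact (lox_lower S g⁻¹ m k x hx e1 c1 hc1 h1).2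

end

/-! ### The tree structure -/

/-- translation length near `-∞` -/
noncomputable def lev (g : GG) : ℤ := Classical.choose g.2

theorem lev_spec (g : GG) : ∃ M : ℤ, ∀ i < M, (g : Equiv.Perm ℤ) i = i + lev g :=
  Classical.choose_spec g.2

theorem lev_unique (g : GG) (k M : ℤ) (h : ∀ i < M, (g : Equiv.Perm ℤ) i = i + k) : lev g = k := by
  obtain ⟨M', h'⟩ := lev_spec g
  have h1 := h (min M M' - 1) (by omega)
  have h2 := h' (min M M' - 1) (by omega)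
  omega

theorem lev_mul (g h : GG) : lev (g * h) = lev g + lev h := by
  obtain ⟨M, hM⟩ := lev_spec g
  obtain ⟨M', hM'⟩ := lev_spec h
  refine lev_unique _ _ (min M' (M - lev h)) (fun i hi => ?_)
  rw [Subgroup.coe_mul, Equiv.Perm.mul_apply, hM' i (by omega), hM _ (by omega)]
  ring

theorem lev_one : lev (1 : GG) = 0 := lev_unique _ _ 0 (fun i _ => by simp)

theorem lev_inv (g : GG) : lev g⁻¹ = -lev g := by
  have := lev_mul g g⁻¹
  rw [mul_inv_cancel, lev_one] at this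
  omega

theorem lev_pow (g : GG) (n : ℕ) : lev (g ^ n) = n * lev g := by
  induction n with
  | zero => simp [lev_one]
  | succ n ih => rw [pow_succ, lev_mul, ih]; push_cast; ring

theorem lev_tt : lev tt = 1 := lev_unique _ _ 0 (fun _ _ => rfl)

theorem lev_HH (h : GG) (hh : h ∈ HH) : lev h = 0 :=
  lev_unique _ _ 0 (fun i hi => by rw [hh i hi]; ring)

/-- the ancestors of the vertices of `x` and `y` at level `c` agree. -/
def Anc (x y : GG) (c : ℤ) : Prop :=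
  c ≤ lev x ∧ c ≤ lev y ∧ ∀ i < c, (x : Equiv.Perm ℤ) (i - lev x) = (y : Equiv.Perm ℤ) (i - lev y)

theorem anc_exists (x y : GG) : ∃ c : ℤ, Anc x y c ∧ ∀ z, Anc x y z → z ≤ c := by
  obtain ⟨M, hM⟩ := lev_spec x
  obtain ⟨M', hM'⟩ := lev_spec y
  refine Int.exists_greatest_of_bdd ⟨lev x, fun z hz => hz.1⟩
    ⟨min (min (lev x) (lev y)) (min (M + lev x) (M' + lev y)), by omega, by omega, fun i hi => ?_⟩
  rw [hM _ (by omega), hM' _ (by omega)]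
  ring

/-- level of the confluence point -/
noncomputable def cf (x y : GG) : ℤ := Classical.choose (anc_exists x y)

theorem cf_spec (x y : GG) : Anc x y (cf x y) := (Classical.choose_spec (anc_exists x y)).1

theorem cf_max (x y : GG) (c : ℤ) (h : Anc x y c) : c ≤ cf x y :=
  (Classical.choose_spec (anc_exists x y)).2 c h

theorem cf_symm (x y : GG) : cf x y = cf y x := by
  apply le_antisymm
  · obtain ⟨h1, h2, h3⟩ := cf_spec x y
    exact cf_max y x _ ⟨h2, h1, fun i hi => (h3 i hi).symm⟩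
  · obtain ⟨h1, h2, h3⟩ := cf_spec y x
    exact cf_max x y _ ⟨h2, h1, fun i hi => (h3 i hi).symm⟩

theorem cf_ultra (x y z : GG) : min (cf x y) (cf y z) ≤ cf x z := by
  obtain ⟨h1, h2, h3⟩ := cf_spec x y
  obtain ⟨h4, h5, h6⟩ := cf_spec y z
  exact cf_max _ _ _ ⟨by omega, by omega, fun i hi => (h3 i (by omega)).trans (h6 i (by omega))⟩

theorem cf_mul_le (g x y : GG) : cf x y + lev g ≤ cf (g * x) (g * y) := by
  obtain ⟨h1, h2, h3⟩ := cf_spec x y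
  refine cf_max _ _ _ ⟨by rw [lev_mul]; omega, by rw [lev_mul]; omega, fun i hi => ?_⟩
  rw [lev_mul, lev_mul, Subgroup.coe_mul, Subgroup.coe_mul, Equiv.Perm.mul_apply, Equiv.Perm.mul_apply]
  have e1 : i - (lev g + lev x) = (i - lev g) - lev x := by ring
  have e2 : i - (lev g + lev y) = (i - lev g) - lev y := by ring
  rw [e1, e2, h3 _ (by omega)]

theorem cf_mul (g x y : GG) : cf (g * x) (g * y) = cf x y + lev g := by
  apply le_antisymm
  · have := cf_mul_le g⁻¹ (g * x) (g * y)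
    rw [inv_mul_cancel_left, inv_mul_cancel_left, lev_inv] at this
    omega
  · exact cf_mul_le g x y

/-- distance in the tree to the base vertex -/
noncomputable def DD (g : GG) : ℤ := lev g - 2 * cf 1 g

theorem DD_inv_mul (x y : GG) : DD (x⁻¹ * y) = lev x + lev y - 2 * cf x y := by
  have := cf_mul x⁻¹ x y
  rw [inv_mul_cancel] at this
  rw [DD, this, lev_mul, lev_inv]
  ring

theorem cf_le_left (x y : GG) : cf x y ≤ lev x := (cf_spec x y).1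
theorem cf_le_right (x y : GG) : cf x y ≤ lev y := (cf_spec x y).2.1

theorem DD_mul_le (x y : GG) : DD (x * y) ≤ DD x + DD y := by
  have h1 : DD y = lev x + lev (x * y) - 2 * cf x (x * y) := by
    have := DD_inv_mul x (x * y)
    rwa [inv_mul_cancel_left] at this
  have h2 := cf_ultra 1 x (x * y)
  have h3 := cf_le_right 1 x
  have h4 := cf_le_left x (x * y)
  rw [h1, DD, DD]
  omega

theorem abs_lev_le (g : GG) : |lev g| ≤ DD g := by
  have h1 := cf_le_left 1 g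
  have h2 := cf_le_right 1 g
  rw [lev_one] at h1
  rw [DD, abs_le]
  constructor <;> omega

/-- the distinguished generating set -/
def XX : Set GG := {g | g ∈ HH ∨ g = tt}

theorem DD_gen (s : GG) (hs : s ∈ XX ∪ XX⁻¹) : DD s ≤ 1 := by
  have hH : ∀ s ∈ HH, DD s ≤ 1 := by
    intro s hs
    have h0 := lev_HH s hs
    have : Anc 1 s 0 := ⟨by rw [lev_one], by rw [h0], fun i hi => by
      rw [lev_one, h0, sub_zero, hs i hi]; rfl⟩
    have := cf_max _ _ _ this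
    rw [DD, h0]
    omega
  rcases hs with (hs | hs) | hs
  · exact hH s hs
  · rw [hs]
    have : Anc 1 tt 0 := ⟨by rw [lev_one], by rw [lev_tt]; omega, fun i hi => by
      rw [lev_one, lev_tt]
      show i - 0 = i - 1 + 1
      ring⟩
    have := cf_max _ _ _ this
    rw [DD, lev_tt]
    omega
  · rw [Set.mem_inv] at hs
    rcases hs with hs | hs
    · exact hH s (by rw [← inv_inv s]; exact HH.inv_mem hs)
    · have hs' : s = tt⁻¹ := by rw [← hs, inv_inv]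
      have hl : lev s = -1 := by rw [hs', lev_inv, lev_tt]
      have : Anc 1 s (-1) := ⟨by rw [lev_one]; omega, by rw [hl], fun i hi => by
        rw [lev_one, hl, hs', Subgroup.coe_inv]
        show i - 0 = (sh 1)⁻¹ (i - -1)
        rw [sh_inv_apply]
        ring⟩
      have := cf_max _ _ _ this
      rw [DD, hl]
      omega

theorem DD_le_wl' (n : ℕ) : ∀ g : GG, g ∈ (XX ∪ XX⁻¹) ^ n → DD g ≤ n := by
  induction n with
  | zero =>
    intro g hg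
    rw [pow_zero, Set.mem_one] at hg
    subst hg
    have h1 : Anc 1 1 0 := ⟨by rw [lev_one], by rw [lev_one], fun _ _ => rfl⟩
    have := cf_max _ _ _ h1
    rw [DD, lev_one]
    push_cast
    omega
  | succ n ih =>
    intro g hg
    rw [pow_succ, Set.mem_mul] at hg
    obtain ⟨x, hx, y, hy, rfl⟩ := hg
    have h1 := ih x hx
    have h2 := DD_gen y hy
    have h3 := DD_mul_le x y
    push_cast
    omega

theorem closure_XX : Subgroup.closure XX = ⊤ := by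
  have htt : tt ∈ Subgroup.closure XX := Subgroup.subset_closure (Or.inr rfl)
  have hform : ∀ (m k : ℕ) (h : GG), h ∈ HH → (tt ^ m)⁻¹ * h * tt ^ m * tt ^ k ∈ Subgroup.closure XX := by
    intro m k h hh
    exact mul_mem (mul_mem (mul_mem (inv_mem (pow_mem htt m)) (Subgroup.subset_closure (Or.inl hh)))
      (pow_mem htt m)) (pow_mem htt k)
  rw [eq_top_iff]
  intro g _
  obtain ⟨m, k, h, hh, e | e⟩ := decomp g
  · rw [e]; exact hform m k h hh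
  · rw [← inv_inv g, e]; exact inv_mem (hform m k h hh)

theorem DD_le_wl (g : GG) : DD g ≤ wl XX g := DD_le_wl' _ g (wl_mem XX closure_XX g)

theorem wl_form (m k : ℕ) (h : GG) (hh : h ∈ HH) : wl XX ((tt ^ m)⁻¹ * h * tt ^ k) ≤ m + 1 + k := by
  apply wl_le
  rw [pow_add, pow_add, pow_one]
  have htt : tt ∈ XX ∪ XX⁻¹ := Or.inl (Or.inr rfl)
  refine Set.mul_mem_mul (Set.mul_mem_mul ?_ ?_) ?_
  · exact inv_mem_pow XX m _ (Set.pow_mem_pow htt)
  · exact Or.inl (Or.inl hh)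
  · exact Set.pow_mem_pow htt

theorem wl_le_DD (g : GG) : (wl XX g : ℤ) ≤ DD g + 1 := by
  have h1 := cf_le_left 1 g
  have h2 := cf_le_right 1 g
  obtain ⟨_, _, h3⟩ := cf_spec 1 g
  rw [lev_one] at h1 h3
  obtain ⟨m, hm⟩ : ∃ m : ℕ, (m : ℤ) = -cf 1 g := ⟨(-cf 1 g).toNat, by omega⟩
  obtain ⟨k, hk⟩ : ∃ k : ℕ, (k : ℤ) = lev g - cf 1 g := ⟨(lev g - cf 1 g).toNat, by omega⟩
  have hh : tt ^ m * g * (tt ^ k)⁻¹ ∈ HH := by
    intro i hi
    rw [Subgroup.coe_mul, Subgroup.coe_mul, Subgroup.coe_inv, tt_pow, tt_pow]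
    simp only [Equiv.Perm.mul_apply]
    rw [sh_inv_apply, sh_apply]
    have h4 := h3 (i + cf 1 g) (by omega)
    have e1 : i - (k : ℤ) = i + cf 1 g - lev g := by omega
    rw [e1, ← h4, hm]
    show i + cf 1 g - 0 + -cf 1 g = i
    ring
  have h5 := wl_form m k _ hh
  have e2 : (tt ^ m)⁻¹ * (tt ^ m * g * (tt ^ k)⁻¹) * tt ^ k = g := by group
  rw [e2] at h5
  rw [DD]
  omega

/-- Gromov product in the tree -/
theorem tree_gp (x y z : GG) :
    min (cf x y - cf 1 x - cf 1 y) (cf y z - cf 1 y - cf 1 z) ≤ cf x z - cf 1 x - cf 1 z := by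
  have a1 := cf_ultra x y z
  have a2 := cf_ultra x z y
  have a3 := cf_ultra y x z
  have a4 := cf_ultra 1 x y
  have a5 := cf_ultra 1 y x
  have a6 := cf_ultra x 1 y
  have a7 := cf_ultra 1 x z
  have a8 := cf_ultra 1 z x
  have a9 := cf_ultra x 1 z
  have b1 := cf_ultra 1 y z
  have b2 := cf_ultra 1 z y
  have b3 := cf_ultra y 1 z
  rw [cf_symm x 1] at *
  rw [cf_symm y 1] at *
  rw [cf_symm z y] at *
  rw [cf_symm y x] at *
  rw [cf_symm z x] at *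
  omega

end Pool.Agent.H191R3.QP
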