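import Mathlib
import Pool.Agent.H191R3.QPMain

set_option autoImplicit false
open Pointwise

namespace Pool.Agent.H191R3.QP

/-- word length as a real valued function -/
noncomputable def wr (S : Set GG) (g : GG) : ℝ := (wl S g : ℝ)

theorem wr_isLen (S : Set GG) (hS : Subgroup.closure S = ⊤) : IsLen (wr S) := wl_isLen S hS

/-- Gromov product -/
noncomputable def gpr (L : GG → ℝ) (a b : GG) : ℝ := (L a + L b - L (a⁻¹ * b)) / 2

/-- quasi-parabolic -/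
def QPs (L : GG → ℝ) : Prop :=
  (∃ δ : ℝ, ∀ x y z : GG, min (gpr L x y) (gpr L y z) - δ ≤ gpr L x z) ∧
  (∃ g h : GG, Lox L g ∧ Lox L h ∧
    ¬ ((SE L g h ∧ SE L g⁻¹ h⁻¹) ∨ (SE L g h⁻¹ ∧ SE L g⁻¹ h))) ∧
  (∀ g h : GG, Lox L g → Lox L h → (SE L g h ∨ SE L g h⁻¹ ∨ SE L g⁻¹ h ∨ SE L g⁻¹ h⁻¹))

theorem wr_lower (g : GG) : (DD g : ℝ) ≤ wr XX g := by
  have := DD_le_wl g
  unfold wr
  exact_mod_cast this

theorem wr_upper (g : GG) : wr XX g ≤ DD g + 1 := by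
  have := wl_le_DD g
  unfold wr
  exact_mod_cast this

theorem lev_le_wr (g : GG) : (lev g : ℝ) ≤ wr XX g := by
  have h1 := abs_lev_le g
  have h2 := le_abs_self (lev g)
  have h3 : (lev g : ℝ) ≤ DD g := by exact_mod_cast h2.trans h1
  exact h3.trans (wr_lower g)

theorem lox_of_lev (g : GG) (hg : 1 ≤ lev g) : Lox (wr XX) g := by
  refine ⟨1, one_pos, fun n => ?_⟩
  have h1 := lev_le_wr (g ^ n)
  rw [lev_pow] at h1
  have h2 : (n : ℝ) ≤ ((n * lev g : ℤ) : ℝ) := by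
    have : (n : ℤ) ≤ n * lev g := by nlinarith
    exact_mod_cast this
  linarith

theorem gpr_upper (x y : GG) : gpr (wr XX) x y ≤ (cf x y - cf 1 x - cf 1 y : ℤ) + 1 := by
  have h1 := wr_upper x
  have h2 := wr_upper y
  have h3 := wr_lower (x⁻¹ * y)
  rw [DD_inv_mul] at h3
  rw [DD] at h1 h2
  unfold gpr
  push_cast at *
  linarith

theorem gpr_lower (x y : GG) : (cf x y - cf 1 x - cf 1 y : ℤ) - 1 ≤ gpr (wr XX) x y := by
  have h1 := wr_lower x
  have h2 := wr_lower y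
  have h3 := wr_upper (x⁻¹ * y)
  rw [DD_inv_mul] at h3
  rw [DD] at h1 h2
  unfold gpr
  push_cast at *
  linarith

theorem hyp_XX (x y z : GG) :
    min (gpr (wr XX) x y) (gpr (wr XX) y z) - 2 ≤ gpr (wr XX) x z := by
  have h1 := gpr_upper x y
  have h2 := gpr_upper y z
  have h3 := gpr_lower x z
  have h4 := tree_gp x y z
  rcases le_total (cf x y - cf 1 x - cf 1 y) (cf y z - cf 1 y - cf 1 z) with h | h
  · rw [min_eq_left h] at h4
    have h5 : ((cf x y - cf 1 x - cf 1 y : ℤ) : ℝ) ≤ (cf x z - cf 1 x - cf 1 z : ℤ) := by exact_mod_cast h4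
    have h6 := min_le_left (gpr (wr XX) x y) (gpr (wr XX) y z)
    linarith
  · rw [min_eq_right h] at h4
    have h5 : ((cf y z - cf 1 y - cf 1 z : ℤ) : ℝ) ≤ (cf x z - cf 1 x - cf 1 z : ℤ) := by exact_mod_cast h4
    have h6 := min_le_right (gpr (wr XX) x y) (gpr (wr XX) y z)
    linarith

theorem setup_XX : Setup (wr XX) tt HH 1 where
  len := wr_isLen _ closure_XX
  conj := HH_conj
  bdd h hh := by
    have : wl XX h ≤ 1 := wl_le _ _ _ (by rw [pow_one]; exact Or.inl (Or.inl hh))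
    unfold wr
    exact_mod_cast this

theorem tt_pow_len (n : ℕ) : wr XX (tt ^ n) = n := by
  apply le_antisymm
  · have : wl XX (tt ^ n) ≤ n := wl_le _ _ _ (Set.pow_mem_pow (Or.inl (Or.inr rfl)))
    unfold wr
    exact_mod_cast this
  · have := lev_le_wr (tt ^ n)
    rw [lev_pow, lev_tt] at this
    simpa using this

/-- the transposition `(0 1)` -/
def s01 : GG := ⟨Equiv.swap 0 1, fix_mem _ 0 (fun i hi =>
  Equiv.swap_apply_of_ne_of_ne (by omega) (by omega))⟩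

theorem s01_HH : s01 ∈ HH := fun i hi => Equiv.swap_apply_of_ne_of_ne (by omega) (by omega)

theorem s01_neg (i : ℤ) (hi : i < 0) : (s01 : Equiv.Perm ℤ) i = i := s01_HH i hi

theorem s01_inv_neg (i : ℤ) (hi : i < 0) : ((s01 : Equiv.Perm ℤ))⁻¹ i = i := by
  rw [Equiv.Perm.inv_eq_iff_eq, s01_neg i hi]

theorem s01_zero : (s01 : Equiv.Perm ℤ) 0 = 1 := Equiv.swap_apply_left _ _

theorem h_pow (n : ℕ) : (s01 * tt * s01⁻¹) ^ n = s01 * tt ^ n * s01⁻¹ := conj_pow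

theorem h_inv_pow (n : ℕ) : ((s01 * tt * s01⁻¹)⁻¹) ^ n = s01 * (tt ^ n)⁻¹ * s01⁻¹ := by
  rw [inv_pow, h_pow]; group

theorem lev_s01 : lev s01 = 0 := lev_HH _ s01_HH

theorem not_se1 : ¬ SE (wr XX) tt (s01 * tt * s01⁻¹) := by
  intro h
  obtain ⟨N, hN⟩ := h 2
  have h1 := hN (N + 1) (N + 1) (by omega) (by omega)
  rw [h_pow] at h1
  have h2 := gpr_upper (tt ^ (N + 1)) (s01 * tt ^ (N + 1) * s01⁻¹)
  have hl : lev (s01 * tt ^ (N + 1) * s01⁻¹) = N + 1 := by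
    rw [lev_mul, lev_mul, lev_inv, lev_s01, lev_pow, lev_tt]; push_cast; ring
  have hl2 : lev (tt ^ (N + 1)) = N + 1 := by rw [lev_pow, lev_tt]; push_cast; ring
  have c1 : cf (tt ^ (N + 1)) (s01 * tt ^ (N + 1) * s01⁻¹) ≤ 0 := by
    by_contra hc
    push Not at hc
    obtain ⟨_, _, h3⟩ := cf_spec (tt ^ (N + 1)) (s01 * tt ^ (N + 1) * s01⁻¹)
    have h4 := h3 0 hc
    rw [hl, hl2, Subgroup.coe_mul, Subgroup.coe_mul, Subgroup.coe_inv, tt_pow] at h4
    simp only [Equiv.Perm.mul_apply] at h4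
    rw [s01_inv_neg _ (by push_cast; omega), sh_apply] at h4
    have e : (0 : ℤ) - (N + 1) + ((N + 1 : ℕ) : ℤ) = 0 := by push_cast; ring
    rw [e, s01_zero] at h4
    omega
  have c2 : 0 ≤ cf 1 (tt ^ (N + 1)) := cf_max _ _ _ ⟨by rw [lev_one], by rw [hl2]; omega, fun i hi => by
    rw [lev_one, hl2, tt_pow, sh_apply]
    show i - 0 = _
    push_cast
    ring⟩
  have c3 : 0 ≤ cf 1 (s01 * tt ^ (N + 1) * s01⁻¹) := cf_max _ _ _ ⟨by rw [lev_one], by rw [hl]; omega,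
    fun i hi => by
      rw [lev_one, hl, Subgroup.coe_mul, Subgroup.coe_mul, Subgroup.coe_inv, tt_pow]
      simp only [Equiv.Perm.mul_apply]
      rw [s01_inv_neg _ (by omega), sh_apply, s01_neg _ (by push_cast; omega)]
      show i - 0 = _
      push_cast
      ring⟩
  have c4 : ((cf (tt ^ (N + 1)) (s01 * tt ^ (N + 1) * s01⁻¹) - cf 1 (tt ^ (N + 1)) -
      cf 1 (s01 * tt ^ (N + 1) * s01⁻¹) : ℤ) : ℝ) ≤ 0 := by
    have : (cf (tt ^ (N + 1)) (s01 * tt ^ (N + 1) * s01⁻¹) - cf 1 (tt ^ (N + 1)) -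
      cf 1 (s01 * tt ^ (N + 1) * s01⁻¹) : ℤ) ≤ 0 := by omega
    exact_mod_cast this
  unfold gpr at h2
  linarith

theorem not_se2 : ¬ SE (wr XX) tt (s01 * tt * s01⁻¹)⁻¹ := by
  intro h
  obtain ⟨N, hN⟩ := h 2
  have h1 := hN N N le_rfl le_rfl
  rw [h_inv_pow] at h1
  have h2 := gpr_upper (tt ^ N) (s01 * (tt ^ N)⁻¹ * s01⁻¹)
  have hl : lev (s01 * (tt ^ N)⁻¹ * s01⁻¹) = -N := by
    rw [lev_mul, lev_mul, lev_inv, lev_inv, lev_s01, lev_pow, lev_tt]; ring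
  have hl2 : lev (tt ^ N) = N := by rw [lev_pow, lev_tt]; ring
  have c1 : cf (tt ^ N) (s01 * (tt ^ N)⁻¹ * s01⁻¹) ≤ -N := by
    have := cf_le_right (tt ^ N) (s01 * (tt ^ N)⁻¹ * s01⁻¹)
    rwa [hl] at this
  have c2 : 0 ≤ cf 1 (tt ^ N) := cf_max _ _ _ ⟨by rw [lev_one], by rw [hl2]; omega, fun i hi => by
    rw [lev_one, hl2, tt_pow, sh_apply]
    show i - 0 = _
    ring⟩
  have c3 : -(N : ℤ) ≤ cf 1 (s01 * (tt ^ N)⁻¹ * s01⁻¹) := cf_max _ _ _ ⟨by rw [lev_one]; omega, by rw [hl],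
    fun i hi => by
      rw [lev_one, hl, Subgroup.coe_mul, Subgroup.coe_mul, Subgroup.coe_inv, Subgroup.coe_inv, tt_pow]
      simp only [Equiv.Perm.mul_apply]
      rw [s01_inv_neg _ (by omega), sh_inv_apply, s01_neg _ (by omega)]
      show i - 0 = _
      ring⟩
  have c4 : ((cf (tt ^ N) (s01 * (tt ^ N)⁻¹ * s01⁻¹) - cf 1 (tt ^ N) -
      cf 1 (s01 * (tt ^ N)⁻¹ * s01⁻¹) : ℤ) : ℝ) ≤ 0 := by
    have : (cf (tt ^ N) (s01 * (tt ^ N)⁻¹ * s01⁻¹) - cf 1 (tt ^ N) -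
      cf 1 (s01 * (tt ^ N)⁻¹ * s01⁻¹) : ℤ) ≤ 0 := by omega
    exact_mod_cast this
  unfold gpr at h2
  linarith

theorem QP_XX : QPs (wr XX) := by
  refine ⟨⟨2, hyp_XX⟩, ⟨tt, s01 * tt * s01⁻¹, lox_of_lev _ (by rw [lev_tt]),
    lox_of_lev _ (by rw [lev_mul, lev_mul, lev_inv, lev_s01, lev_tt]; norm_num), ?_⟩, ?_⟩
  · rintro (⟨h, _⟩ | ⟨h, _⟩)
    · exact not_se1 h
    · exact not_se2 h
  · exact share setup_XX 1 0 0 one_pos (fun n => by rw [tt_pow_len]; simp)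
      (fun i j => by rw [tt_pow_len, tt_pow_len, tt_pow_len]; push_cast; linarith) decomp

/-- The main theorem: every quasi-parabolic generating set is equivalent to `XX`. -/
theorem unique (Y : Set GG) (hY : Subgroup.closure Y = ⊤) (hq : QPs (wr Y)) :
    (∃ C : ℕ, ∀ y ∈ Y, wl XX y ≤ C) ∧ (∃ C : ℕ, ∀ x ∈ XX, wl Y x ≤ C) := by
  have hL := wr_isLen Y hY
  obtain ⟨⟨δ, hδ⟩, ⟨g, h, hg, hh, hne⟩, _⟩ := hq
  have h4 : Four (wr Y) δ := four_of_gp hL hδ
  obtain ⟨B, hB⟩ := HH_bounded _ hL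
  have S : Setup (wr Y) tt HH B := ⟨hL, HH_conj, hB⟩
  obtain ⟨c, C, hc, hlow⟩ := lox_exists_lower S decomp g hg
  obtain ⟨C1, hC1, hadd⟩ := quasi_add hL h4 tt c C hc hlow
  obtain ⟨R, hBR, ⟨k0, hk0⟩, hkey⟩ := W_package S h4 c C C1 hc hlow hC1 hadd
  refine ⟨?_, ?_⟩
  · -- the family of sets of permutations
    let Wp : ℤ → Set (Equiv.Perm ℤ) := fun k => {σ | ∃ u : GG, (u : Equiv.Perm ℤ) = σ ∧ u ∈ W (wr Y) tt HH R k}
    have F : WFam Wp k0 := by
      refine ⟨?_, ?_, ?_, ?_, ?_, ?_⟩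
      · rintro k σ ⟨u, rfl, hu⟩
        exact (inN_iff u).1 hu.1
      · rintro k σ τ ⟨u, rfl, hu⟩ ⟨v, rfl, hv⟩
        exact ⟨u * v, rfl, hk0 k u v hu hv⟩
      · rintro k σ ⟨u, rfl, hu⟩ i
        refine ⟨tt ^ i * u * (tt ^ i)⁻¹, ?_, W_conj S hu i⟩
        rw [Subgroup.coe_mul, Subgroup.coe_mul, Subgroup.coe_inv, tt_zpow]
      · intro i σ hσ
        refine ⟨⟨σ, fix_mem σ i hσ⟩, rfl, W_of_conj_mem S hBR (-i) ?_⟩
        apply conj_mem_HH
        intro j hj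
        exact hσ j (by omega)
      · rintro k k' hkk σ ⟨u, rfl, hu⟩
        exact ⟨u, rfl, W_mono hkk hu⟩
      · rintro k σ ⟨u, rfl, hu⟩
        exact ⟨u⁻¹, rfl, W_inv hL hu⟩
    rcases F.dichotomy with hI | ⟨C7, hII⟩
    · exfalso
      apply hne
      refine lineal S c C C1 (R + 2 * wr Y (tt ^ k0)) hc hlow hadd decomp ?_ g h hg hh
      intro u hu
      obtain ⟨M, hM⟩ := (inN_iff u).1 hu
      obtain ⟨v, hv1, hv2⟩ := hI u M hM
      have huv : v = u := Subtype.ext hv1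
      subst huv
      have h5 := hv2.2 k0 le_rfl
      rw [zpow_natCast] at h5
      have e : v = (tt ^ k0)⁻¹ * (tt ^ k0 * v * (tt ^ k0)⁻¹) * tt ^ k0 := by group
      rw [e]
      have a1 := hL.mul ((tt ^ k0)⁻¹ * (tt ^ k0 * v * (tt ^ k0)⁻¹)) (tt ^ k0)
      have a2 := hL.mul (tt ^ k0)⁻¹ (tt ^ k0 * v * (tt ^ k0)⁻¹)
      rw [hL.inv] at a2
      linarith
    · -- bounded
      obtain ⟨K0, hK0⟩ := exists_nat_gt ((1 + B + C1 + C) / c)
      rw [div_lt_iff₀ hc] at hK0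
      obtain ⟨kR, hkR⟩ := hkey (2 + B + C1)
      obtain ⟨m, hm⟩ : ∃ m : ℕ, (kR : ℤ) + C7 ≤ m := ⟨((kR : ℤ) + C7).toNat, by omega⟩
      have main : ∀ y : GG, wr Y y ≤ 1 → (∃ n k : ℕ, ∃ h ∈ HH, y = (tt ^ n)⁻¹ * h * tt ^ n * tt ^ k) →
          wl XX y ≤ m + 1 + (m + K0) := by
        rintro y hy ⟨n, k, h, hh, e⟩
        set u := (tt ^ n)⁻¹ * h * tt ^ n with hu
        have huN : InN tt HH u := ⟨n, by
          have : tt ^ n * u * (tt ^ n)⁻¹ = h := by rw [hu]; group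
          rw [this]; exact hh⟩
        have h5 := level_bound S C1 hadd u huN k
        rw [← e] at h5
        have h6 := hlow k
        have hkK : k ≤ K0 := by
          by_contra hcon
          push Not at hcon
          have : (K0 : ℝ) ≤ k := by exact_mod_cast hcon.le
          have h7 : c * K0 ≤ c * k := mul_le_mul_of_nonneg_left this hc.le
          nlinarith
        have h7 : wr Y u ≤ 2 + B + C1 := by
          have e2 : u = y * (tt ^ k)⁻¹ := by rw [e]; group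
          rw [e2]
          have a1 := hL.mul y (tt ^ k)⁻¹
          rw [hL.inv] at a1
          linarith
        have h8 := hkR u huN h7
        have h9 := hII kR u ⟨u, rfl, h8⟩
        have h10 : tt ^ m * u * (tt ^ m)⁻¹ ∈ HH := by
          have := conj_mem_HH u m (fun i hi => h9 i (by omega))
          rwa [zpow_natCast] at this
        have h11 := wl_form m (m + k) _ h10
        have e3 : (tt ^ m)⁻¹ * (tt ^ m * u * (tt ^ m)⁻¹) * tt ^ (m + k) = y := by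
          rw [e, pow_add]; group
        rw [e3] at h11
        omega
      refine ⟨m + 1 + (m + K0), fun y hy => ?_⟩
      have hy1 : wr Y y ≤ 1 := by
        have : wl Y y ≤ 1 := wl_le _ _ _ (by rw [pow_one]; exact Or.inl hy)
        unfold wr
        exact_mod_cast this
      obtain ⟨n, k, h', hh', e | e⟩ := decomp y
      · exact main y hy1 ⟨n, k, h', hh', e⟩
      · have h5 := main y⁻¹ (by rw [hL.inv]; exact hy1) ⟨n, k, h', hh', e⟩
        have h6 := (wr_isLen XX closure_XX).inv y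
        unfold wr at h6
        have h7 : wl XX y⁻¹ = wl XX y := by exact_mod_cast h6
        rwa [h7] at h5
  · obtain ⟨n, hn⟩ := exists_nat_ge (max B (wr Y tt))
    refine ⟨n, fun x hx => ?_⟩
    have : wr Y x ≤ n := by
      rcases hx with hx | hx
      · exact (hB x hx).trans ((le_max_left _ _).trans hn)
      · rw [hx]; exact (le_max_right _ _).trans hn
    unfold wr at this
    exact_mod_cast this

end Pool.Agent.H191R3.QP
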