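import Mathlib
import Pool.Agent.H191R3.LipPath

set_option autoImplicit false

open Set Topology

noncomputable section

namespace Pool.Agent.H191R3

/-- the closed topologist's sine curve -/
def snk : Set (ℝ × ℝ) :=
  {p | (-1 ≤ p.1 ∧ p.1 ≤ 1) ∧ (0 ≤ p.2 ∧ p.2 ≤ 1) ∧ (p.2 = 0 ∨ p.1 = Real.cos (Real.pi / p.2))}

/-- heights of the spokes -/
def ht (m : ℕ) : ℝ := 1 / (2 * ((m : ℝ) + 1))

def VV : Set ℝ := insert 0 (range ht)

/-- the spokes: the cone from `(2, 0)` over the points `(1, v)`, `v ∈ VV` -/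
def spokes : Set (ℝ × ℝ) := (fun q : ℝ × ℝ => (2 - q.1, q.1 * q.2)) '' (Icc 0 1 ×ˢ VV)

/-- the continuum -/
def XX : Set (ℝ × ℝ) := snk ∪ spokes

theorem ht_pos (m : ℕ) : 0 < ht m := by unfold ht; positivity

theorem ht_le (m : ℕ) : ht m ≤ 1 / 2 := by
  unfold ht
  apply one_div_le_one_div_of_le (by norm_num)
  have : (0 : ℝ) ≤ m := Nat.cast_nonneg m
  linarith

theorem VV_mem {v : ℝ} (hv : v ∈ VV) : 0 ≤ v ∧ v ≤ 1 := by
  rcases hv with rfl | ⟨m, rfl⟩
  · norm_num
  · exact ⟨(ht_pos m).le, (ht_le m).trans (by norm_num)⟩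

theorem isCompact_snk : IsCompact snk := by
  have hbox : IsCompact (Icc (-1 : ℝ) 1 ×ˢ Icc (0 : ℝ) 1) := isCompact_Icc.prod isCompact_Icc
  have hcl : IsClosed {p : ℝ × ℝ | p.2 = 0 ∨ p.1 = Real.cos (Real.pi / p.2)} := by
    rw [← isOpen_compl_iff]
    have hO : IsOpen {p : ℝ × ℝ | p.2 ≠ 0} := isOpen_ne_fun continuous_snd continuous_const
    have hc : ContinuousOn (fun p : ℝ × ℝ => p.1 - Real.cos (Real.pi / p.2)) {p | p.2 ≠ 0} := by
      apply ContinuousOn.sub continuous_fst.continuousOn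
      apply Real.continuous_cos.comp_continuousOn
      exact continuousOn_const.div continuous_snd.continuousOn (fun p hp => hp)
    have := hc.isOpen_inter_preimage hO (t := {0}ᶜ) isOpen_compl_singleton
    convert this using 1
    ext p
    simp only [mem_compl_iff, mem_ofPred_eq, not_or, mem_inter_iff, mem_preimage,
      mem_singleton_iff, sub_eq_zero]
  have : snk = (Icc (-1 : ℝ) 1 ×ˢ Icc (0 : ℝ) 1) ∩
      {p : ℝ × ℝ | p.2 = 0 ∨ p.1 = Real.cos (Real.pi / p.2)} := by
    ext p
    simp only [snk, mem_ofPred_eq, mem_inter_iff, mem_prod, mem_Icc]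
    tauto
  rw [this]
  exact hbox.inter_right hcl

theorem isCompact_VV : IsCompact VV := by
  have : Filter.Tendsto ht Filter.atTop (𝓝 0) := by
    have h := tendsto_one_div_add_atTop_nhds_zero_nat (𝕜 := ℝ)
    have h2 := h.const_mul (1 / 2)
    rw [mul_zero] at h2
    refine h2.congr fun m => ?_
    unfold ht
    rw [one_div_mul_one_div]
  exact this.isCompact_insert_range

theorem isCompact_spokes : IsCompact spokes :=
  (isCompact_Icc.prod isCompact_VV).image (by fun_prop)

theorem isCompact_XX : IsCompact XX := isCompact_snk.union isCompact_spokes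

instance : CompactSpace XX := isCompact_iff_compactSpace.mp isCompact_XX

theorem apex_mem : ((2, 0) : ℝ × ℝ) ∈ XX := by
  right
  exact ⟨(0, 0), ⟨⟨le_refl _, zero_le_one⟩, Or.inl rfl⟩, by simp⟩

def apex : XX := ⟨(2, 0), apex_mem⟩

theorem foot_mem : ((-1, 1) : ℝ × ℝ) ∈ XX := by
  left
  refine ⟨⟨le_refl _, by norm_num⟩, ⟨by norm_num, le_refl _⟩, Or.inr ?_⟩
  simp

/-- the end point of the sine curve -/
def foot : XX := ⟨(-1, 1), foot_mem⟩

theorem gam_mem {θ : ℝ} (hθ : Real.pi ≤ θ) : ((Real.cos θ, Real.pi / θ) : ℝ × ℝ) ∈ XX := by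
  left
  have h0 : 0 < θ := lt_of_lt_of_le Real.pi_pos hθ
  refine ⟨⟨Real.neg_one_le_cos θ, Real.cos_le_one θ⟩, ⟨by positivity, ?_⟩, Or.inr ?_⟩
  · show Real.pi / θ ≤ 1
    rw [div_le_one h0]; exact hθ
  · show Real.cos θ = Real.cos (Real.pi / (Real.pi / θ))
    rw [div_div_cancel₀ Real.pi_pos.ne']

theorem spoke_mem {s v : ℝ} (hs : s ∈ Icc (0 : ℝ) 1) (hv : v ∈ VV) :
    ((2 - s, s * v) : ℝ × ℝ) ∈ XX := Or.inr ⟨(s, v), ⟨hs, hv⟩, rfl⟩

theorem LJ_spoke {s v : ℝ} (hs : s ∈ Icc (0 : ℝ) 1) (hv : v ∈ VV) (x : XX)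
    (hx : x.1 = (2 - s, s * v)) : LJ 4 apex x := by
  have hv' := VV_mem hv
  have h := LJ.of_param (S := XX) (fun r => ((2 - r, r * v) : ℝ × ℝ)) 1 0 s zero_le_one ?_ ?_
    apex x (by simp [apex]) hx
  · refine h.mono ?_
    rw [sub_zero, abs_of_nonneg hs.1]
    linarith [hs.2]
  · intro t ht
    rw [uIcc_of_le hs.1] at ht
    exact spoke_mem ⟨ht.1, ht.2.trans hs.2⟩ hv
  · intro a _ b _
    rw [Prod.dist_eq]
    apply max_le
    · show dist (2 - a) (2 - b) ≤ 1 * |a - b|
      rw [Real.dist_eq, one_mul, abs_sub_comm]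
      apply le_of_eq
      congr 1
      ring
    · show dist (a * v) (b * v) ≤ 1 * |a - b|
      rw [Real.dist_eq, ← sub_mul, abs_mul, one_mul, abs_of_nonneg hv'.1]
      exact mul_le_of_le_one_right (abs_nonneg _) hv'.2

theorem LJ_bar {r : ℝ} (hr : r ∈ Icc (-1 : ℝ) 2) (x : XX) (hx : x.1 = (r, 0)) :
    LJ 4 apex x := by
  have h := LJ.of_param (S := XX) (fun r => ((r, 0) : ℝ × ℝ)) 1 2 r zero_le_one ?_ ?_
    apex x rfl hx
  · refine h.mono ?_
    rw [abs_of_nonpos (by linarith [hr.2])]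
    linarith [hr.1]
  · intro t ht
    rw [uIcc_of_ge hr.2] at ht
    rcases le_total t 1 with h1 | h1
    · left
      exact ⟨⟨hr.1.trans ht.1, h1⟩, ⟨le_refl _, zero_le_one⟩, Or.inl rfl⟩
    · right
      refine ⟨(2 - t, 0), ⟨⟨by linarith [ht.2], by linarith⟩, Or.inl rfl⟩, ?_⟩
      simp
  · intro a _ b _
    rw [Prod.dist_eq]
    apply max_le
    · show dist a b ≤ 1 * |a - b|
      rw [Real.dist_eq, one_mul]
    · show dist (0 : ℝ) 0 ≤ 1 * |a - b|
      rw [dist_self]; positivity

theorem LJ_snake {α β : ℝ} (hα : Real.pi ≤ α) (hβ : Real.pi ≤ β) (hαβ : |β - α| ≤ 4) (x y : XX)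
    (hx : x.1 = (Real.cos α, Real.pi / α)) (hy : y.1 = (Real.cos β, Real.pi / β)) : LJ 4 x y := by
  have hge : ∀ t ∈ uIcc α β, Real.pi ≤ t := by
    intro t ht
    rw [mem_uIcc] at ht
    rcases ht with ht | ht
    · exact hα.trans ht.1
    · exact hβ.trans ht.1
  have h := LJ.of_param (S := XX) (fun t => ((Real.cos t, Real.pi / t) : ℝ × ℝ)) 1 α β
    zero_le_one (fun t ht => gam_mem (hge t ht)) ?_ x y hx hy
  · refine h.mono ?_
    linarith
  · intro a ha b hb
    have ha' := hge a ha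
    have hb' := hge b hb
    have hπ := Real.pi_gt_three
    have ha0 : 0 < a := by linarith
    have hb0 : 0 < b := by linarith
    rw [Prod.dist_eq]
    apply max_le
    · show dist (Real.cos a) (Real.cos b) ≤ 1 * |a - b|
      rw [Real.dist_eq, one_mul]
      exact Real.abs_cos_sub_cos_le a b
    · show dist (Real.pi / a) (Real.pi / b) ≤ 1 * |a - b|
      rw [Real.dist_eq, one_mul]
      have e : Real.pi / a - Real.pi / b = (b - a) * (Real.pi / (a * b)) := by
        field_simp
      rw [e, abs_mul, abs_sub_comm, abs_of_nonneg (by positivity : 0 ≤ Real.pi / (a * b))]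
      apply mul_le_of_le_one_right (abs_nonneg _)
      rw [div_le_one (by positivity)]
      nlinarith

theorem LJ_all (x : XX) : LJ 8 apex x := by
  obtain ⟨⟨u, v⟩, hx⟩ := x
  rcases hx with hx | hx
  · obtain ⟨⟨h1, h2⟩, ⟨h3, h4⟩, h5⟩ := hx
    simp only at h1 h2 h3 h4 h5
    by_cases hv : v = 0
    · subst hv
      exact (LJ_bar ⟨h1, by linarith⟩ _ rfl).mono (by norm_num)
    · have hv0 : 0 < v := lt_of_le_of_ne h3 (Ne.symm hv)
      have h6 := h5.resolve_left hv
      have hπ := Real.pi_pos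
      set θ := Real.pi / v with hθ
      have hθπ : Real.pi ≤ θ := by
        rw [hθ, le_div_iff₀ hv0]
        nlinarith
      -- the nearest multiple of 2π
      obtain ⟨m, hm1, hm2⟩ : ∃ m : ℕ, 2 * Real.pi * ((m : ℝ) + 1) ≤ θ + Real.pi ∧
          θ ≤ 2 * Real.pi * ((m : ℝ) + 1) + Real.pi := by
        have h0 : 0 ≤ (θ - Real.pi) / (2 * Real.pi) := div_nonneg (by linarith) (by positivity)
        refine ⟨⌊(θ - Real.pi) / (2 * Real.pi)⌋₊, ?_, ?_⟩
        · have := Nat.floor_le h0
          rw [le_div_iff₀ (by positivity)] at this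
          linarith
        · have := (Nat.lt_floor_add_one ((θ - Real.pi) / (2 * Real.pi))).le
          rw [div_le_iff₀ (by positivity)] at this
          linarith
      set α := 2 * Real.pi * ((m : ℝ) + 1) with hα
      have hαπ : Real.pi ≤ α := by
        have : (0 : ℝ) ≤ m := Nat.cast_nonneg m
        rw [hα]; nlinarith
      have hcos : Real.cos α = 1 := by
        have := Real.cos_nat_mul_two_pi (m + 1)
        rw [← this, hα]
        congr 1
        push_cast; ring
      have hdiv : Real.pi / α = ht m := by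
        rw [hα, ht]
        field_simp
      let y : XX := ⟨(Real.cos α, Real.pi / α), gam_mem hαπ⟩
      have e1 : LJ 4 apex y := by
        refine LJ_spoke (s := 1) (v := ht m) ⟨zero_le_one, le_refl _⟩ (Or.inr ⟨m, rfl⟩) y ?_
        show ((Real.cos α, Real.pi / α) : ℝ × ℝ) = _
        rw [hcos, hdiv]
        norm_num
      have e2 : LJ 4 y ⟨(u, v), Or.inl ⟨⟨h1, h2⟩, ⟨h3, h4⟩, h5⟩⟩ := by
        refine LJ_snake hαπ hθπ ?_ _ _ rfl ?_
        · have := Real.pi_lt_four
          rw [abs_le]; constructor <;> linarith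
        · show (u, v) = (Real.cos θ, Real.pi / θ)
          rw [← h6, hθ, div_div_cancel₀ hπ.ne']
      have := e1.trans (by norm_num) e2
      exact this.mono (by norm_num)
  · obtain ⟨⟨s, v'⟩, ⟨hs, hv⟩, h⟩ := hx
    exact (LJ_spoke hs hv _ h.symm).mono (by norm_num)

instance : PathConnectedSpace XX := by
  refine ⟨⟨apex⟩, fun x y => ?_⟩
  obtain ⟨p, -⟩ := LJ_all x
  obtain ⟨q, -⟩ := LJ_all y
  exact ⟨p.symm.trans q⟩

/-! ### The obstruction -/

/-- a continuous coordinate on the complement of the apex -/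
def FF (p : ℝ × ℝ) : ℝ := p.2 / min 1 (2 - p.1)

theorem lt_two {p : ℝ × ℝ} (hp : p ∈ XX) (h : p ≠ (2, 0)) : p.1 < 2 := by
  rcases hp with hp | ⟨⟨s, v⟩, ⟨hs, hv⟩, rfl⟩
  · linarith [hp.1.2]
  · show 2 - s < 2
    rcases eq_or_lt_of_le hs.1 with h0 | h0
    · exfalso
      apply h
      simp only at h0
      rw [← h0]; simp
    · simp only at h0
      linarith

theorem FF_continuousOn : ContinuousOn FF {p | p.1 < 2} := by
  unfold FF
  apply ContinuousOn.div (by fun_prop) (by fun_prop)
  intro p hp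
  have : p.1 < 2 := hp
  have h : 0 < min 1 (2 - p.1) := lt_min one_pos (by linarith)
  exact h.ne'

theorem FF_fiber {p : ℝ × ℝ} (hp : p ∈ XX) (h2 : p.1 < 2) (hc : FF p ∉ VV) :
    p.1 = Real.cos (Real.pi / FF p) := by
  rcases hp with hp | ⟨⟨s, v⟩, ⟨hs, hv⟩, rfl⟩
  · have h1 : min 1 (2 - p.1) = 1 := min_eq_left (by linarith [hp.1.2])
    have h3 : FF p = p.2 := by unfold FF; rw [h1, div_one]
    rw [h3] at hc ⊢
    rcases hp.2.2 with h | h
    · exact absurd (Or.inl h) hc
    · exact h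
  · exfalso
    apply hc
    have h3 : 2 - s < 2 := h2
    have h4 : FF (2 - s, s * v) = v := by
      unfold FF
      have : min 1 (2 - (2 - s)) = s := by
        rw [sub_sub_cancel]; exact min_eq_right hs.2
      simp only [this]
      rw [mul_div_cancel_left₀]
      linarith
    show FF (2 - s, s * v) ∈ VV
    rw [h4]
    exact hv

/-- the special points, in the middle of the spokes -/
def mid (m : ℕ) : ℝ × ℝ := (3 / 2, ht m / 2)

theorem FF_mid (m : ℕ) : FF (mid m) = ht m := by
  unfold FF mid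
  norm_num
  ring

theorem FF_foot : FF (-1, 1) = 1 := by
  unfold FF
  norm_num

def cc (i : ℕ) : ℝ := 1 / (2 * (i : ℝ) + 3)
def dd (i : ℕ) : ℝ := 1 / (2 * (i : ℝ) + 7 / 2)

theorem cc_pos (i : ℕ) : 0 < cc i := by unfold cc; positivity
theorem dd_pos (i : ℕ) : 0 < dd i := by unfold dd; positivity

theorem cc_notMem (i : ℕ) : cc i ∉ VV := by
  rintro (h | ⟨m, h⟩)
  · exact (cc_pos i).ne' h
  · unfold cc ht at h
    have h1 : (2 : ℝ) * (m + 1) = 2 * i + 3 := by
      have h2 : (0 : ℝ) < 2 * (m + 1) := by positivity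
      have h3 : (0 : ℝ) < 2 * i + 3 := by positivity
      field_simp at h
      linarith
    have h2 : 2 * (m + 1) = 2 * i + 3 := by exact_mod_cast h1
    omega

theorem dd_notMem (i : ℕ) : dd i ∉ VV := by
  rintro (h | ⟨m, h⟩)
  · exact (dd_pos i).ne' h
  · unfold dd ht at h
    have h1 : (4 : ℝ) * (m + 1) = 4 * i + 7 := by
      have h2 : (0 : ℝ) < 2 * (m + 1) := by positivity
      have h3 : (0 : ℝ) < 2 * i + 7 / 2 := by positivity
      field_simp at h
      linarith
    have h2 : 4 * (m + 1) = 4 * i + 7 := by exact_mod_cast h1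
    omega

theorem cos_cc (i : ℕ) : Real.cos (Real.pi / cc i) = -1 := by
  have : Real.pi / cc i = Real.pi + ((i + 1 : ℕ) : ℝ) * (2 * Real.pi) := by
    unfold cc
    push_cast
    rw [div_div_eq_mul_div, div_one]; ring
  rw [this, Real.cos_add_nat_mul_two_pi, Real.cos_pi]

theorem cos_dd (i : ℕ) : Real.cos (Real.pi / dd i) = 0 := by
  have : Real.pi / dd i = (Real.pi / 2 + Real.pi) + ((i + 1 : ℕ) : ℝ) * (2 * Real.pi) := by
    unfold dd
    push_cast
    rw [div_div_eq_mul_div, div_one]; ring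
  rw [this, Real.cos_add_nat_mul_two_pi, Real.cos_add_pi, Real.cos_pi_div_two, neg_zero]

theorem dd_lt_cc (i : ℕ) : dd i < cc i := by
  unfold dd cc
  apply one_div_lt_one_div_of_lt (by positivity)
  linarith

theorem cc_lt_dd {i j : ℕ} (h : i < j) : cc j < dd i := by
  unfold dd cc
  apply one_div_lt_one_div_of_lt (by positivity)
  have : (i : ℝ) + 1 ≤ j := by exact_mod_cast h
  linarith

theorem exists_piece {n : ℕ} (t : Fin (n + 1) → unitInterval) (h0 : t 0 = 0)
    (h1 : t (Fin.last n) = 1) (τ : unitInterval) :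
    ∃ i : Fin n, t i.castSucc ≤ τ ∧ τ ≤ t i.succ := by
  by_contra hcon
  push Not at hcon
  have key : ∀ i : Fin (n + 1), t i ≤ τ ∧ (i ≠ 0 → t i < τ) := by
    intro i
    induction i using Fin.induction with
    | zero => exact ⟨by rw [h0]; exact bot_le, fun h => absurd rfl h⟩
    | succ i ih =>
      have := hcon i ih.1
      exact ⟨this.le, fun _ => this⟩
  have h2 := key (Fin.last n)
  by_cases hn : Fin.last n = 0
  · rw [hn, h0] at h1
    exact zero_ne_one h1
  · have h3 := h2.2 hn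
    rw [h1] at h3
    exact absurd h3 (not_lt.mpr le_top)

/-- An injective path from the apex to the foot through the middle of the `(n+1)`-st spoke cannot be
divided into `n` pieces of diameter at most `1/2`. -/
theorem obstruction (n : ℕ) (p : Path apex foot) (hinj : Function.Injective p)
    (hmid : ∃ s, (p s).1 = mid (n + 1)) (t : Fin (n + 1) → unitInterval) (h0 : t 0 = 0)
    (h1 : t (Fin.last n) = 1)
    (hd : ∀ i : Fin n, Metric.diam (⇑p '' Set.Icc (t i.castSucc) (t i.succ)) ≤ 1 / 2) : False := by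
  obtain ⟨s, hs⟩ := hmid
  have hs0 : 0 < (s : ℝ) := by
    rcases eq_or_lt_of_le s.2.1 with h | h
    · exfalso
      have : s = 0 := Subtype.ext h.symm
      rw [this, p.source] at hs
      have h2 : (2 : ℝ) = 3 / 2 := congrArg Prod.fst hs
      norm_num at h2
    · exact h
  -- away from the starting time the path avoids the apex
  have hlt : ∀ r : unitInterval, 0 < (r : ℝ) → (p r).1.1 < 2 := by
    intro r hr
    apply lt_two (p r).2
    intro h
    have : p r = p 0 := by rw [p.source]; exact Subtype.ext h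
    have h2 := hinj this
    rw [h2] at hr
    exact lt_irrefl _ hr
  let G : ℝ → ℝ := fun r => FF (p.extend r).1
  have hG : ContinuousOn G (Icc (s : ℝ) 1) := by
    apply FF_continuousOn.comp (continuous_subtype_val.comp p.continuous_extend).continuousOn
    intro r hr
    have hr' : r ∈ Icc (0 : ℝ) 1 := ⟨s.2.1.trans hr.1, hr.2⟩
    show (p.extend r).1.1 < 2
    rw [p.extend_apply hr']
    exact hlt ⟨r, hr'⟩ (lt_of_lt_of_le hs0 hr.1)
  have hGs : G s = ht (n + 1) := by
    show FF (p.extend s).1 = _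
    rw [p.extend_apply s.2]
    have : (p ⟨(s : ℝ), s.2⟩).1 = mid (n + 1) := hs
    rw [this, FF_mid]
  have hG1 : G 1 = 1 := by
    show FF (p.extend 1).1 = _
    rw [p.extend_one]
    exact FF_foot
  have hG' : ∀ r : unitInterval, G r = FF (p r).1 := by
    intro r
    show FF (p.extend r).1 = _
    rw [p.extend_apply r.2]
  -- times at which the levels are attained
  have hτ : ∀ i : Fin (n + 1), ∃ τ : unitInterval, (s : ℝ) ≤ τ ∧ G τ = cc i := by
    intro i
    have hmem : cc i ∈ Icc (G s) (G 1) := by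
      rw [hGs, hG1]
      constructor
      · unfold ht cc
        apply one_div_le_one_div_of_le (by positivity)
        have : ((i : ℕ) : ℝ) ≤ n := by exact_mod_cast Nat.lt_succ_iff.mp i.2
        push_cast
        linarith
      · unfold cc
        rw [div_le_one (by positivity)]
        have : (0 : ℝ) ≤ (i : ℕ) := Nat.cast_nonneg _
        linarith
    obtain ⟨τ, hτ1, hτ2⟩ := intermediate_value_Icc s.2.2 hG hmem
    exact ⟨⟨τ, s.2.1.trans hτ1.1, hτ1.2⟩, hτ1.1, hτ2⟩
  choose τ hτs hτG using hτ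
  choose f hf1 hf2 using fun i => exists_piece t h0 h1 (τ i)
  obtain ⟨i, j, hij, hfij⟩ := Fintype.exists_ne_map_eq_of_card_lt f (by simp)
  -- a generic contradiction for i < j in the same piece
  have key : ∀ i j : Fin (n + 1), i < j → f i = f j → False := by
    intro i j hij hfij
    have hcont : ContinuousOn G (uIcc (τ j : ℝ) (τ i)) := by
      apply hG.mono
      intro r hr
      rw [mem_uIcc] at hr
      rcases hr with hr | hr
      · exact ⟨(hτs j).trans hr.1, hr.2.trans (τ i).2.2⟩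
      · exact ⟨(hτs i).trans hr.1, hr.2.trans (τ j).2.2⟩
    have hmem : dd i ∈ uIcc (G (τ j)) (G (τ i)) := by
      rw [hτG, hτG, mem_uIcc]
      left
      exact ⟨(cc_lt_dd (i := i) (j := j) hij).le, (dd_lt_cc i).le⟩
    obtain ⟨r, hr, hrG⟩ := intermediate_value_uIcc hcont hmem
    have hrs : (s : ℝ) ≤ r ∧ r ≤ 1 := by
      rw [mem_uIcc] at hr
      rcases hr with hr | hr
      · exact ⟨(hτs j).trans hr.1, hr.2.trans (τ i).2.2⟩
      · exact ⟨(hτs i).trans hr.1, hr.2.trans (τ j).2.2⟩
    let r' : unitInterval := ⟨r, s.2.1.trans hrs.1, hrs.2⟩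
    have hpi : (p (τ i)).1.1 = -1 := by
      have h2 := FF_fiber (p (τ i)).2 (hlt _ (lt_of_lt_of_le hs0 (hτs i)))
        (by rw [← hG', hτG]; exact cc_notMem i)
      rw [h2, ← hG', hτG, cos_cc]
    have hpr : (p r').1.1 = 0 := by
      have h3 : FF (p r').1 = dd i := by rw [← hG']; exact hrG
      have h2 := FF_fiber (p r').2 (hlt _ (lt_of_lt_of_le hs0 hrs.1))
        (by rw [h3]; exact dd_notMem i)
      rw [h2, h3, cos_dd]
    have hrpiece : r' ∈ Icc (t (f i).castSucc) (t (f i).succ) := by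
      have a1 := hf1 i
      have a2 := hf2 i
      have b1 := hf1 j
      have b2 := hf2 j
      rw [← hfij] at b1 b2
      rw [mem_uIcc] at hr
      constructor
      · rcases hr with hr | hr
        · exact b1.trans (show τ j ≤ r' from hr.1)
        · exact a1.trans (show τ i ≤ r' from hr.1)
      · rcases hr with hr | hr
        · exact le_trans (show r' ≤ τ i from hr.2) a2
        · exact le_trans (show r' ≤ τ j from hr.2) b2
    have hipiece : τ i ∈ Icc (t (f i).castSucc) (t (f i).succ) := ⟨hf1 i, hf2 i⟩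
    have hdist : dist (p (τ i)) (p r') ≤ 1 / 2 :=
      le_trans (Metric.dist_le_diam_of_mem Metric.isBounded_of_compactSpace
        (mem_image_of_mem p hipiece) (mem_image_of_mem p hrpiece)) (hd (f i))
    have h4 : dist (p (τ i)).1.1 (p r').1.1 ≤ dist (p (τ i)) (p r') := by
      rw [Subtype.dist_eq, Prod.dist_eq]; exact le_max_left _ _
    rw [hpi, hpr, Real.dist_eq] at h4
    norm_num at h4
    linarith
  rcases lt_or_gt_of_ne hij with h | h
  · exact key i j h hfij
  · exact key j i h hfij.symm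

/-! ### The injective paths -/

def yy (m : ℕ) (u : ℝ) : ℝ := ht m + max 0 (2 * u - 1) * (1 - ht m)
def ww (u : ℝ) : ℝ := max 0 (1 - 2 * u)
def arc (m : ℕ) (u : ℝ) : ℝ × ℝ :=
  (Real.cos (Real.pi / yy m u) + ww u, yy m u - ww u * ht m)

theorem yy_pos (m : ℕ) (u : ℝ) : 0 < yy m u := by
  unfold yy
  have h1 := ht_pos m
  have h2 := ht_le m
  have : 0 ≤ max 0 (2 * u - 1) * (1 - ht m) := mul_nonneg (le_max_left _ _) (by linarith)
  linarith

theorem continuous_arc (m : ℕ) : Continuous (arc m) := by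
  have h1 : Continuous (yy m) := by unfold yy; fun_prop
  have h2 : Continuous ww := by unfold ww; fun_prop
  unfold arc
  refine Continuous.prodMk ?_ ?_
  · exact (Real.continuous_cos.comp (continuous_const.div h1 fun u => (yy_pos m u).ne')).add h2
  · exact h1.sub (h2.mul continuous_const)

theorem cos_ht (m : ℕ) : Real.cos (Real.pi / ht m) = 1 := by
  have : Real.pi / ht m = ((m + 1 : ℕ) : ℝ) * (2 * Real.pi) := by
    unfold ht
    push_cast
    rw [div_div_eq_mul_div, div_one]; ring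
  rw [this, Real.cos_nat_mul_two_pi]

theorem arc_left (m : ℕ) {u : ℝ} (hu : u ≤ 1 / 2) : arc m u = (2 - 2 * u, (2 * u) * ht m) := by
  have h1 : yy m u = ht m := by
    unfold yy; rw [max_eq_left (by linarith)]; ring
  have h2 : ww u = 1 - 2 * u := by unfold ww; exact max_eq_right (by linarith)
  unfold arc
  rw [h1, h2, cos_ht]
  refine Prod.ext ?_ ?_
  · show 1 + (1 - 2 * u) = 2 - 2 * u
    ring
  · show ht m - (1 - 2 * u) * ht m = 2 * u * ht m
    ring

theorem arc_right (m : ℕ) {u : ℝ} (hu : 1 / 2 ≤ u) :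
    arc m u = (Real.cos (Real.pi / yy m u), yy m u) ∧
      yy m u = ht m + (2 * u - 1) * (1 - ht m) := by
  have h1 : yy m u = ht m + (2 * u - 1) * (1 - ht m) := by
    unfold yy; rw [max_eq_right (by linarith)]
  have h2 : ww u = 0 := by unfold ww; exact max_eq_left (by linarith)
  refine ⟨?_, h1⟩
  unfold arc
  rw [h2]
  simp

theorem arc_mem (m : ℕ) {u : ℝ} (hu : u ∈ Icc (0 : ℝ) 1) : arc m u ∈ XX := by
  rcases le_total u (1 / 2) with h | h
  · rw [arc_left m h]
    exact spoke_mem ⟨by linarith [hu.1], by linarith⟩ (Or.inr ⟨m, rfl⟩)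
  · obtain ⟨h1, h2⟩ := arc_right m h
    rw [h1]
    left
    refine ⟨⟨Real.neg_one_le_cos _, Real.cos_le_one _⟩, ⟨(yy_pos m u).le, ?_⟩, Or.inr rfl⟩
    show yy m u ≤ 1
    rw [h2]
    have h3 := ht_le m
    have h4 := ht_pos m
    nlinarith [hu.2]

theorem arc_inj (m : ℕ) {u v : ℝ} (h : arc m u = arc m v) : u = v := by
  have hlt : ht m < 1 := (ht_le m).trans_lt (by norm_num)
  have mixed : ∀ a b : ℝ, a < 1 / 2 → 1 / 2 ≤ b → arc m a = arc m b → False := by
    intro a b ha hb hab
    rw [arc_left m ha.le, (arc_right m hb).1] at hab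
    have h1 : 2 - 2 * a = Real.cos (Real.pi / yy m b) := congrArg Prod.fst hab
    have h2 := Real.cos_le_one (Real.pi / yy m b)
    linarith
  rcases lt_or_ge u (1 / 2) with hu | hu <;> rcases lt_or_ge v (1 / 2) with hv | hv
  · rw [arc_left m hu.le, arc_left m hv.le] at h
    have h1 : 2 - 2 * u = 2 - 2 * v := congrArg Prod.fst h
    linarith
  · exact (mixed u v hu hv h).elim
  · exact (mixed v u hv hu h.symm).elim
  · obtain ⟨a1, a2⟩ := arc_right m hu
    obtain ⟨b1, b2⟩ := arc_right m hv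
    rw [a1, b1] at h
    have h1 : yy m u = yy m v := congrArg Prod.snd h
    rw [a2, b2] at h1
    have h2 : (1 - ht m) ≠ 0 := by linarith
    have h3 : (2 * u - 1) * (1 - ht m) = (2 * v - 1) * (1 - ht m) := by linarith
    have h4 := mul_right_cancel₀ h2 h3
    linarith

def arcPath (m : ℕ) : Path apex foot where
  toFun u := ⟨arc m u, arc_mem m u.2⟩
  continuous_toFun := ((continuous_arc m).comp continuous_subtype_val).subtype_mk _
  source' := by
    apply Subtype.ext
    show arc m 0 = (2, 0)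
    rw [arc_left m (by norm_num)]; simp
  target' := by
    apply Subtype.ext
    show arc m 1 = (-1, 1)
    obtain ⟨h1, h2⟩ := arc_right m (u := 1) (by norm_num)
    have h3 : yy m 1 = 1 := by rw [h2]; ring
    rw [h1, h3]; simp

theorem arcPath_injective (m : ℕ) : Function.Injective (arcPath m) := by
  intro u v h
  apply Subtype.ext
  exact arc_inj m (congrArg Subtype.val h)

theorem arcPath_mid (m : ℕ) : ∃ u, (arcPath m u).1 = mid m := by
  refine ⟨(⟨1 / 4, by norm_num, by norm_num⟩ : unitInterval), ?_⟩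
  show arc m (1 / 4) = mid m
  rw [arc_left m (by norm_num)]
  unfold mid
  refine Prod.ext ?_ ?_
  · norm_num
  · show 2 * (1 / 4) * ht m = ht m / 2
    ring

end Pool.Agent.H191R3
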